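import Pool.Statements.S00234
import Pool.Agent.H19.KG.Final

set_option autoImplicit false
open Pool Pool.MP_6babc4_ag

namespace Pool.Agent.S00234

/-- The negation of the preceding statement: For a Noetherian local domain of dimension d≥1 that is regular off the maximal ideal, every bounded free complex with finite-length homology has zero Euler characteristic after tensoring with any finitely generated module of dimension ≤ d/2. -/
theorem result :
    ¬ (∀ (A : Type) [CommRing A] [IsDomain A] [IsLocalRing A] [IsNoetherianRing A] (d : ℕ),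
      ringKrullDim A = (d : WithBot ℕ∞) → 1 ≤ d →
      (∀ (p : Ideal A) [p.IsPrime], p ≠ IsLocalRing.maximalIdeal A →
        ∃ s : Finset (Localization.AtPrime p),
          Ideal.span (s : Set (Localization.AtPrime p)) =
              IsLocalRing.maximalIdeal (Localization.AtPrime p) ∧
            (s.card : WithBot ℕ∞) ≤ ringKrullDim (Localization.AtPrime p)) →
      ∀ (M : Type) [AddCommGroup M] [Module A M] [Module.Finite A M],
      (∀ p ∈ Module.support A M, ∃ k : ℕ,
          ringKrullDim (A ⧸ p.asIdeal) ≤ (k : WithBot ℕ∞) ∧ 2 * k ≤ d) →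
      ∀ (N : ℕ) (n : ℕ → ℕ) (D : ∀ j : ℕ, (Fin (n (j + 1)) → A) →ₗ[A] (Fin (n j) → A)),
      n 0 = 0 → (∀ j, N < j → n j = 0) → (∀ j, (D j).comp (D (j + 1)) = 0) →
      (∀ j, Module.length A
          ↥(Submodule.map (LinearMap.range (D (j + 1))).mkQ (LinearMap.ker (D j))) < ⊤) →
      ∑ j ∈ Finset.range (N + 1), (-1 : ℤ) ^ j *
        ((Module.length A
          ↥(Submodule.map (LinearMap.range ((D (j + 1)).rTensor M)).mkQ
              (LinearMap.ker ((D j).rTensor M)))).toNat : ℤ) = 0) := by
  exact Pool.Agent.H19.KG.final

end Pool.Agent.S00234
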