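import Pool.Statements.S00793
import Pool.Agent.H33.MainBound

set_option autoImplicit false
open Pool Pool.MP_14caef_al

namespace Pool.Agent.S00793

open Finset

/-- For each e ≥ 3 and all large m, every numerical semigroup with multiplicity m and embedding dimension e+1 has type strictly less than C(e+r−2, r−1) + s_⟨r⟩, with r and s from the Macaulay-type bound. -/
theorem result : ∀ e : ℕ, 3 ≤ e → ∃ M : ℕ, ∀ m : ℕ, M ≤ m →
    ∀ r : ℕ, (e + r - 1).choose (r - 1) ≤ m → m < (e + r).choose r →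
    ∀ j : ℕ, ∀ n : ℕ → ℕ, 1 ≤ j → j ≤ r + 1 →
      (∀ i : ℕ, j ≤ i → i < r → n i < n (i + 1)) →
      (∀ i : ℕ, j ≤ i → i ≤ r → i ≤ n i) →
      m - (e + r - 1).choose (r - 1) = ∑ i ∈ Finset.Icc j r, (n i).choose i →
      ∀ S : AddSubmonoid ℕ, (S : Set ℕ)ᶜ.Finite →
        (m ∈ S ∧ m ≠ 0 ∧ ∀ x ∈ S, x ≠ 0 → m ≤ x) →
        {x : ℕ | x ∈ S ∧ x ≠ 0 ∧ ¬ ∃ a ∈ S, ∃ b ∈ S, a ≠ 0 ∧ b ≠ 0 ∧ a + b = x}.ncard = e + 1 →
        {x : ℕ | x ∉ S ∧ ∀ s ∈ S, s ≠ 0 → x + s ∈ S}.ncard
          < (e + r - 2).choose (r - 1) + ∑ i ∈ Finset.Icc j r, (n i - 1).choose i := by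
  classical
  intro e he
  obtain ⟨M, hM⟩ := H33.main_bound (σ := Fin e) (by rw [Fintype.card_fin]; exact he)
  rw [Fintype.card_fin] at hM
  refine ⟨M, fun m hm r hr1 hr2 j n _ _ _ _ _ Γ hfin hmult hedim => ?_⟩
  obtain ⟨hmΓ, hm0, hmmin⟩ := hmult
  set G : Set ℕ := {x : ℕ | x ∈ Γ ∧ x ≠ 0 ∧ ¬ ∃ a ∈ Γ, ∃ b ∈ Γ, a ≠ 0 ∧ b ≠ 0 ∧ a + b = x} with hG
  have hGfin : G.Finite := by
    apply Set.finite_of_ncard_pos
    rw [hedim]; omega
  have hmG : m ∈ G := by
    refine ⟨hmΓ, hm0, ?_⟩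
    rintro ⟨a, ha, b, hb, ha0, hb0, hab⟩
    have := hmmin a ha ha0
    have := Nat.pos_of_ne_zero hb0
    omega
  -- the other generators
  have hcard' : (hGfin.toFinset.erase m).card = e := by
    rw [Finset.card_erase_of_mem (hGfin.mem_toFinset.2 hmG), ← Set.ncard_eq_toFinset_card G hGfin, hedim]
    omega
  obtain ⟨g⟩ : Nonempty (Fin e ≃ (hGfin.toFinset.erase m)) := by
    refine ⟨(Finset.equivFinOfCardEq hcard').symm⟩
  have hgG : ∀ i, ((g i : ℕ)) ∈ G := by
    intro i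
    have := (g i).2
    rw [Finset.mem_erase, hGfin.mem_toFinset] at this
    exact this.2
  have hgsurj : ∀ x ∈ G, x ≠ m → ∃ i, (g i : ℕ) = x := by
    intro x hx hxm
    obtain ⟨i, hi⟩ := g.surjective ⟨x, by rw [Finset.mem_erase, hGfin.mem_toFinset]; exact ⟨hxm, hx⟩⟩
    exact ⟨i, by rw [hi]⟩
  -- weight of an exponent vector
  let wt : (Fin e →₀ ℕ) →+ ℕ := Finsupp.liftAddHom (fun i => (AddMonoidHom.mulRight (g i : ℕ)))
  have hwt_single : ∀ i, wt (Finsupp.single i 1) = (g i : ℕ) := by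
    intro i
    simp [wt]
  have hwtΓ : ∀ a, wt a ∈ Γ := by
    intro a
    induction a using Finsupp.induction_linear with
    | zero => rw [map_zero]; exact Γ.zero_mem
    | add f g hf hg => rw [map_add]; exact Γ.add_mem hf hg
    | single i k =>
      have : wt (Finsupp.single i k) = k • (g i : ℕ) := by
        simp [wt]
      rw [this]
      exact Γ.nsmul_mem (hgG i).1 k
  -- every element is wt a + k m
  have hrep : ∀ x : ℕ, x ∈ Γ → ∃ (a : Fin e →₀ ℕ) (k : ℕ), x = wt a + k * m := by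
    intro x
    induction x using Nat.strong_induction_on with
    | _ x ih =>
      intro hx
      by_cases hx0 : x = 0
      · exact ⟨0, 0, by rw [map_zero, hx0]; ring⟩
      by_cases hxG : x ∈ G
      · by_cases hxm : x = m
        · exact ⟨0, 1, by rw [map_zero, hxm]; ring⟩
        · obtain ⟨i, hi⟩ := hgsurj x hxG hxm
          exact ⟨Finsupp.single i 1, 0, by rw [hwt_single, hi]; ring⟩
      · have : ∃ a ∈ Γ, ∃ b ∈ Γ, a ≠ 0 ∧ b ≠ 0 ∧ a + b = x := by
          by_contra hcon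
          exact hxG ⟨hx, hx0, hcon⟩
        obtain ⟨y, hy, z, hz, hy0, hz0, hyz⟩ := this
        obtain ⟨a, k, hak⟩ := ih y (by omega) hy
        obtain ⟨b, l, hbl⟩ := ih z (by omega) hz
        refine ⟨a + b, k + l, ?_⟩
        rw [map_add, ← hyz]
        conv_lhs => rw [hak, hbl]
        ring
  -- Apery elements
  let Ap : ℕ → Prop := fun w => w ∈ Γ ∧ ∀ y ∈ Γ, w ≠ y + m
  have hAprep : ∀ w, Ap w → ∃ a, wt a = w := by
    intro w hw
    obtain ⟨a, k, hak⟩ := hrep w hw.1
    rcases Nat.eq_zero_or_pos k with hk | hk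
    · exact ⟨a, by rw [hak, hk]; ring⟩
    · exfalso
      obtain ⟨k', rfl⟩ : ∃ k', k = k' + 1 := ⟨k - 1, by omega⟩
      apply hw.2 (wt a + k' * m) (Γ.add_mem (hwtΓ a) (by
        have := Γ.nsmul_mem hmΓ k'
        simpa using this))
      rw [hak]; ring
  have hApuniq : ∀ w w', Ap w → Ap w' → w ≡ w' [MOD m] → w = w' := by
    have aux : ∀ w w', Ap w → Ap w' → w ≡ w' [MOD m] → w ≤ w' → w = w' := by
      intro w w' hw hw' hmod hle
      have hdvd : m ∣ w' - w := (Nat.modEq_iff_dvd' hle).1 hmod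
      obtain ⟨k, hk⟩ := hdvd
      rcases Nat.eq_zero_or_pos k with hk0 | hk0
      · subst hk0; omega
      · exfalso
        obtain ⟨k', rfl⟩ : ∃ k', k = k' + 1 := ⟨k - 1, by omega⟩
        apply hw'.2 (w + k' * m) (Γ.add_mem hw.1 (by
          have := Γ.nsmul_mem hmΓ k'
          simpa using this))
        have : w' = w + m * (k' + 1) := by omega
        rw [this]; ring
    intro w w' hw hw' hmod
    rcases le_total w w' with h | h
    · exact aux w w' hw hw' hmod h
    · exact (aux w' w hw' hw hmod.symm h).symm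
  let ord : MonomialOrder (Fin e) := MonomialOrder.lex
  let S0 : Set (Fin e →₀ ℕ) := {a | Ap (wt a) ∧ ∀ b, wt b = wt a → ord.toSyn a ≤ ord.toSyn b}
  have : NeZero m := ⟨hm0⟩
  let φ : (Fin e →₀ ℕ) →+ ZMod m := (Nat.castAddMonoidHom (ZMod m)).comp wt
  have hinj0 : Set.InjOn φ S0 := by
    intro a ha b hb hab
    have h1 : ((wt a : ℕ) : ZMod m) = ((wt b : ℕ) : ZMod m) := hab
    rw [ZMod.natCast_eq_natCast_iff] at h1
    have h2 := hApuniq _ _ ha.1 hb.1 h1
    have h3 := ha.2 b h2.symm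
    have h4 := hb.2 a h2
    exact ord.toSyn.injective (le_antisymm h3 h4)
  have hS0fin : S0.Finite := by
    apply Set.Finite.of_finite_image (f := φ) (Set.toFinite _) hinj0
  set S : Finset (Fin e →₀ ℕ) := hS0fin.toFinset with hS
  have hmemS : ∀ a, a ∈ S ↔ (Ap (wt a) ∧ ∀ b, wt b = wt a → ord.toSyn a ≤ ord.toSyn b) := by
    intro a
    rw [hS, hS0fin.mem_toFinset]
    rfl
  have hlow : ∀ a ∈ S, ∀ b, b ≤ a → b ∈ S := by
    intro a ha b hba
    rw [hmemS] at ha ⊢
    obtain ⟨c, rfl⟩ : ∃ c, a = b + c := ⟨a - b, (add_tsub_cancel_of_le hba).symm⟩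
    refine ⟨⟨hwtΓ b, ?_⟩, ?_⟩
    · intro y hy hcon
      apply ha.1.2 (y + wt c) (Γ.add_mem hy (hwtΓ c))
      rw [map_add, hcon]; ring
    · intro b' hb'
      have h1 := ha.2 (b' + c) (by rw [map_add, map_add, hb'])
      rw [map_add, map_add] at h1
      exact le_of_add_le_add_right h1
  have hinj : Set.InjOn φ (S : Set (Fin e →₀ ℕ)) := by
    intro a ha b hb hab
    apply hinj0 _ _ hab
    · exact hS0fin.mem_toFinset.1 (by exact_mod_cast ha)
    · exact hS0fin.mem_toFinset.1 (by exact_mod_cast hb)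
  have hbound := hM m hm r hr1 hr2 S φ hlow hinj
  -- every Apery element has a representative in S
  have hex : ∀ w, Ap w → ∃ a ∈ S, wt a = w := by
    intro w hw
    obtain ⟨a0, ha0⟩ := hAprep w hw
    have hne : {s : ord.syn | wt (ord.toSyn.symm s) = w}.Nonempty :=
      ⟨ord.toSyn a0, by simpa using ha0⟩
    set s := WellFounded.min (wellFounded_lt (α := ord.syn)) _ hne with hs
    have hsmem : wt (ord.toSyn.symm s) = w := WellFounded.min_mem (wellFounded_lt (α := ord.syn)) _ hne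
    refine ⟨ord.toSyn.symm s, ?_, hsmem⟩
    rw [hmemS]
    refine ⟨by rw [hsmem]; exact hw, ?_⟩
    intro b hb
    rw [hsmem] at hb
    have h1 : ¬ (ord.toSyn b < s) := by
      apply WellFounded.not_lt_min (wellFounded_lt (α := ord.syn)) _
      show wt (ord.toSyn.symm (ord.toSyn b)) = w
      simpa using hb
    rw [AddEquiv.apply_symm_apply]
    exact not_lt.1 h1
  -- pseudo-Frobenius numbers inject into the maximal elements of S
  have hPF : {x : ℕ | x ∉ Γ ∧ ∀ s ∈ Γ, s ≠ 0 → x + s ∈ Γ}.ncard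
      ≤ (S.filter (fun a => ∀ i, a + Finsupp.single i 1 ∉ S)).card := by
    rw [← Set.ncard_coe_finset]
    have hApPF : ∀ x, x ∉ Γ → (∀ s ∈ Γ, s ≠ 0 → x + s ∈ Γ) → Ap (x + m) := by
      intro x hx hx2
      refine ⟨hx2 m hmΓ hm0, ?_⟩
      intro y hy hcon
      have : x = y := by omega
      exact hx (this ▸ hy)
    let F : ℕ → (Fin e →₀ ℕ) := fun x => if h : Ap (x + m) then (hex (x + m) h).choose else 0
    have hF : ∀ x, Ap (x + m) → F x ∈ S ∧ wt (F x) = x + m := by
      intro x hx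
      have : F x = (hex (x + m) hx).choose := by simp only [F, dif_pos hx]
      rw [this]
      exact (hex (x + m) hx).choose_spec
    apply Set.ncard_le_ncard_of_injOn F _ _ (Finset.finite_toSet _)
    · intro x hx
      have hx' := hApPF x hx.1 hx.2
      obtain ⟨h1, h2⟩ := hF x hx'
      rw [Finset.mem_coe, Finset.mem_filter]
      refine ⟨h1, ?_⟩
      intro i hcon
      rw [hmemS] at hcon
      rw [map_add, hwt_single, h2] at hcon
      have hi := hgG i
      apply hcon.1.2 (x + (g i : ℕ)) (hx.2 _ hi.1 hi.2.1)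
      ring
    · intro x hx y hy hxy
      have hx' := hApPF x hx.1 hx.2
      have hy' := hApPF y hy.1 hy.2
      have h1 := (hF x hx').2
      have h2 := (hF y hy').2
      have h3 : F x = F y := hxy
      rw [h3, h2] at h1
      omega
  refine lt_of_le_of_lt hPF (lt_of_le_of_lt (le_of_eq ?_) (lt_of_lt_of_le hbound (Nat.le_add_right _ _)))
  congr!

end Pool.Agent.S00793
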