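import Pool.Statements.S00981
import Pool.Agent.H79.Asc.End

set_option autoImplicit false
open Pool Pool.MP_2632e4_al

namespace Pool.Agent.S00981

/-- If G is finitely generated with an abelian normal subgroup A such that G/A is soluble with all subgroups finitely generated (polycyclic), and every proper f.g. nilpotent subgroup lies strictly inside an f.g. nilpotent subgroup, then G is nilpotent. -/
theorem result :
    ∀ (G : Type) [Group G], Group.FG G →
      (∃ A : Subgroup G, A.Normal ∧ (∀ a ∈ A, ∀ b ∈ A, a * b = b * a) ∧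
        (∃ n : ℕ, derivedSeries G n ≤ A) ∧
        (∀ H : Subgroup G, A ≤ H →
          ∃ S : Finset G, H = Subgroup.closure (S : Set G) ⊔ A)) →
      (∀ H : Subgroup G, H ≠ ⊤ → H.FG → Group.IsNilpotent H →
        ∃ K : Subgroup G, H < K ∧ K.FG ∧ Group.IsNilpotent K) →
      Group.IsNilpotent G := by
  rintro G _ hG ⟨A, hn, hab, hsol, hfg⟩ hasc
  exact Pool.Agent.H79.Asc.asc_main (A := A) ⟨hn, hsol, hfg⟩ hab hG hasc

end Pool.Agent.S00981
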