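import Pool.Statements.S01419
import Pool.Agent.H35.FmFinal

set_option autoImplicit false
open Pool Pool.MP_4f47f1_al

namespace Pool.Agent.S01419

open Pool.Agent.H35 in
/-- For every soluble formation of finite groups with a chain of at most 4 maximal-subformation steps from the empty class, its subformations satisfy A ∩ (B ∨ C) ⊆ (A ∩ B) ∨ (A ∩ C), with ∨ meaning the generated formation. -/
theorem result :
  ∀ Φ : (∀ (G : Type) [Group G], Prop) → Prop,
    (∀ X : (∀ (G : Type) [Group G], Prop), Φ X ↔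
      ((∀ (G : Type) [Group G], X G → Finite G) ∧
       (∀ (G H : Type) [Group G] [Group H] (f : G →* H),
          Function.Surjective f → X G → X H) ∧
       (∀ (G : Type) [Group G] (N₁ N₂ : Subgroup G) [N₁.Normal] [N₂.Normal],
          N₁ ⊓ N₂ = ⊥ → X (G ⧸ N₁) → X (G ⧸ N₂) → X G))) →
    ∀ F : (∀ (G : Type) [Group G], Prop), Φ F →
      (∀ (G : Type) [Group G], F G → IsSolvable G) →
      (∃ t : ℕ, t ≤ 4 ∧ ∃ c : ℕ → (∀ (G : Type) [Group G], Prop),
         (∀ (G : Type) [Group G], ¬ c 0 G) ∧
         (∀ (G : Type) [Group G], c t G ↔ F G) ∧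
         ∀ i : ℕ, i < t →
           Φ (c i) ∧ Φ (c (i + 1)) ∧
           (∀ (G : Type) [Group G], c i G → c (i + 1) G) ∧
           (∃ G : Type, ∃ inst : Group G, c (i + 1) G ∧ ¬ c i G) ∧
           ∀ K : (∀ (G : Type) [Group G], Prop), Φ K →
             (∀ (G : Type) [Group G], c i G → K G) →
             (∀ (G : Type) [Group G], K G → c (i + 1) G) →
             ((∀ (G : Type) [Group G], K G → c i G) ∨
              (∀ (G : Type) [Group G], c (i + 1) G → K G))) →
      ∀ A B C : (∀ (G : Type) [Group G], Prop), Φ A → Φ B → Φ C →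
        (∀ (G : Type) [Group G], A G → F G) →
        (∀ (G : Type) [Group G], B G → F G) →
        (∀ (G : Type) [Group G], C G → F G) →
        ∀ (G : Type) [Group G], A G →
          (∀ K : (∀ (X : Type) [Group X], Prop), Φ K →
            (∀ (X : Type) [Group X], B X → K X) →
            (∀ (X : Type) [Group X], C X → K X) → K G) →
          ∀ K : (∀ (X : Type) [Group X], Prop), Φ K →
            (∀ (X : Type) [Group X], A X → B X → K X) →
            (∀ (X : Type) [Group X], A X → C X → K X) → K G := by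
  intro Φ hΦ F hF hsol ⟨t, ht, c, hc0, hct, hstep⟩ A B C hA hB hC hAF hBF _ G _ hG hGBC K hK hABK
    hACK
  have conv : ∀ X : (∀ (G : Type) [Group G], Prop), Φ X ↔ IsFm X := by
    intro X
    rw [hΦ]
    constructor
    · rintro ⟨h1, h2, h3⟩
      exact ⟨h1, h2, h3⟩
    · rintro ⟨h1, h2, h3⟩
      exact ⟨h1, h2, h3⟩
  let F' : Fm := ⟨F, (conv F).mp hF⟩
  let A' : Fm := ⟨A, (conv A).mp hA⟩
  let B' : Fm := ⟨B, (conv B).mp hB⟩
  let C' : Fm := ⟨C, (conv C).mp hC⟩
  have hreach : ∀ i : ℕ, i ≤ t → ∃ m : Fm, (∀ (G : Type) [Group G], m.1 G ↔ c i G) ∧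
      Reach botFm m i := by
    intro i
    induction i with
    | zero =>
      intro _
      exact ⟨botFm, fun G _ => ⟨fun h => h.elim, fun h => hc0 G h⟩, Reach.refl⟩
    | succ i ih =>
      intro hi
      obtain ⟨m, hm, hr⟩ := ih (by omega)
      obtain ⟨h1, h2, h3, ⟨G₀, _, hG₀, hG₀'⟩, h5⟩ := hstep i (by omega)
      refine ⟨⟨c (i + 1), (conv _).mp h2⟩, fun G _ => Iff.rfl, Reach.step hr ?_⟩
      refine ⟨?_, ?_⟩
      · refine lt_of_le_of_ne (fun G _ h => h3 G ((hm G).mp h)) ?_
        intro h
        apply hG₀'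
        rw [← hm]
        rw [h]
        exact hG₀
      · intro k hmk hkc
        rcases h5 k.1 ((conv _).mpr k.2) (fun G _ h => hmk.le G ((hm G).mpr h))
          (fun G _ h => hkc.le G h) with h | h
        · have hle : k ≤ m := by
            intro G _ hG
            exact (hm G).mpr (h G hG)
          exact absurd hle (not_le_of_gt hmk)
        · have hle : (⟨c (i + 1), (conv _).mp h2⟩ : Fm) ≤ k := by
            intro G _ hG
            exact h G hG
          exact absurd hle (not_le_of_gt hkc)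
  obtain ⟨m, hm, hr⟩ := hreach t le_rfl
  have hmF : m = F' := by
    apply le_antisymm
    · intro G _ h
      exact (hct G).mp ((hm G).mp h)
    · intro G _ h
      exact (hm G).mpr ((hct G).mpr h)
  rw [hmF] at hr
  have key := distrib_of_length F' (fun G _ h => hsol G h) ht hr A' B' C'
    (fun G _ h => hAF G h) (fun G _ h => hBF G h)
  have h1 : (A' ⊓ (B' ⊔ C')).1 G := by
    refine ⟨hG, ?_⟩
    intro K hBK hCK
    exact hGBC K.1 ((conv _).mpr K.2) (fun X _ h => hBK X h) (fun X _ h => hCK X h)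
  exact key G h1 ⟨K, (conv K).mp hK⟩ (fun X _ h => hABK X h.1 h.2) (fun X _ h => hACK X h.1 h.2)

end Pool.Agent.S01419
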