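import Pool.Statements.S01717
import Pool.Agent.H36.EdgePow
import Pool.Agent.H36.ToReg

set_option autoImplicit false
open Pool Pool.MP_63d873_al

namespace Pool.Agent.S01717

open Finset MvPolynomial Pool.Agent.H36

lemma two_mul_le {V : Type*} [DecidableEq V] [Fintype V] (G : SimpleGraph V) (q : ℕ) :
    ∀ b : V → ℕ, PwF G q ∅ b → 2 * q ≤ ∑ v, b v := by
  induction q with
  | zero => intro b _; omega
  | succ q ih =>
    intro b h
    obtain ⟨u, v, huv, hu, hv, h'⟩ := h
    have h1 := ih _ h'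
    have hu' := hu (notMem_empty u)
    have hv' := hv (notMem_empty v)
    have h2 : ∑ w, b w = ∑ w, (sub2 b u v w + (if w = u then 1 else 0) +
        (if w = v then 1 else 0)) := by
      apply sum_congr rfl
      intro w _
      unfold sub2
      by_cases h3 : w = u
      · subst h3
        rw [if_pos rfl, if_neg huv.ne]
        omega
      · by_cases h4 : w = v
        · subst h4
          rw [if_pos rfl, if_neg h3]
          omega
        · rw [if_neg h3, if_neg h4]
          omega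
    rw [h2, sum_add_distrib, sum_add_distrib, sum_ite_eq' univ u, sum_ite_eq' univ v,
      if_pos (mem_univ u), if_pos (mem_univ v)]
    omega

lemma HomI_pow {n : ℕ} {K : Type*} [Field K] (G : SimpleGraph (Fin n)) (q : ℕ) :
    HomI ((EI K G) ^ q) := by
  intro f hf d
  rw [mem_EI_pow] at hf ⊢
  intro e he
  rw [coeff_homogeneousComponent, hf e he]
  simp

lemma not_RegD {n : ℕ} {K : Type*} [Field K] (G : SimpleGraph (Fin n)) {a c : Fin n}
    (hac : G.Adj a c) (q : ℕ) (hq : 1 ≤ q) : ¬ RegD ((EI K G) ^ q) (2 * q - 1) := by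
  rintro ⟨b, deg, g, d, hspan, hg, -, -, -, hdeg⟩
  have hz : ∀ k, g k = 0 := by
    intro k
    have hmem : g k ∈ (EI K G) ^ q := by
      rw [← hspan]; exact Ideal.subset_span ⟨k, rfl⟩
    rw [mem_EI_pow] at hmem
    apply MvPolynomial.ext
    intro e
    rw [coeff_zero]
    by_contra hcon
    have h1 : PwF G q ∅ e := by
      by_contra h
      exact hcon (hmem e h)
    have h2 := two_mul_le G q _ h1
    have h3 : e.degree = deg 0 k := by
      by_contra h
      exact hcon ((hg k).coeff_eq_zero h)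
    rw [Finsupp.degree_eq_sum] at h3
    have h4 := hdeg 0 k
    omega
  have hbot : (EI K G) ^ q = ⊥ := by
    rw [← hspan, Ideal.span_eq_bot]
    rintro x ⟨k, rfl⟩
    exact hz k
  have hx : (X a * X c : MvPolynomial (Fin n) K) ^ q ∈ (EI K G) ^ q := by
    apply Ideal.pow_mem_pow
    exact Ideal.subset_span ⟨a, c, hac, rfl⟩
  rw [hbot, Ideal.mem_bot] at hx
  have h5 := pow_eq_zero_iff (by omega) |>.mp hx
  rcases mul_eq_zero.mp h5 with h | h
  · exact X_ne_zero a h
  · exact X_ne_zero c h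

/-- For any field and any graph on n vertices with an edge and no induced matching of size two, if the edge ideal has regularity exactly 3, then every power I^q with q ≥ 2 has regularity exactly 2q. -/
theorem result :
  ∀ (K : Type) [Field K] (n : ℕ) (G : SimpleGraph (Fin n))
    (Reg : Ideal (MvPolynomial (Fin n) K) → ℕ → Prop),
    (∀ (J : Ideal (MvPolynomial (Fin n) K)) (r : ℕ), Reg J r ↔
      ∃ (b : ℕ → ℕ) (deg : ∀ i : ℕ, Fin (b i) → ℕ)
        (g : Fin (b 0) → MvPolynomial (Fin n) K)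
        (d : ∀ i : ℕ, Matrix (Fin (b i)) (Fin (b (i + 1))) (MvPolynomial (Fin n) K)),
        Ideal.span (Set.range g) = J ∧
        (∀ k : Fin (b 0), (g k).IsHomogeneous (deg 0 k)) ∧
        (∀ (i : ℕ) (s : Fin (b i)) (c : Fin (b (i + 1))),
          d i s c = 0 ∨
            (deg i s ≤ deg (i + 1) c ∧ (d i s c).IsHomogeneous (deg (i + 1) c - deg i s))) ∧
        (∀ v : Fin (b 0) → MvPolynomial (Fin n) K,
          (∑ k, g k * v k = 0) ↔ ∃ w, Matrix.mulVec (d 0) w = v) ∧
        (∀ (i : ℕ) (v : Fin (b (i + 1)) → MvPolynomial (Fin n) K),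
          Matrix.mulVec (d i) v = 0 ↔ ∃ w, Matrix.mulVec (d (i + 1)) w = v) ∧
        (∀ (i : ℕ) (k : Fin (b i)), deg i k ≤ r + i)) →
    ∀ I : Ideal (MvPolynomial (Fin n) K),
    I = Ideal.span {f : MvPolynomial (Fin n) K |
          ∃ i j : Fin n, G.Adj i j ∧ f = MvPolynomial.X i * MvPolynomial.X j} →
    (∃ a c : Fin n, G.Adj a c) →
    (∀ a b c d : Fin n, G.Adj a b → G.Adj c d → a ≠ c → a ≠ d → b ≠ c → b ≠ d →
      G.Adj a c ∨ G.Adj a d ∨ G.Adj b c ∨ G.Adj b d) →
    Reg I 3 → ¬ Reg I 2 →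
    ∀ q : ℕ, 2 ≤ q → Reg (I ^ q) (2 * q) ∧ ¬ Reg (I ^ q) (2 * q - 1) := by
  intro K _ n G Reg hReg I hI hedge hgap h3 _ q hq
  have hR : ∀ J r, Reg J r ↔ RegD J r := hReg
  have hIE : I = EI K G := hI
  subst hIE
  obtain ⟨a, c, hac⟩ := hedge
  constructor
  · rw [hR]
    apply RegD_of_KV (by omega) (HomI_pow G q)
    intro m t hm _
    apply KV_of_Dq G q (2 * q) _ m t hm
    intro α τ t' hα ht'
    have hInd : ∀ (τ : Finset (Fin n)) (t : ℕ), 3 ≤ t → Ex K (Ind G τ) t :=
      hInd_of_KV G 3 (fun m t hm ht => KV_of_RegD (by omega) ((hR _ _).mp h3) m t hm ht)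
    exact halfA G hgap hInd q hq α τ t' hα ht'
  · rw [hR]
    exact not_RegD G hac q (by omega)

end Pool.Agent.S01717
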