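import Pool.Statements.S01950
import Pool.Agent.H69.DF.Final

set_option autoImplicit false
open Pool Pool.MP_76773c_al

namespace Pool.Agent.S01950

/-- The negation of the preceding statement: For every finite-dimensional real Lie algebra g, subalgebra h and character λ of h, the Poisson center of (S(g)/S(g)h_λ)^h is isomorphic as an ℝ-algebra to the center of the reduction algebra (U(g)/U(g)h_{λ+ρ})^h, with ρ = -½ tr ad. -/
theorem result :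
    ¬ (∀ (L : Type) [LieRing L] [LieAlgebra ℝ L] [FiniteDimensional ℝ L]
    (h : LieSubalgebra ℝ L) (χ : h →ₗ[ℝ] ℝ),
    (∀ x y : h, χ ⁅x, y⁆ = 0) →
    ∀ P : SymmetricAlgebra ℝ L →ₗ[ℝ] SymmetricAlgebra ℝ L →ₗ[ℝ] SymmetricAlgebra ℝ L,
    (∀ X Y : L, P (SymmetricAlgebra.ι ℝ L X) (SymmetricAlgebra.ι ℝ L Y)
        = SymmetricAlgebra.ι ℝ L ⁅X, Y⁆) →
    (∀ a b : SymmetricAlgebra ℝ L, P a b = - P b a) →
    (∀ a b c : SymmetricAlgebra ℝ L, P a (b * c) = P a b * c + b * P a c) →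
    ∀ J : Ideal (SymmetricAlgebra ℝ L),
    J = Ideal.span {s | ∃ Y : h, s = SymmetricAlgebra.ι ℝ L (Y : L)
        + algebraMap ℝ (SymmetricAlgebra ℝ L) (χ Y)} →
    ∀ I : Ideal (UniversalEnvelopingAlgebra ℝ L),
    I = Ideal.span {u | ∃ Y : h, u = UniversalEnvelopingAlgebra.ι ℝ (Y : L)
        + algebraMap ℝ (UniversalEnvelopingAlgebra ℝ L)
            (χ Y + -(1 / 2 : ℝ) * LinearMap.trace ℝ L (LieAlgebra.ad ℝ L (Y : L)))} →
    ∀ ZS : Set (SymmetricAlgebra ℝ L),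
    ZS = {a | (∀ Y : h, P (SymmetricAlgebra.ι ℝ L (Y : L)) a ∈ J) ∧
        ∀ b : SymmetricAlgebra ℝ L,
          (∀ Y : h, P (SymmetricAlgebra.ι ℝ L (Y : L)) b ∈ J) → P a b ∈ J} →
    ∀ ZU : Set (UniversalEnvelopingAlgebra ℝ L),
    ZU = {u | (∀ Y : h, UniversalEnvelopingAlgebra.ι ℝ (Y : L) * u
              - u * UniversalEnvelopingAlgebra.ι ℝ (Y : L) ∈ I) ∧
        ∀ v : UniversalEnvelopingAlgebra ℝ L,
          (∀ Y : h, UniversalEnvelopingAlgebra.ι ℝ (Y : L) * v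
              - v * UniversalEnvelopingAlgebra.ι ℝ (Y : L) ∈ I) →
          u * v - v * u ∈ I} →
    ∃ f : SymmetricAlgebra ℝ L → UniversalEnvelopingAlgebra ℝ L,
      (∀ a ∈ ZS, f a ∈ ZU) ∧
      (∀ a ∈ ZS, a ∈ J → f a ∈ I) ∧
      (∀ a ∈ ZS, f a ∈ I → a ∈ J) ∧
      (∀ a ∈ ZS, ∀ b ∈ ZS, f (a + b) - (f a + f b) ∈ I) ∧
      (∀ a ∈ ZS, ∀ b ∈ ZS, f (a * b) - f a * f b ∈ I) ∧
      (∀ c : ℝ, f (algebraMap ℝ (SymmetricAlgebra ℝ L) c)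
          - algebraMap ℝ (UniversalEnvelopingAlgebra ℝ L) c ∈ I) ∧
      (∀ u ∈ ZU, ∃ a ∈ ZS, f a - u ∈ I)) := by
  intro hall
  obtain ⟨P, hP⟩ := Pool.Agent.H69.DF.exists_pois
  have hJ : Pool.Agent.H69.DF.Jd = Ideal.span {s | ∃ Y : Pool.Agent.H69.DF.hs,
      s = SymmetricAlgebra.ι ℝ Pool.Agent.H69.DF.L (Y : Pool.Agent.H69.DF.L)
        + algebraMap ℝ (SymmetricAlgebra ℝ Pool.Agent.H69.DF.L)
          ((0 : Pool.Agent.H69.DF.hs →ₗ[ℝ] ℝ) Y)} := by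
    simp [Pool.Agent.H69.DF.Jd]
  have hI : Pool.Agent.H69.DF.Id = Ideal.span {u | ∃ Y : Pool.Agent.H69.DF.hs,
      u = UniversalEnvelopingAlgebra.ι ℝ (Y : Pool.Agent.H69.DF.L)
        + algebraMap ℝ (UniversalEnvelopingAlgebra ℝ Pool.Agent.H69.DF.L)
            ((0 : Pool.Agent.H69.DF.hs →ₗ[ℝ] ℝ) Y + -(1 / 2 : ℝ) *
              LinearMap.trace ℝ Pool.Agent.H69.DF.L
                (LieAlgebra.ad ℝ Pool.Agent.H69.DF.L (Y : Pool.Agent.H69.DF.L)))} := by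
    simp [Pool.Agent.H69.DF.Id, Pool.Agent.H69.DF.trace_zero]
  exact Pool.Agent.H69.DF.no_iso P hP
    (hall Pool.Agent.H69.DF.L Pool.Agent.H69.DF.hs 0 (fun _ _ => rfl) P hP.gen hP.anti hP.leib
      Pool.Agent.H69.DF.Jd hJ Pool.Agent.H69.DF.Id hI _ rfl _ rfl)


end Pool.Agent.S01950
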