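import Pool.Statements.S02185
import Pool.Agent.H37.Burau

set_option autoImplicit false
open Pool Pool.MP_8823bb_al

namespace Pool.Agent.S02185

/-- For every n > 4, the group generated by the Burau matrices of the braid generators and their inverses (the image of B_n, i.e. B_n modulo the Burau kernel) has no nontrivial element of finite order. -/
theorem result :
    ∀ n : ℕ, 4 < n →
      ∀ M ∈ Submonoid.closure
        {A : Matrix (Fin n) (Fin n) (LaurentPolynomial ℤ) |
          ∃ i : ℕ, i + 1 < n ∧
            (A = Matrix.of (fun (a b : Fin n) =>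
                if ((a : ℕ) = i ∧ (b : ℕ) = i) then (1 - LaurentPolynomial.T 1 : LaurentPolynomial ℤ)
                else if ((a : ℕ) = i ∧ (b : ℕ) = i + 1) then (LaurentPolynomial.T 1 : LaurentPolynomial ℤ)
                else if ((a : ℕ) = i + 1 ∧ (b : ℕ) = i) then (1 : LaurentPolynomial ℤ)
                else if ((a : ℕ) = i + 1 ∧ (b : ℕ) = i + 1) then (0 : LaurentPolynomial ℤ)
                else if a = b then (1 : LaurentPolynomial ℤ) else (0 : LaurentPolynomial ℤ))
            ∨ A = Matrix.of (fun (a b : Fin n) =>
                if ((a : ℕ) = i ∧ (b : ℕ) = i) then (0 : LaurentPolynomial ℤ)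
                else if ((a : ℕ) = i ∧ (b : ℕ) = i + 1) then (1 : LaurentPolynomial ℤ)
                else if ((a : ℕ) = i + 1 ∧ (b : ℕ) = i) then (LaurentPolynomial.T (-1) : LaurentPolynomial ℤ)
                else if ((a : ℕ) = i + 1 ∧ (b : ℕ) = i + 1) then (1 - LaurentPolynomial.T (-1) : LaurentPolynomial ℤ)
                else if a = b then (1 : LaurentPolynomial ℤ) else (0 : LaurentPolynomial ℤ)))},
        ∀ k : ℕ, 0 < k → M ^ k = 1 → M = 1 := by
  intro n _ M hM k hk hMk
  refine Pool.Agent.H37.Burau.finite_order M ?_ k hk hMk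
  clear hMk
  induction hM using Submonoid.closure_induction with
  | mem A hA =>
    obtain ⟨i, hi, h | h⟩ := hA
    · rw [h]
      exact Pool.Agent.H37.Burau.good_gen hi
    · rw [h]
      exact Pool.Agent.H37.Burau.good_gen_inv hi
  | one => exact Pool.Agent.H37.Burau.good_one
  | mul A B _ _ hA hB => exact Pool.Agent.H37.Burau.good_mul hA hB

end Pool.Agent.S02185
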