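import Pool.Statements.S02384
import Pool.Agent.H37.ZwrZ

set_option autoImplicit false
open Pool Pool.MP_96de0f_al

namespace Pool.Agent.S02384

/-- The negation of the preceding statement: Every abelian ℓ-group satisfies all quasi-identities of ℤ wr ℤ, and for any non-abelian ℓ-group H in that quasi-variety, quasi-identities true in H and all abelian ℓ-groups hold in ℤ wr ℤ; i.e. its quasi-variety covers the abelian one. -/
theorem result :
    ¬ ((∀ (K : Type) [Group K] [Lattice K] [MulLeftMono K] [MulRightMono K],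
      (∀ a b : K, a * b = b * a) →
      ∀ (k m : ℕ) (u v : Fin (m + 1) → Fin (m + 1) → FreeGroup (Fin k)),
        (∀ x : Fin k → Equiv.Perm (ℤ × ℤ),
          (∀ l, ∃ n : ℤ, ∃ f : ℤ →₀ ℤ, ∀ a b : ℤ, x l (a, b) = (a + n, b + f a)) →
          (∀ ω : ℤ × ℤ, Finset.univ.sup' Finset.univ_nonempty (fun i => Finset.univ.inf' Finset.univ_nonempty (fun j => toLex ((FreeGroup.lift x (u i j)) ω))) = toLex ω) →
          (∀ ω : ℤ × ℤ, Finset.univ.sup' Finset.univ_nonempty (fun i => Finset.univ.inf' Finset.univ_nonempty (fun j => toLex ((FreeGroup.lift x (v i j)) ω))) = toLex ω)) →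
        (∀ x : Fin k → K,
          Finset.univ.sup' Finset.univ_nonempty (fun i => Finset.univ.inf' Finset.univ_nonempty (fun j => FreeGroup.lift x (u i j))) = 1 →
          Finset.univ.sup' Finset.univ_nonempty (fun i => Finset.univ.inf' Finset.univ_nonempty (fun j => FreeGroup.lift x (v i j))) = 1)) ∧
    (∀ (H : Type) [Group H] [Lattice H] [MulLeftMono H] [MulRightMono H],
      (∃ a b : H, a * b ≠ b * a) →
      (∀ (k m : ℕ) (u v : Fin (m + 1) → Fin (m + 1) → FreeGroup (Fin k)),
        (∀ x : Fin k → Equiv.Perm (ℤ × ℤ),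
          (∀ l, ∃ n : ℤ, ∃ f : ℤ →₀ ℤ, ∀ a b : ℤ, x l (a, b) = (a + n, b + f a)) →
          (∀ ω : ℤ × ℤ, Finset.univ.sup' Finset.univ_nonempty (fun i => Finset.univ.inf' Finset.univ_nonempty (fun j => toLex ((FreeGroup.lift x (u i j)) ω))) = toLex ω) →
          (∀ ω : ℤ × ℤ, Finset.univ.sup' Finset.univ_nonempty (fun i => Finset.univ.inf' Finset.univ_nonempty (fun j => toLex ((FreeGroup.lift x (v i j)) ω))) = toLex ω)) →
        (∀ x : Fin k → H,
          Finset.univ.sup' Finset.univ_nonempty (fun i => Finset.univ.inf' Finset.univ_nonempty (fun j => FreeGroup.lift x (u i j))) = 1 →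
          Finset.univ.sup' Finset.univ_nonempty (fun i => Finset.univ.inf' Finset.univ_nonempty (fun j => FreeGroup.lift x (v i j))) = 1)) →
      ∀ (k m : ℕ) (u v : Fin (m + 1) → Fin (m + 1) → FreeGroup (Fin k)),
        (∀ x : Fin k → H,
          Finset.univ.sup' Finset.univ_nonempty (fun i => Finset.univ.inf' Finset.univ_nonempty (fun j => FreeGroup.lift x (u i j))) = 1 →
          Finset.univ.sup' Finset.univ_nonempty (fun i => Finset.univ.inf' Finset.univ_nonempty (fun j => FreeGroup.lift x (v i j))) = 1) →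
        (∀ (K : Type) [Group K] [Lattice K] [MulLeftMono K] [MulRightMono K],
          (∀ a b : K, a * b = b * a) →
          ∀ x : Fin k → K,
            Finset.univ.sup' Finset.univ_nonempty (fun i => Finset.univ.inf' Finset.univ_nonempty (fun j => FreeGroup.lift x (u i j))) = 1 →
            Finset.univ.sup' Finset.univ_nonempty (fun i => Finset.univ.inf' Finset.univ_nonempty (fun j => FreeGroup.lift x (v i j))) = 1) →
        (∀ x : Fin k → Equiv.Perm (ℤ × ℤ),
          (∀ l, ∃ n : ℤ, ∃ f : ℤ →₀ ℤ, ∀ a b : ℤ, x l (a, b) = (a + n, b + f a)) →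
          (∀ ω : ℤ × ℤ, Finset.univ.sup' Finset.univ_nonempty (fun i => Finset.univ.inf' Finset.univ_nonempty (fun j => toLex ((FreeGroup.lift x (u i j)) ω))) = toLex ω) →
          (∀ ω : ℤ × ℤ, Finset.univ.sup' Finset.univ_nonempty (fun i => Finset.univ.inf' Finset.univ_nonempty (fun j => toLex ((FreeGroup.lift x (v i j)) ω))) = toLex ω)))) := by
  rintro ⟨-, hB⟩
  have h1 := hB Pool.Agent.H37.ZwrZ.HH Pool.Agent.H37.ZwrZ.HH_nonabelian
  have h2 : ∀ (k m : ℕ) (u v : Fin (m + 1) → Fin (m + 1) → FreeGroup (Fin k)),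
        (∀ x : Fin k → Equiv.Perm (ℤ × ℤ),
          (∀ l, ∃ n : ℤ, ∃ f : ℤ →₀ ℤ, ∀ a b : ℤ, x l (a, b) = (a + n, b + f a)) →
          (∀ ω : ℤ × ℤ, Finset.univ.sup' Finset.univ_nonempty (fun i => Finset.univ.inf' Finset.univ_nonempty (fun j => toLex ((FreeGroup.lift x (u i j)) ω))) = toLex ω) →
          (∀ ω : ℤ × ℤ, Finset.univ.sup' Finset.univ_nonempty (fun i => Finset.univ.inf' Finset.univ_nonempty (fun j => toLex ((FreeGroup.lift x (v i j)) ω))) = toLex ω)) →
        (∀ x : Fin k → Pool.Agent.H37.ZwrZ.HH,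
          Finset.univ.sup' Finset.univ_nonempty (fun i => Finset.univ.inf' Finset.univ_nonempty (fun j => FreeGroup.lift x (u i j))) = 1 →
          Finset.univ.sup' Finset.univ_nonempty (fun i => Finset.univ.inf' Finset.univ_nonempty (fun j => FreeGroup.lift x (v i j))) = 1) := by
    intro k m u v hG x hx
    refine Pool.Agent.H37.ZwrZ.qi u v ?_ x hx
    intro y hy hu
    rw [← Pool.Agent.H37.ZwrZ.GG.act_eq_iff] at hu ⊢
    have h3 := hG (fun l => Pool.Agent.H37.ZwrZ.GG.act (y l)) (by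
      intro l
      refine ⟨(y l).n, Finsupp.ofSupportFinite (y l).f (hy l), fun a b => rfl⟩) (by
      intro ω
      rw [Pool.Agent.H37.ZwrZ.term_act]
      exact hu ω)
    intro ω
    rw [← Pool.Agent.H37.ZwrZ.term_act]
    exact h3 ω
  have h3 := h1 h2 2 1 Pool.Agent.H37.ZwrZ.uw Pool.Agent.H37.ZwrZ.vw (by
    intro x hx
    have h4 : Pool.Agent.H37.ZwrZ.term Pool.Agent.H37.ZwrZ.uw x = 1 := hx
    rw [Pool.Agent.H37.ZwrZ.term_uw] at h4
    show Pool.Agent.H37.ZwrZ.term Pool.Agent.H37.ZwrZ.vw x = 1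
    rw [Pool.Agent.H37.ZwrZ.term_vw]
    exact Pool.Agent.H37.ZwrZ.phi_HH _ _ h4) (by
    intro K _ _ _ _ hcomm x hx
    have h4 : Pool.Agent.H37.ZwrZ.term Pool.Agent.H37.ZwrZ.uw x = 1 := hx
    rw [Pool.Agent.H37.ZwrZ.term_uw, hcomm _ (x 0), mul_assoc, inv_mul_cancel, mul_one,
      inf_idem] at h4
    show Pool.Agent.H37.ZwrZ.term Pool.Agent.H37.ZwrZ.vw x = 1
    rw [Pool.Agent.H37.ZwrZ.term_vw]
    exact h4)
  -- the two elements of the wreath product violating the quasi-identity
  let X : Fin 2 → Pool.Agent.H37.ZwrZ.GG := fun l =>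
    if l = 0 then ⟨fun a => if a = 0 then 1 else 0, 0⟩ else ⟨fun _ => 0, 1⟩
  have h5 := h3 (fun l => Pool.Agent.H37.ZwrZ.GG.act (X l)) (by
    intro l
    have hfin : (Function.support (X l).f).Finite := by
      fin_cases l
      · apply (Set.finite_singleton (0 : ℤ)).subset
        intro a ha
        by_contra hne
        apply ha
        have hne' : a ≠ 0 := hne
        simp [X, hne']
      · have : Function.support (X 1).f = ∅ := by
          ext a
          simp [X]
        show (Function.support (X 1).f).Finite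
        rw [this]
        exact Set.finite_empty
    exact ⟨(X l).n, Finsupp.ofSupportFinite (X l).f hfin, fun a b => rfl⟩) (by
    intro ω
    rw [Pool.Agent.H37.ZwrZ.term_act, Pool.Agent.H37.ZwrZ.term_uw]
    apply (Pool.Agent.H37.ZwrZ.GG.act_eq_iff _).mpr
    rw [Pool.Agent.H37.ZwrZ.GG.inf_def]
    have e0 : X 0 = ⟨fun a => if a = 0 then 1 else 0, 0⟩ := rfl
    have e1 : X 1 = ⟨fun _ => 0, 1⟩ := rfl
    have e2 : (X 0).n = 0 := rfl
    have e3 : ((X 1)⁻¹ * X 0 * X 1).n = 0 := rfl
    rw [if_neg (by rw [e2, e3]; exact lt_irrefl _), if_neg (by rw [e2, e3]; exact lt_irrefl _)]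
    apply Pool.Agent.H37.ZwrZ.GG.ext
    · funext a
      simp only [Pi.inf_apply, Pool.Agent.H37.ZwrZ.GG.mul_f, Pool.Agent.H37.ZwrZ.GG.inv_f, e0, e1,
        Pool.Agent.H37.ZwrZ.GG.one_f, neg_zero, add_zero, zero_add]
      by_cases ha : a = 0
      · have : a + 1 ≠ 0 := by omega
        simp [ha]
      · by_cases ha' : a + 1 = 0
        · simp [ha, ha']
        · simp [ha, ha']
    · rfl)
  have h6 := h5 (0, 0)
  rw [Pool.Agent.H37.ZwrZ.term_act, Pool.Agent.H37.ZwrZ.term_vw] at h6
  have h7 := toLex.injective h6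
  simp [X, Pool.Agent.H37.ZwrZ.GG.act_apply] at h7

end Pool.Agent.S02384
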