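import Pool.Statements.S02628
import Pool.Agent.H38.FitDec

set_option autoImplicit false
open Pool Pool.MP_a9d502_al

namespace Pool.Agent.S02628

/-- The negation of the preceding statement: There is a class F of finite soluble groups with these properties. It contains the trivial group, is closed under isomorphism, normal subgroups and joins of normal F-subgroups, and is not closed under both quotients and subdirect products. For every finite soluble G = AB, the F-radicals satisfy A_F -/
theorem result :
    ¬ (∃ F : (G : Type) → [Group G] → Prop,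
    (∀ (G : Type) [Group G], F G → Finite G ∧ IsSolvable G) ∧
    F Unit ∧
    (∀ (G H : Type) [Group G] [Group H], (G ≃* H) → F G → F H) ∧
    (∀ (G : Type) [Group G] (N : Subgroup G), N.Normal → F G → F ↥N) ∧
    (∀ (G : Type) [Group G] [Finite G] (N M : Subgroup G),
        N.Normal → M.Normal → F ↥N → F ↥M → F ↥(N ⊔ M)) ∧
    ¬ ((∀ (G : Type) [Group G] [Finite G] (N : Subgroup G) [N.Normal],
          F G → F (G ⧸ N)) ∧
       (∀ (G : Type) [Group G] [Finite G] (N M : Subgroup G) [N.Normal] [M.Normal],
          F (G ⧸ N) → F (G ⧸ M) → F (G ⧸ (N ⊓ M)))) ∧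
    (∀ (G : Type) [Group G] [Finite G], IsSolvable G →
      ∀ A B : Subgroup G, (∀ g : G, ∃ a ∈ A, ∃ b ∈ B, g = a * b) →
        (sSup {N : Subgroup ↥A | N.Normal ∧ F ↥N}).map A.subtype ⊓
          (sSup {N : Subgroup ↥B | N.Normal ∧ F ↥N}).map B.subtype ≤
          sSup {N : Subgroup G | N.Normal ∧ F ↥N})) := by
  rintro ⟨F, h1, h2, h3, h4, h5, h6, h7⟩
  have hF : Pool.Agent.H38.Fit.IsFit F :=
    { fin := fun G _ h => (h1 G h).1
      sol := fun G _ h => (h1 G h).2
      unit := h2
      iso := h3
      sub := h4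
      sup := h5
      star := by
        intro G _ _ hG A B hAB hA hB x hx
        apply h7 G hG A B hAB
        refine ⟨⟨⟨x, hx.1⟩, ?_, rfl⟩, ⟨⟨x, hx.2⟩, ?_, rfl⟩⟩
        · have h8 : (⊤ : Subgroup ↥A) ≤ sSup {N : Subgroup ↥A | N.Normal ∧ F ↥N} :=
            le_sSup ⟨inferInstance, h3 _ _ Subgroup.topEquiv.symm hA⟩
          exact h8 trivial
        · have h8 : (⊤ : Subgroup ↥B) ≤ sSup {N : Subgroup ↥B | N.Normal ∧ F ↥N} :=
            le_sSup ⟨inferInstance, h3 _ _ Subgroup.topEquiv.symm hB⟩
          exact h8 trivial }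
  apply h6
  refine ⟨fun G _ _ N _ hG => ?_, fun G _ _ N M _ _ hN hM => ?_⟩
  · exact hF.image (QuotientGroup.mk' N) (QuotientGroup.mk'_surjective N) hG
  · exact hF.subdirect N M hN hM

end Pool.Agent.S02628
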