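import Pool.Statements.S02763
import Pool.Agent.H36.NAA.Asm
import Pool.Agent.H80.HM.Fin

set_option autoImplicit false
open Pool Pool.MP_b319aa_al

namespace Pool.Agent.S02763

/-- For n at least 3, if a representation of the free group of rank n into SL_d(C) is conjugate to its twist by every automorphism, and each basis element has a unipotent positive power, then the image has a solvable subgroup of finite index. -/
theorem result :
    ∀ (n d : ℕ), 3 ≤ n →
      ∀ ρ : FreeGroup (Fin n) →* Matrix.SpecialLinearGroup (Fin d) ℂ,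
        (∀ σ : FreeGroup (Fin n) ≃* FreeGroup (Fin n),
          ∃ g : Matrix.SpecialLinearGroup (Fin d) ℂ,
            ∀ x : FreeGroup (Fin n), ρ (σ x) = g * ρ x * g⁻¹) →
        (∀ i : Fin n, ∃ k : ℕ, 1 ≤ k ∧
          IsNilpotent (((ρ (FreeGroup.of i) : Matrix.SpecialLinearGroup (Fin d) ℂ) :
            Matrix (Fin d) (Fin d) ℂ) ^ k - 1)) →
        ∃ K : Subgroup ρ.range, K.FiniteIndex ∧ IsSolvable K := by
  intro n d hn ρ hρ hvu
  exact H80HM.toU_solv ρ (H36NA.main hn ((H80HM.toU d).comp ρ) (H80HM.toU_chr ρ hρ) hvu)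

end Pool.Agent.S02763
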