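import Pool.Statements.S03096
import Pool.Agent.H2.Zg.Main

set_option autoImplicit false
open Pool Pool.MP_ce0ff0_al

namespace Pool.Agent.S03096

/-- The negation of the preceding statement: For every ring, every nonempty irreducible Ziegler-closed class of indecomposable pure-injective modules (basic opens: maps from F not factoring through f: F→G, F,G finitely presented) contains a module lying in every basic open that meets the class. -/
theorem result :
    ¬ (∀ (R : Type) [Ring R] (C : ∀ (N : Type) [AddCommGroup N] [Module R N], Prop),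
      (∀ (N : Type) [AddCommGroup N] [Module R N], C N →
        (Nontrivial N ∧ ∀ P Q : Submodule R N, IsCompl P Q → P = ⊥ ∨ Q = ⊥) ∧
        (∀ (A B : Type) [AddCommGroup A] [Module R A] [AddCommGroup B] [Module R B]
            (u : A →ₗ[R] B),
          (∀ (F G : Type) [AddCommGroup F] [Module R F] [AddCommGroup G] [Module R G]
              [Module.FinitePresentation R F] [Module.FinitePresentation R G]
              (f : F →ₗ[R] G) (a : F →ₗ[R] A) (b : G →ₗ[R] B),
              b ∘ₗ f = u ∘ₗ a → ∃ c : G →ₗ[R] A, c ∘ₗ f = a) →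
          ∀ g : A →ₗ[R] N, ∃ h : B →ₗ[R] N, h ∘ₗ u = g)) →
      (∀ (N : Type) [AddCommGroup N] [Module R N],
        ((Nontrivial N ∧ ∀ P Q : Submodule R N, IsCompl P Q → P = ⊥ ∨ Q = ⊥) ∧
        (∀ (A B : Type) [AddCommGroup A] [Module R A] [AddCommGroup B] [Module R B]
            (u : A →ₗ[R] B),
          (∀ (F G : Type) [AddCommGroup F] [Module R F] [AddCommGroup G] [Module R G]
              [Module.FinitePresentation R F] [Module.FinitePresentation R G]
              (f : F →ₗ[R] G) (a : F →ₗ[R] A) (b : G →ₗ[R] B),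
              b ∘ₗ f = u ∘ₗ a → ∃ c : G →ₗ[R] A, c ∘ₗ f = a) →
          ∀ g : A →ₗ[R] N, ∃ h : B →ₗ[R] N, h ∘ₗ u = g)) →
        (∀ (F G : Type) [AddCommGroup F] [Module R F] [AddCommGroup G] [Module R G]
            [Module.FinitePresentation R F] [Module.FinitePresentation R G]
            (f : F →ₗ[R] G),
            (∃ g : F →ₗ[R] N, ∀ h : G →ₗ[R] N, h ∘ₗ f ≠ g) →
            ∃ (M : Type) (_ : AddCommGroup M) (_ : Module R M), C M ∧
              ∃ g : F →ₗ[R] M, ∀ h : G →ₗ[R] M, h ∘ₗ f ≠ g) →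
        C N) →
      (∃ (M : Type) (_ : AddCommGroup M) (_ : Module R M), C M) →
      (∀ (F₁ G₁ : Type) [AddCommGroup F₁] [Module R F₁] [AddCommGroup G₁] [Module R G₁]
          [Module.FinitePresentation R F₁] [Module.FinitePresentation R G₁]
          (f₁ : F₁ →ₗ[R] G₁)
          (F₂ G₂ : Type) [AddCommGroup F₂] [Module R F₂] [AddCommGroup G₂] [Module R G₂]
          [Module.FinitePresentation R F₂] [Module.FinitePresentation R G₂]
          (f₂ : F₂ →ₗ[R] G₂),
          (∃ (M : Type) (_ : AddCommGroup M) (_ : Module R M), C M ∧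
              ∃ g : F₁ →ₗ[R] M, ∀ h : G₁ →ₗ[R] M, h ∘ₗ f₁ ≠ g) →
          (∃ (M : Type) (_ : AddCommGroup M) (_ : Module R M), C M ∧
              ∃ g : F₂ →ₗ[R] M, ∀ h : G₂ →ₗ[R] M, h ∘ₗ f₂ ≠ g) →
          ∃ (M : Type) (_ : AddCommGroup M) (_ : Module R M), C M ∧
              (∃ g : F₁ →ₗ[R] M, ∀ h : G₁ →ₗ[R] M, h ∘ₗ f₁ ≠ g) ∧
              (∃ g : F₂ →ₗ[R] M, ∀ h : G₂ →ₗ[R] M, h ∘ₗ f₂ ≠ g)) →
      ∃ (N : Type) (_ : AddCommGroup N) (_ : Module R N), C N ∧
        ∀ (F G : Type) [AddCommGroup F] [Module R F] [AddCommGroup G] [Module R G]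
          [Module.FinitePresentation R F] [Module.FinitePresentation R G]
          (f : F →ₗ[R] G),
          (∃ (M : Type) (_ : AddCommGroup M) (_ : Module R M), C M ∧
              ∃ g : F →ₗ[R] M, ∀ h : G →ₗ[R] M, h ∘ₗ f ≠ g) →
          ∃ g : F →ₗ[R] N, ∀ h : G →ₗ[R] N, h ∘ₗ f ≠ g) := by
  intro H
  classical
  let K := ZMod 2
  haveI : Fact (Nat.Prime 2) := ⟨Nat.prime_two⟩
  let R : Type := Pool.Agent.H2.Zg.RR ℝ (ZMod 2)
  let C : ∀ (N : Type) [AddCommGroup N] [Module R N], Prop := fun N _ _ =>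
    Module.Injective R N ∧ Pool.Agent.H2.Zg.Indec R N
  have hR : Pool.Agent.H2.Zg.PCoh R R := Pool.Agent.H2.Zg.PCoh_RR
  -- opens and kernels
  have hker : ∀ (F G : Type) [AddCommGroup F] [Module R F] [AddCommGroup G] [Module R G]
      [Module.FinitePresentation R F] [Module.FinitePresentation R G] (f : F →ₗ[R] G),
      Module.FinitePresentation R (LinearMap.ker f) := by
    intro F G _ _ _ _ _ _ f
    exact (hR.of_fp F) _ ((hR.of_fp G).ker_fg f)
  have h1 := H R C ?_ ?_ ?_ ?_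
  · obtain ⟨N, i1, i2, ⟨hinj, hind⟩, hN⟩ := h1
    apply Pool.Agent.H2.Zg.no_generic (X := ℝ) (K := ZMod 2) N hinj hind
    intro x
    let J : Submodule R R := Pool.Agent.H2.Zg.Ja [] x x
    have hJfg : J.FG := Pool.Agent.H2.Zg.Ja_fg [] x x
    haveI : Module.FinitePresentation R (R ⧸ J) := by
      apply Module.finitePresentation_of_surjective J.mkQ J.mkQ_surjective
      rw [Submodule.ker_mkQ]; exact hJfg
    obtain ⟨g, hg⟩ := hN (R ⧸ J) PUnit (0 : (R ⧸ J) →ₗ[R] PUnit) (by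
      obtain ⟨E, j1, j2, j, hE1, hE2, hj⟩ :=
        Pool.Agent.H2.Zg.exists_hull_Ja (X := ℝ) (K := ZMod 2) [] x x
      refine ⟨E, j1, j2, ⟨hE1, hE2⟩, j, ?_⟩
      intro h hh
      apply hj
      rw [← hh, LinearMap.comp_zero])
    refine ⟨g, ?_⟩
    intro h0
    apply hg 0
    rw [h0, LinearMap.comp_zero]
  · -- members are indecomposable and pure-injective
    intro N _ _ hN
    refine ⟨hN.2, ?_⟩
    intro A B _ _ _ _ u hu g
    exact Pool.Agent.H2.Zg.pureInj_of_injective hN.1 u hu g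
  · -- closedness
    intro N _ _ ⟨hind, hpi⟩ hcl
    refine ⟨?_, hind⟩
    apply Pool.Agent.H2.Zg.injective_of_closure hR
    · intro A B _ _ _ _ u hu g
      exact hpi A B u hu g
    · intro F G _ _ _ _ _ _ f hf
      obtain ⟨M, i1, i2, hM, h⟩ := hcl F G f hf
      exact ⟨M, i1, i2, hM.1, h⟩
  · -- nonempty
    obtain ⟨E, j1, j2, j, hE1, hE2, hj⟩ :=
        Pool.Agent.H2.Zg.exists_hull_Ja (X := ℝ) (K := ZMod 2) [] 0 0
    exact ⟨E, j1, j2, hE1, hE2⟩
  · -- irreducible
    intro F₁ G₁ _ _ _ _ _ _ f₁ F₂ G₂ _ _ _ _ _ _ f₂ ⟨M₁, i1, i2, hM₁, hf₁⟩ ⟨M₂, j1, j2, hM₂, hf₂⟩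
    rw [Pool.Agent.H2.Zg.open_iff hM₁.1] at hf₁
    rw [Pool.Agent.H2.Zg.open_iff hM₂.1] at hf₂
    haveI := hker F₁ G₁ f₁
    haveI := hker F₂ G₂ f₂
    haveI : Nontrivial (LinearMap.ker f₁) := by
      by_contra hn
      rw [not_nontrivial_iff_subsingleton] at hn
      obtain ⟨k, hk⟩ := hf₁
      apply hk
      ext x
      rw [Subsingleton.elim x 0]; simp
    haveI : Nontrivial (LinearMap.ker f₂) := by
      by_contra hn
      rw [not_nontrivial_iff_subsingleton] at hn
      obtain ⟨k, hk⟩ := hf₂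
      apply hk
      ext x
      rw [Subsingleton.elim x 0]; simp
    obtain ⟨E, e1, e2, hE, hind, hh1, hh2⟩ :=
      Pool.Agent.H2.Zg.common_hit (X := ℝ) (K := ZMod 2) (LinearMap.ker f₁) (LinearMap.ker f₂)
    exact ⟨E, e1, e2, ⟨hE, hind⟩, (Pool.Agent.H2.Zg.open_iff hE f₁).2 hh1,
      (Pool.Agent.H2.Zg.open_iff hE f₂).2 hh2⟩

end Pool.Agent.S03096
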