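import Pool.Statements.S03109
import Pool.Agent.H33.V.Main

set_option autoImplicit false
open Pool Pool.MP_cf5fcd_al

namespace Pool.Agent.S03109

/-- For every n ≥ 2, no nilpotent complex Lie bracket on ℂⁿ is rigid: its isomorphism class (GL_n-orbit) is never Zariski-open in the variety of all Lie brackets given by structure constants. -/
theorem result :
    ∀ n : ℕ, 2 ≤ n →
    ∀ B : (Fin n → Fin n → Fin n → ℂ) → (Fin n → ℂ) → (Fin n → ℂ) → (Fin n → ℂ),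
      (B = fun c x y k => ∑ i, ∑ j, x i * y j * c i j k) →
    ∀ L : Set (Fin n → Fin n → Fin n → ℂ),
      (L = {c | (∀ x : Fin n → ℂ, B c x x = 0) ∧
        ∀ x y z : Fin n → ℂ, B c x (B c y z) + B c y (B c z x) + B c z (B c x y) = 0}) →
    ∀ μ ∈ L, (∀ x : Fin n → ℂ, ∃ m : ℕ, ∀ y : Fin n → ℂ, (B μ x)^[m] y = 0) →
      ¬ ∃ S : Set (MvPolynomial (Fin n × Fin n × Fin n) ℂ),
        ∀ c ∈ L,
          ((¬ ∃ g : (Fin n → ℂ) ≃ₗ[ℂ] (Fin n → ℂ),
              ∀ x y : Fin n → ℂ, g (B μ x y) = B c (g x) (g y)) ↔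
            ∀ p ∈ S, MvPolynomial.eval (fun t => c t.1 t.2.1 t.2.2) p = 0) := by
  intro n hn B hB L hL μ hμ hnil
  obtain ⟨N, rfl⟩ : ∃ N, n = N + 1 := ⟨n - 1, by omega⟩
  have hBr : B = Pool.H33.V.br := hB
  subst hBr
  have hLm : ∀ c, c ∈ L ↔ Pool.H33.V.IsLie c := by
    intro c; rw [hL]; rfl
  rintro ⟨S, hS⟩
  exact Pool.H33.V.no_rigid (by omega) μ ((hLm μ).1 hμ) hnil ⟨S, fun c hc => hS c ((hLm c).2 hc)⟩

end Pool.Agent.S03109
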