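import Pool.Statements.S03469
import Pool.Agent.H40.Main

set_option autoImplicit false
open Pool Pool.MP_ecbc69_al

namespace Pool.Agent.S03469

/-- For every unital ring satisfying a multilinear polynomial identity with a coefficient 1, and every n ≥ 3, the subgroup of GL_n(R) generated by elementary transvections I + rE_ij (i ≠ j) is normal in GL_n(R). -/
theorem result :
    ∀ (R : Type) [Ring R],
      (∃ d : ℕ, 0 < d ∧ ∃ c : Equiv.Perm (Fin d) → ℤ, c 1 = 1 ∧
        ∀ x : Fin d → R,
          ∑ σ : Equiv.Perm (Fin d), ((c σ : ℤ) : R) * (List.ofFn (fun i => x (σ i))).prod = 0) →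
      ∀ n : ℕ, 3 ≤ n →
        (Subgroup.closure
          {g : Matrix.GeneralLinearGroup (Fin n) R |
            ∃ i j : Fin n, i ≠ j ∧ ∃ r : R,
              (g : Matrix (Fin n) (Fin n) R) =
                1 + Matrix.of (fun a b => if a = i ∧ b = j then r else 0)}).Normal := by
  intro R _ hPI n hn
  obtain ⟨d, hd, c, hc, hR⟩ := hPI
  have key := H40.main (R := R) ⟨d, hd, c, hc, hR⟩ n hn
  have e : ∀ (i j : Fin n) (r : R), (Matrix.single i j r : Matrix (Fin n) (Fin n) R) =
      Matrix.of (fun a b => if a = i ∧ b = j then r else 0) := by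
    intro i j r
    ext a b
    simp only [Matrix.single_apply, Matrix.of_apply, eq_comm]
  unfold H40.EA at key
  convert key using 3
  ext g
  constructor
  · rintro ⟨i, j, hij, r, hg⟩
    exact ⟨i, j, hij, r, AddSubgroup.mem_top _, by rw [hg, e]⟩
  · rintro ⟨i, j, hij, r, -, hg⟩
    exact ⟨i, j, hij, r, by rw [hg, e]⟩

end Pool.Agent.S03469
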