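import Pool.Statements.S03810
import Pool.Agent.H72.PG8

set_option autoImplicit false
open Pool Pool.MP_0da214_an

namespace Pool.Agent.S03810

/-- The negation of the preceding statement: For every bounded hyperconvex domain in C^n (n at least 1), the pluricomplex Green function g(z,w) tends to 0 uniformly for z in each compact subset as the pole w approaches the boundary. -/
theorem result :
    ¬ (∀ (n : ℕ) (Ω : Set (EuclideanSpace ℂ (Fin n))),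
    1 ≤ n → IsOpen Ω → IsConnected Ω → Bornology.IsBounded Ω →
    (∃ ρ : EuclideanSpace ℂ (Fin n) → ℝ,
      ContinuousOn ρ Ω ∧ (∀ z ∈ Ω, ρ z < 0) ∧
      (∀ a b : EuclideanSpace ℂ (Fin n), (∀ ζ : ℂ, ‖ζ‖ ≤ 1 → a + ζ • b ∈ Ω) →
        ρ a ≤ (2 * Real.pi)⁻¹ *
          ∫ θ in (0:ℝ)..(2 * Real.pi), ρ (a + Complex.exp ((θ : ℂ) * Complex.I) • b)) ∧
      (∀ ε : ℝ, 0 < ε → ∃ K : Set (EuclideanSpace ℂ (Fin n)),
        IsCompact K ∧ K ⊆ Ω ∧ ∀ z ∈ Ω, z ∉ K → -ε < ρ z)) →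
    ∀ K : Set (EuclideanSpace ℂ (Fin n)), IsCompact K → K ⊆ Ω →
    ∀ ε : ℝ, 0 < ε → ∃ δ : ℝ, 0 < δ ∧
      ∀ w ∈ Ω, Metric.infDist w Ωᶜ < δ → ∀ z ∈ K,
        ((-ε : ℝ) : EReal) ≤ sSup {t : EReal | ∃ u : EuclideanSpace ℂ (Fin n) → EReal,
          UpperSemicontinuousOn u Ω ∧ (∀ s ∈ Ω, u s ≤ 0) ∧
          (∀ a b : EuclideanSpace ℂ (Fin n), (∀ ζ : ℂ, ‖ζ‖ ≤ 1 → a + ζ • b ∈ Ω) →
            ∀ φ : ℝ → ℝ, Continuous φ →
              (∀ θ : ℝ, u (a + Complex.exp ((θ : ℂ) * Complex.I) • b) ≤ ((φ θ : ℝ) : EReal)) →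
              u a ≤ (((2 * Real.pi)⁻¹ * ∫ θ in (0:ℝ)..(2 * Real.pi), φ θ : ℝ) : EReal)) ∧
          (∃ C : ℝ, ∀ s ∈ Ω, s ≠ w → u s ≤ ((Real.log ‖s - w‖ + C : ℝ) : EReal)) ∧
          t = u z}) := by
  intro h
  obtain ⟨δ, hδ, hfin⟩ := h 3 Pool.Agent.H72.PG.Om0 (by norm_num) Pool.Agent.H72.PG.isOpen_Om0
    Pool.Agent.H72.PG.isConnected_Om0 Pool.Agent.H72.PG.isBounded_Om0
    ⟨Pool.Agent.H72.PG.rho,
      fun x hx => (Pool.Agent.H72.PG.rho_continuousAt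
        (Pool.Agent.H72.PG.Om0_subset hx)).continuousWithinAt,
      fun x hx => Pool.Agent.H72.PG.rho_neg (Pool.Agent.H72.PG.Om0_subset hx),
      fun a b hab => by
        have h1 := Pool.Agent.H72.PG.rho_submean (a := a) (b := b)
          (fun ζ hζ => Pool.Agent.H72.PG.Om0_subset (hab ζ hζ))
        rw [Pool.Agent.H72.PG.circle_shift] at h1
        simpa using h1,
      fun ε hε => Pool.Agent.H72.PG.exhaustion ε hε⟩
    Pool.Agent.H72.PG.Kseg Pool.Agent.H72.PG.Kseg_compact Pool.Agent.H72.PG.Kseg_subset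
    (1 / 10) (by norm_num)
  obtain ⟨j, hj⟩ := (Pool.Agent.H72.PG.tendsto_lam.eventually_lt_const hδ).exists
  have h1 := hfin (Pool.Agent.H72.PG.pole j) (Pool.Agent.H72.PG.pole_mem j)
    (lt_of_le_of_lt (Pool.Agent.H72.PG.infDist_pole j)
      (by have := Pool.Agent.H72.PG.lam_pos j; linarith))
    (Pool.Agent.H72.PG.seg (Pool.Agent.H72.PG.lam j)) (Pool.Agent.H72.PG.seg_lam_mem j)
  have h2 : sSup {t : EReal | ∃ u : EuclideanSpace ℂ (Fin 3) → EReal,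
          UpperSemicontinuousOn u Pool.Agent.H72.PG.Om0 ∧
          (∀ s ∈ Pool.Agent.H72.PG.Om0, u s ≤ 0) ∧
          (∀ a b : EuclideanSpace ℂ (Fin 3), (∀ ζ : ℂ, ‖ζ‖ ≤ 1 →
              a + ζ • b ∈ Pool.Agent.H72.PG.Om0) →
            ∀ φ : ℝ → ℝ, Continuous φ →
              (∀ θ : ℝ, u (a + Complex.exp ((θ : ℂ) * Complex.I) • b) ≤ ((φ θ : ℝ) : EReal)) →
              u a ≤ (((2 * Real.pi)⁻¹ * ∫ θ in (0:ℝ)..(2 * Real.pi), φ θ : ℝ) : EReal)) ∧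
          (∃ C : ℝ, ∀ s ∈ Pool.Agent.H72.PG.Om0, s ≠ Pool.Agent.H72.PG.pole j →
            u s ≤ ((Real.log ‖s - Pool.Agent.H72.PG.pole j‖ + C : ℝ) : EReal)) ∧
          t = u (Pool.Agent.H72.PG.seg (Pool.Agent.H72.PG.lam j))} ≤
          ((-(3 / 25) : ℝ) : EReal) := by
    apply sSup_le
    rintro t ⟨u, hu1, hu2, hu3, hu4, rfl⟩
    exact Pool.Agent.H72.PG.green_bound j hu1 hu2 hu3 hu4
  have h3 := h1.trans h2
  rw [EReal.coe_le_coe_iff] at h3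
  norm_num at h3

end Pool.Agent.S03810
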