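import Pool.Statements.S04040
import Pool.Agent.H44.WH.Dens

set_option autoImplicit false
open Filter Topology MeasureTheory
open scoped Classical
open Pool Pool.MP_20f905_an

namespace Pool.Agent.S04040

/-- The negation of the preceding statement: For a residual set of Lebesgue-preserving automorphisms T of [0,1] (weak topology), any automorphism S with T^-n S T^n close to the identity along a density-one set of n, for every weak neighborhood, is the identity a.e. -/
theorem result :
    ¬ (Filter.Eventually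
      (fun T : {T : ℝ ≃ᵐ ℝ // MeasurePreserving (T : ℝ → ℝ) (volume.restrict (Set.Icc (0:ℝ) 1))
            (volume.restrict (Set.Icc (0:ℝ) 1))} =>
        ∀ S : ℝ ≃ᵐ ℝ,
          MeasurePreserving (S : ℝ → ℝ) (volume.restrict (Set.Icc (0:ℝ) 1))
            (volume.restrict (Set.Icc (0:ℝ) 1)) →
          (∀ A : Set ℝ, MeasurableSet A → ∀ ε : ℝ, 0 < ε →
            Tendsto (fun N : ℕ =>
              (((Finset.Icc 1 N).filter (fun n : ℕ =>
                  (volume.restrict (Set.Icc (0:ℝ) 1))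
                    (symmDiff
                      ((((T.1.symm : ℝ ≃ᵐ ℝ) : ℝ → ℝ)^[n] ∘ (S : ℝ → ℝ) ∘
                          ((T.1 : ℝ ≃ᵐ ℝ) : ℝ → ℝ)^[n]) ⁻¹' A) A)
                    < ENNReal.ofReal ε)).card : ℝ) / (N : ℝ))
              atTop (𝓝 1)) →
          ∀ᵐ x ∂(volume.restrict (Set.Icc (0:ℝ) 1)), S x = x)
      (@residual
        {T : ℝ ≃ᵐ ℝ // MeasurePreserving (T : ℝ → ℝ) (volume.restrict (Set.Icc (0:ℝ) 1))
            (volume.restrict (Set.Icc (0:ℝ) 1))}
        (TopologicalSpace.generateFrom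
          {U | ∃ T₀ : {T : ℝ ≃ᵐ ℝ // MeasurePreserving (T : ℝ → ℝ)
                  (volume.restrict (Set.Icc (0:ℝ) 1)) (volume.restrict (Set.Icc (0:ℝ) 1))},
              ∃ A : Set ℝ, MeasurableSet A ∧ ∃ δ : ℝ, 0 < δ ∧
              U = {S : {T : ℝ ≃ᵐ ℝ // MeasurePreserving (T : ℝ → ℝ)
                      (volume.restrict (Set.Icc (0:ℝ) 1)) (volume.restrict (Set.Icc (0:ℝ) 1))} |
                    (volume.restrict (Set.Icc (0:ℝ) 1))
                      (symmDiff (((S.1 : ℝ ≃ᵐ ℝ) : ℝ → ℝ) ⁻¹' A)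
                        (((T₀.1 : ℝ ≃ᵐ ℝ) : ℝ → ℝ) ⁻¹' A)) < ENNReal.ofReal δ}}))) := by
  intro hev
  have hmem := (@mem_residual_iff Pool.Agent.H44.WH.AutT Pool.Agent.H44.WH.weakTop _).mp hev
  obtain ⟨F, hFo, hFd, hFc, hFs⟩ := hmem
  have hc' : (insert Set.univ F).Countable := hFc.insert _
  obtain ⟨f, hf⟩ := hc'.exists_eq_range (Set.insert_nonempty _ _)
  have hfo : ∀ k, IsOpen[Pool.Agent.H44.WH.weakTop] (f k) := by
    intro k
    have hk : f k ∈ insert Set.univ F := by rw [hf]; exact Set.mem_range_self k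
    rcases Set.mem_insert_iff.mp hk with h | h
    · rw [h]
      exact @isOpen_univ _ Pool.Agent.H44.WH.weakTop
    · exact hFo _ h
  have hfd : ∀ k, @Dense _ Pool.Agent.H44.WH.weakTop (f k) := by
    intro k
    have hk : f k ∈ insert Set.univ F := by rw [hf]; exact Set.mem_range_self k
    rcases Set.mem_insert_iff.mp hk with h | h
    · rw [h]
      exact @dense_univ _ Pool.Agent.H44.WH.weakTop
    · exact hFd _ h
  obtain ⟨T, hTU, S, hSm, hSid, hS⟩ := Pool.Agent.H44.WH.main_exists f hfo hfd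
  have hTF : T ∈ ⋂₀ F := by
    intro t ht
    have hk : t ∈ Set.range f := by rw [← hf]; exact Set.mem_insert_of_mem _ ht
    obtain ⟨k, rfl⟩ := hk
    exact hTU k
  apply hSid
  refine hFs hTF S hSm ?_
  intro A hA ε hε
  refine Pool.Agent.H44.WH.density_one
    (fun m => Pool.Agent.H44.WH.mu.real (symmDiff
      ((Pool.Agent.H44.WH.conj T.1 S m) ⁻¹' A) A)) (fun m => measureReal_nonneg)
    (fun η hη => hS A hA η hη) ε hε _ ?_
  intro m
  exact Pool.Agent.H44.WH.lt_ofReal_iff _ _

end Pool.Agent.S04040
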