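import Pool.Statements.S04486
import Pool.Agent.H46.GEPP2

set_option autoImplicit false
open MeasureTheory ProbabilityTheory
open Pool Pool.MP_42c79c_an

namespace Pool.Agent.S04486

/-- The negation of the preceding statement: There are constants c₁ and c₂>0 such that for every n, every σ in (0,1], every real n×n Ā with spectral norm ≤ 1, and every x ≥ 1, the partial-pivoting growth factor of Ā+σG (G i.i.d. standard Gaussian) exceeds x(n/σ)^c₁ with probability ≤ 2^(−c₂x). -/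
theorem result :
    ¬ (∃ c₁ c₂ : ℝ, 0 < c₂ ∧ ∀ n : ℕ, ∀ σ : ℝ, 0 < σ → σ ≤ 1 →
    ∀ Abar : Matrix (Fin n) (Fin n) ℝ,
    (∀ v : Fin n → ℝ, ∑ i, (Abar.mulVec v i) ^ 2 ≤ ∑ i, v i ^ 2) →
    ∀ x : ℝ, 1 ≤ x →
    (Measure.pi fun _ : Fin n => Measure.pi fun _ : Fin n => gaussianReal 0 1)
      {G : Fin n → Fin n → ℝ | ∃ π : Equiv.Perm (Fin n), ∃ L U : Matrix (Fin n) (Fin n) ℝ,
        (∀ i j, i < j → L i j = 0) ∧ (∀ i, L i i = 1) ∧ (∀ i j, |L i j| ≤ 1) ∧
        (∀ i j, j < i → U i j = 0) ∧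
        (Matrix.of fun i j => Abar (π i) j + σ * G (π i) j) = L * U ∧
        x * ((n : ℝ) / σ) ^ c₁ * (⨆ i, ⨆ j, |Abar i j + σ * G i j|) < ⨆ i, ⨆ j, |U i j|}
      ≤ ENNReal.ofReal ((2 : ℝ) ^ (-(c₂ * x)))) := by
  rintro ⟨c₁, c₂, hc, H⟩
  obtain ⟨N, hx, hlt⟩ := Pool.Agent.H46.GEPP.asymp c₁ c₂ hc
  set x : ℝ := (3/2:ℝ) ^ N / (8 * ((N:ℝ) + 1) ^ c₁) with hxdef
  have h0 := H (N+1) 1 one_pos le_rfl 0 (by
    intro v
    simp
    exact Finset.sum_nonneg fun i _ => sq_nonneg _) x hx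
  set δ : ℝ := (1/10) * (1/4:ℝ) ^ N with hδdef
  have hδ0 : 0 < δ := by positivity
  have hδ1 : δ ≤ 1/10 := by
    have : (1/4:ℝ) ^ N ≤ 1 := pow_le_one₀ (by norm_num) (by norm_num)
    rw [hδdef]
    linarith
  have hδ4 : 4 ^ N * δ ≤ 1/10 := by
    rw [hδdef, show (4:ℝ) ^ N * (1/10 * (1/4) ^ N) = 1/10 * (4 * (1/4)) ^ N by
      rw [mul_pow]; ring]
    norm_num
  have hbox := Pool.Agent.H46.GEPP.box_measure N hδ0.le (by linarith)
  have hsub : (Set.univ.pi fun i : Fin (N+1) => Set.univ.pi fun j : Fin (N+1) =>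
        Set.Icc (Pool.Agent.H46.GEPP.tgt N i j - δ) (Pool.Agent.H46.GEPP.tgt N i j + δ)) ⊆
      {G : Fin (N+1) → Fin (N+1) → ℝ | ∃ π : Equiv.Perm (Fin (N+1)),
        ∃ L U : Matrix (Fin (N+1)) (Fin (N+1)) ℝ,
        (∀ i j, i < j → L i j = 0) ∧ (∀ i, L i i = 1) ∧ (∀ i j, |L i j| ≤ 1) ∧
        (∀ i j, j < i → U i j = 0) ∧
        (Matrix.of fun i j => (0 : Matrix (Fin (N+1)) (Fin (N+1)) ℝ) (π i) j + 1 * G (π i) j)
          = L * U ∧
        x * (((N+1 : ℕ) : ℝ) / 1) ^ c₁ *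
          (⨆ i, ⨆ j, |(0 : Matrix (Fin (N+1)) (Fin (N+1)) ℝ) i j + 1 * G i j|)
          < ⨆ i, ⨆ j, |U i j|} := by
    intro G hG
    have hnear := Pool.Agent.H46.GEPP.near_of_box hG
    obtain ⟨L, U, h1, h2, h3, h4, h5, h6⟩ := Pool.Agent.H46.GEPP.exists_LU hδ0.le hδ4 hnear
    refine ⟨1, L, U, h1, h2, h3, h4, ?_, ?_⟩
    · rw [← h5]
      ext i j
      simp only [Matrix.of_apply, Equiv.Perm.one_apply, Matrix.zero_apply, zero_add, one_mul]
      congr 2 <;> simp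
    · have hGle : ∀ i j, |G i j| ≤ 2 := by
        intro i j
        have h7 := hG i (Set.mem_univ _) j (Set.mem_univ _)
        simp only [Set.mem_Icc] at h7
        have h8 := Pool.Agent.H46.GEPP.tgt_abs N i j
        rw [abs_le] at h8 ⊢
        constructor <;> linarith [h7.1, h7.2]
      have hsup : (⨆ i, ⨆ j, |(0 : Matrix (Fin (N+1)) (Fin (N+1)) ℝ) i j + 1 * G i j|) ≤ 2 := by
        apply ciSup_le
        intro i
        apply ciSup_le
        intro j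
        simpa using hGle i j
      have hsupU : (3/2) ^ N / 2 ≤ ⨆ i, ⨆ j, |U i j| := by
        refine h6.trans ?_
        have hb : ∀ i, BddAbove (Set.range fun j => |U i j|) := fun i => Set.finite_range _ |>.bddAbove
        have hb' : BddAbove (Set.range fun i => ⨆ j, |U i j|) := Set.finite_range _ |>.bddAbove
        exact (le_ciSup (hb (Fin.last N)) (Fin.last N)).trans (le_ciSup hb' (Fin.last N))
      refine lt_of_lt_of_le ?_ hsupU
      have hN0 : (0:ℝ) < (N:ℝ) + 1 := by positivity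
      have hrp : 0 < ((N:ℝ) + 1) ^ c₁ := Real.rpow_pos_of_pos hN0 _
      have hxe : x * (((N+1 : ℕ) : ℝ) / 1) ^ c₁ = (3/2) ^ N / 8 := by
        rw [hxdef, div_one]
        push_cast
        field_simp
      rw [hxe]
      have h32 : (0:ℝ) < (3/2) ^ N := by positivity
      calc (3/2:ℝ) ^ N / 8 * (⨆ i, ⨆ j, |(0 : Matrix (Fin (N+1)) (Fin (N+1)) ℝ) i j + 1 * G i j|)
          ≤ (3/2) ^ N / 8 * 2 := mul_le_mul_of_nonneg_left hsup (by positivity)
        _ < (3/2) ^ N / 2 := by linarith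
  have hfin := (hbox.trans (measure_mono hsub)).trans h0
  have h9 := (ENNReal.ofReal_le_ofReal_iff (by positivity)).mp hfin
  exact absurd hlt (not_lt.mpr h9)

end Pool.Agent.S04486
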