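import Pool.Statements.S05062
import Pool.Agent.H76.CR.Fin

set_option autoImplicit false
open MeasureTheory
open Pool Pool.MP_74ad1e_an

namespace Pool.Agent.S05062

/-- The negation of the preceding statement: Every set S of integers that is a set of 2-recurrence also works for any two commuting invertible measure-preserving maps: each positive-measure set A meets its images under T1^n and T2^n in positive measure for some nonzero n in S. -/
theorem result :
    ¬ (∀ S : Set ℤ,
      (∀ (X : Type) [MeasurableSpace X] (μ : Measure X) [IsProbabilityMeasure μ]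
          (T : X ≃ᵐ X), MeasurePreserving T μ μ →
          ∀ A : Set X, MeasurableSet A → 0 < μ A →
            ∃ n ∈ S, n ≠ 0 ∧
              0 < μ (A ∩ ⇑((T.toEquiv : Equiv.Perm X) ^ n) '' A
                      ∩ ⇑((T.toEquiv : Equiv.Perm X) ^ (2 * n)) '' A)) →
      ∀ (X : Type) [MeasurableSpace X] (μ : Measure X) [IsProbabilityMeasure μ]
        (T₁ T₂ : X ≃ᵐ X), MeasurePreserving T₁ μ μ → MeasurePreserving T₂ μ μ →
        Commute (T₁.toEquiv : Equiv.Perm X) (T₂.toEquiv : Equiv.Perm X) →
        ∀ A : Set X, MeasurableSet A → 0 < μ A →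
          ∃ n ∈ S, n ≠ 0 ∧
            0 < μ (A ∩ ⇑((T₁.toEquiv : Equiv.Perm X) ^ n) '' A
                    ∩ ⇑((T₂.toEquiv : Equiv.Perm X) ^ n) '' A)) := by
  exact Pool.Agent.H76.CR.final

end Pool.Agent.S05062
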