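import Pool.Statements.S06025
import Pool.Agent.H98.ExpDiag

set_option autoImplicit false
open MeasureTheory ENNReal
open Pool Pool.MP_c1e612_an

namespace Pool.Agent.S06025

/-- There exist real Banach spaces X, Y, a bounded operator S, a nonempty convex F with every deterministic non-adaptive n-error positive and finite, and C>0 such that the randomized non-adaptive 2n-error is at most C/n times the deterministic n-error for all n≥1. -/
theorem result :
    ∃ (X : Type) (hX : NormedAddCommGroup X) (hXs : NormedSpace ℝ X) (hXc : CompleteSpace X)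
      (Y : Type) (hY : NormedAddCommGroup Y) (hYs : NormedSpace ℝ Y) (hYc : CompleteSpace Y)
      (S : X →L[ℝ] Y) (F : Set X) (C : ℝ),
      F.Nonempty ∧ Convex ℝ F ∧ 0 < C ∧
      (∀ n : ℕ, 0 < n →
        0 < (⨅ (L : Fin n → (X →L[ℝ] ℝ)) (φ : (Fin n → ℝ) → Y),
              ⨆ f ∈ F, ‖S f - φ (fun i => L i f)‖ₑ) ∧
        (⨅ (L : Fin n → (X →L[ℝ] ℝ)) (φ : (Fin n → ℝ) → Y),
              ⨆ f ∈ F, ‖S f - φ (fun i => L i f)‖ₑ) < ⊤) ∧
      (∀ n : ℕ, 0 < n →
        (⨅ (Ω : Type) (mΩ : MeasurableSpace Ω) (P : Measure Ω)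
            (_ : IsProbabilityMeasure P)
            (L : Ω → Fin (2 * n) → (X →L[ℝ] ℝ)) (φ : Ω → (Fin (2 * n) → ℝ) → Y)
            (_ : ∀ f ∈ F, Measurable (fun ω => ‖S f - φ ω (fun i => L ω i f)‖)),
            ⨆ f ∈ F, ∫⁻ ω, ‖S f - φ ω (fun i => L ω i f)‖ₑ ∂P)
          ≤ ENNReal.ofReal (C / (n : ℝ)) *
            (⨅ (L : Fin n → (X →L[ℝ] ℝ)) (φ : (Fin n → ℝ) → Y),
              ⨆ f ∈ F, ‖S f - φ (fun i => L i f)‖ₑ)) := by
  refine ⟨Pool.Agent.H98.ExpDiag.X, inferInstance, inferInstance, inferInstance,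
    Pool.Agent.H98.ExpDiag.X, inferInstance, inferInstance, inferInstance,
    Pool.Agent.H98.ExpDiag.S, Metric.closedBall 0 1, 1, ⟨0, by simp⟩,
    convex_closedBall _ _, one_pos, ?_, ?_⟩
  · intro n hn
    refine ⟨lt_of_lt_of_le ?_ (Pool.Agent.H98.ExpDiag.lower n), ?_⟩
    · rw [ENNReal.ofReal_pos]; positivity
    · refine lt_of_le_of_lt (iInf₂_le (Pool.Agent.H98.ExpDiag.co n)
        (Pool.Agent.H98.ExpDiag.rec n)) ?_
      refine lt_of_le_of_lt (iSup₂_le (a := ENNReal.ofReal ((1 / 2 : ℝ) ^ n)) fun f hf => ?_)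
        ENNReal.ofReal_lt_top
      rw [← ofReal_norm]
      exact ENNReal.ofReal_le_ofReal (Pool.Agent.H98.ExpDiag.upper n f hf)
  · intro n hn
    have hn' : (0 : ℝ) < n := by exact_mod_cast hn
    have h1 : ENNReal.ofReal ((1 / 2 : ℝ) ^ (2 * n)) ≤ ENNReal.ofReal (1 / (n : ℝ)) *
        (⨅ (L : Fin n → (Pool.Agent.H98.ExpDiag.X →L[ℝ] ℝ))
          (φ : (Fin n → ℝ) → Pool.Agent.H98.ExpDiag.X),
          ⨆ f ∈ Metric.closedBall (0 : Pool.Agent.H98.ExpDiag.X) 1,
            ‖Pool.Agent.H98.ExpDiag.S f - φ (fun i => L i f)‖ₑ) := by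
      refine le_trans ?_ (mul_le_mul_right (Pool.Agent.H98.ExpDiag.lower n) _)
      rw [← ENNReal.ofReal_mul (by positivity)]
      apply ENNReal.ofReal_le_ofReal
      rw [two_mul, pow_add]
      refine mul_le_mul_of_nonneg_right ?_ (by positivity)
      rw [le_div_iff₀ hn', one_div, inv_pow, inv_mul_le_iff₀ (by positivity), mul_one]
      exact_mod_cast Nat.lt_two_pow_self.le
    refine le_trans ?_ h1
    refine iInf_le_of_le PUnit (iInf_le_of_le ⊤ (iInf_le_of_le (Measure.dirac PUnit.unit)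
      (iInf_le_of_le inferInstance (iInf_le_of_le
        (fun _ => Pool.Agent.H98.ExpDiag.co (2 * n)) (iInf_le_of_le
        (fun _ => Pool.Agent.H98.ExpDiag.rec (2 * n)) (iInf_le_of_le
        (fun f _ => measurable_const) ?_))))))
    refine iSup₂_le fun f hf => ?_
    rw [lintegral_const, measure_univ, mul_one, ← ofReal_norm]
    exact ENNReal.ofReal_le_ofReal (Pool.Agent.H98.ExpDiag.upper (2 * n) f hf)

end Pool.Agent.S06025
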