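import Pool.Statements.S06480
import Pool.Agent.H94S.Dense
import Pool.Agent.H94S.NoLur

set_option autoImplicit false
open Filter Topology
open Pool Pool.MP_e3abba_an

namespace Pool.Agent.S06480

/-- The negation of the preceding statement: For every real Banach space in which equivalent Fréchet smooth norms are uniformly dense on the unit ball among all equivalent norms, there is an equivalent norm whose dual norm on the dual space is locally uniformly rotund. -/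
theorem result :
    ¬ (∀ (X : Type) [NormedAddCommGroup X] [NormedSpace ℝ X] [CompleteSpace X],
      (∀ p : Seminorm ℝ X, (∃ C : ℝ, 0 < C ∧ ∀ x : X, ‖x‖ ≤ C * p x ∧ p x ≤ C * ‖x‖) →
        ∀ ε : ℝ, 0 < ε → ∃ q : Seminorm ℝ X,
          (∃ C : ℝ, 0 < C ∧ ∀ x : X, ‖x‖ ≤ C * q x ∧ q x ≤ C * ‖x‖) ∧
          (∀ x : X, x ≠ 0 → DifferentiableAt ℝ (fun y : X => q y) x) ∧
          ∀ x : X, ‖x‖ ≤ 1 → |p x - q x| ≤ ε) →
      ∃ p : Seminorm ℝ X, (∃ C : ℝ, 0 < C ∧ ∀ x : X, ‖x‖ ≤ C * p x ∧ p x ≤ C * ‖x‖) ∧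
        ∃ N : (X →L[ℝ] ℝ) → ℝ,
          (∀ f : X →L[ℝ] ℝ, N f = ⨆ x : {x : X // p x ≤ 1}, f x.1) ∧
          ∀ (f : X →L[ℝ] ℝ) (g : ℕ → (X →L[ℝ] ℝ)),
            Tendsto (fun n : ℕ => 2 * N f ^ 2 + 2 * N (g n) ^ 2 - N (f + g n) ^ 2) atTop (𝓝 0) →
            Tendsto (fun n : ℕ => ‖g n - f‖) atTop (𝓝 0)) := by
  intro h
  exact Pool.H94S.no_dual_lur (h Pool.H94S.X fun p hp ε hε => by
    obtain ⟨C, hC, hp⟩ := hp
    exact Pool.H94S.dense_smooth p C hC hp ε hε)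

end Pool.Agent.S06480
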