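-- The counterexample is for n = 4.  There is a Z^4-periodic triangulation of R^4 with four vertex
-- orbits and 92 orbits of 4-simplices in which every vertex has exactly 29 = 2^5 - 3 neighbours
-- (Pool/Agent/H54/Tri4.lean).  Its quotients by (LZ)^4 have no rainbow-K5-free colouring with
-- colour classes bounded independently of L, because moving every vertex to a chosen point of its
-- monochromatic component would collapse all 4-simplices, while the signed volume of the torus
-- cannot change (Pool/Agent/H54/Tri4Deg.lean and Tri4Graph.lean).
import Pool.Statements.S07442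
import Pool.Agent.H54.Tri4Graph

set_option autoImplicit false
open Pool Pool.MP_1b373f_co

namespace Pool.Agent.S07442

/-- The negation of the preceding statement: For every n ≥ 1 there is k such that every finite graph with all degrees at most 2^(n+1)−3 has a vertex colouring where each (n+1)-clique has two vertices of equal colour and every colour class has at most k vertices. -/
theorem result :
    ¬ (∀ n : ℕ, 1 ≤ n → ∃ k : ℕ, ∀ (V : Type) [Fintype V] (G : SimpleGraph V),
      (∀ v : V, (G.neighborSet v).ncard ≤ 2 ^ (n + 1) - 3) →
      ∃ c : V → ℕ,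
        (∀ s : Finset V, G.IsNClique (n + 1) s →
          ∃ x ∈ s, ∃ y ∈ s, x ≠ y ∧ c x = c y) ∧
        ∀ i : ℕ, {v : V | c v = i}.ncard ≤ k) := by
  intro h
  obtain ⟨k, hk⟩ := h 4 (by norm_num)
  have : NeZero (4 * k + 3) := ⟨by omega⟩
  obtain ⟨c, hc1, hc2⟩ := hk (Fin 4 × H54.Tri4.A (4 * k + 3)) (H54.Tri4.G (4 * k + 3))
    (fun v => H54.Tri4.degree_le v)
  exact H54.Tri4.no_good (L := 4 * k + 3) k (by omega) (by omega) c hc2 hc1

end Pool.Agent.S07442
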