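import Pool.Statements.S07544
import Pool.Agent.H54.N19Fin

set_option autoImplicit false
open Pool Pool.MP_1e9bc5_co

namespace Pool.Agent.S07544

/-- The negation of the preceding statement: If h(n) is the least number of products of complete bipartite subgraphs (of K_4 and of K_n) partitioning E(K_4)×E(K_n), then h(n)/n tends to 12/5 as n grows. -/
theorem result :
    ¬ (Filter.Tendsto
      (fun n : ℕ =>
        ((sInf {k : ℕ | ∃ (A B : Fin k → Finset (Fin 4)) (C D : Fin k → Finset (Fin n)),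
            (∀ i : Fin k, Disjoint (A i) (B i) ∧ Disjoint (C i) (D i)) ∧
            ∀ x y : Fin 4, ∀ u v : Fin n, x ≠ y → u ≠ v →
              ∃! i : Fin k,
                ((x ∈ A i ∧ y ∈ B i) ∨ (y ∈ A i ∧ x ∈ B i)) ∧
                ((u ∈ C i ∧ v ∈ D i) ∨ (v ∈ C i ∧ u ∈ D i))} : ℕ) : ℝ) / (n : ℝ))
      Filter.atTop (nhds ((12 : ℝ) / 5))) := by
  intro hlim
  have hsub : Filter.Tendsto (fun k : ℕ => 8 * (k + 1) ^ 5) Filter.atTop Filter.atTop := by
    apply Filter.tendsto_atTop_mono (f := fun k : ℕ => k) _ Filter.tendsto_id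
    intro k
    calc k ≤ k + 1 := Nat.le_succ k
      _ ≤ (k + 1) ^ 5 := Nat.le_self_pow (by norm_num) _
      _ ≤ 8 * (k + 1) ^ 5 := Nat.le_mul_of_pos_left _ (by norm_num)
  have h1 := hlim.comp hsub
  have h2 : Filter.Tendsto (fun k : ℕ => (19 : ℝ) / 8 + 30 * (1 / ((k : ℝ) + 1))) Filter.atTop
      (nhds (19 / 8 + 30 * 0)) :=
    tendsto_const_nhds.add (tendsto_one_div_add_atTop_nhds_zero_nat.const_mul 30)
  have h3 : (12 : ℝ) / 5 ≤ 19 / 8 + 30 * 0 := by
    refine le_of_tendsto_of_tendsto' h1 h2 ?_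
    intro k
    have hk : (0 : ℝ) < (k : ℝ) + 1 := by positivity
    have hle : sInf {m : ℕ | Pool.Agent.H54.Bicl.Good (8 * (k + 1) ^ 5) m} ≤
        19 * (k + 1) ^ 5 + 240 * (k + 1) ^ 4 :=
      Nat.sInf_le (Pool.Agent.H54.N19.good_19 (k + 1) (8 * (k + 1) ^ 5) le_rfl)
    simp only [Function.comp]
    rw [div_le_iff₀ (by positivity)]
    have hle' : ((sInf {m : ℕ | Pool.Agent.H54.Bicl.Good (8 * (k + 1) ^ 5) m} : ℕ) : ℝ) ≤
        19 * ((k : ℝ) + 1) ^ 5 + 240 * ((k : ℝ) + 1) ^ 4 := by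
      exact_mod_cast hle
    refine le_trans hle' (le_of_eq ?_)
    push_cast
    field_simp
    ring
  norm_num at h3

end Pool.Agent.S07544
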