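import Pool.Statements.S07589
import Pool.Agent.H88.MW.Final
import Pool.Agent.H53.MW.RunFam
import Pool.Agent.H19.MW.Pushy
import Pool.Agent.H83.MW.GapWord
import Pool.Agent.H83.MW.MWord

set_option autoImplicit false
open Asymptotics
open Pool Pool.MP_1fe246_co

namespace Pool.Agent.S07589

/-- Every infinite word over a finite alphabet that is the fixed point σ^ω(a) of a morphism is either eventually periodic, or p(n+1)−p(n) has the same order of growth as p(n)/n, where p(n) counts its distinct length-n factors. -/
theorem result :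
    ∀ (α : Type) [Fintype α] (u : ℕ → α),
      (∃ σ : α → List α,
        (∀ n i, i < ((fun w : List α => w.flatMap σ)^[n] [u 0]).length →
            ((fun w : List α => w.flatMap σ)^[n] [u 0])[i]? = some (u i)) ∧
        (∀ m, ∃ n, m < ((fun w : List α => w.flatMap σ)^[n] [u 0]).length)) →
      (∃ N p : ℕ, 0 < p ∧ ∀ n, N ≤ n → u (n + p) = u n) ∨
      (fun n : ℕ =>
          ((Set.range (fun i : ℕ => fun j : Fin (n + 1) => u (i + j.val))).ncard : ℝ)
            - ((Set.range (fun i : ℕ => fun j : Fin n => u (i + j.val))).ncard : ℝ))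
        =Θ[Filter.atTop]
      (fun n : ℕ =>
          ((Set.range (fun i : ℕ => fun j : Fin n => u (i + j.val))).ncard : ℝ) / (n : ℝ)) :=
  Pool.Agent.H88.MW.final
    (fun hτ hf h h₀ hE P => Pool.Agent.H53.MW.run_families hτ hf h h₀ hE P)
    (Pool.Agent.H19.MW.pushyLin_of (fun hN h => Pool.Agent.H83.MW.gap_word hN h) (fun hN h => Pool.Agent.H83.MW.mword hN h))

end Pool.Agent.S07589
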