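import Pool.Statements.S07713
import Pool.Agent.H64.TD.Final

set_option autoImplicit false
open Filter Topology
open Pool Pool.MP_25b63e_co

namespace Pool.Agent.S07713

/-- There is ℓ:ℕ→ℕ with ℓ(n)/n → 1/2 such that for every n, any n-vertex graph having the same multiset of induced ℓ(n)-vertex subgraphs (up to isomorphism) as an n-vertex tree T is isomorphic to T. -/
theorem result :
    ∃ ℓ : ℕ → ℕ,
      Tendsto (fun n : ℕ => (ℓ n : ℝ) / (n : ℝ)) atTop (𝓝 (1 / 2 : ℝ)) ∧
      ∀ n : ℕ, ∀ T G : SimpleGraph (Fin n), T.IsTree →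
        (∀ H : SimpleGraph (Fin (ℓ n)),
          {S : Finset (Fin n) | S.card = ℓ n ∧
              Nonempty (G.induce (S : Set (Fin n)) ≃g H)}.ncard =
          {S : Finset (Fin n) | S.card = ℓ n ∧
              Nonempty (T.induce (S : Set (Fin n)) ≃g H)}.ncard) →
        Nonempty (G ≃g T) :=
  Pool.Agent.H64.TD.main

end Pool.Agent.S07713
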