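import Pool.Statements.S07979
import Pool.Agent.H58.Tal.Final6
import Pool.Agent.H58.Tal.M5

set_option autoImplicit false
open Pool Pool.MP_324c10_co

namespace Pool.Agent.S07979

/-- For every A in {0,1}^n of uniform measure p strictly between 0 and 1, with β_i the influence of coordinate i: either some β_i equals 1, or the sum of β_i/log₂(1/β_i) over i is at least 2p(1−p). -/
theorem result :
    ∀ (n : ℕ) (A : Finset (Fin n → Bool)),
      0 < A.card → A.card < 2 ^ n →
      (∃ i : Fin n,
          ((Finset.univ.filter (fun (x : Fin n → Bool) =>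
              ¬ (x ∈ A ↔ Function.update x i (!(x i)) ∈ A))).card : ℝ) / 2 ^ n = 1) ∨
      2 * ((A.card : ℝ) / 2 ^ n) * (1 - (A.card : ℝ) / 2 ^ n) ≤
        ∑ i : Fin n,
          (((Finset.univ.filter (fun (x : Fin n → Bool) =>
              ¬ (x ∈ A ↔ Function.update x i (!(x i)) ∈ A))).card : ℝ) / 2 ^ n) /
            Real.logb 2 (1 / (((Finset.univ.filter (fun (x : Fin n → Bool) =>
              ¬ (x ∈ A ↔ Function.update x i (!(x i)) ∈ A))).card : ℝ) / 2 ^ n)) := by
  exact Pool.Agent.H58.Tal.frozen_of4 Pool.Agent.H58.Tal.m5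

end Pool.Agent.S07979
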