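import Pool.Statements.S08893
import Pool.Agent.H16.AP.FINP
import Pool.Agent.H16.AP.RG3
import Pool.Agent.H16.AP.HIT
import Pool.Agent.H16.AP.OPC
import Pool.Agent.H78.SS.Final

set_option autoImplicit false
open Real
open Pool Pool.MP_591ade_co

namespace Pool.Agent.S08893

/-- For the hexagonal incircle packing in the plane and the heptagonal {7,3} incircle packing in the hyperbolic plane, deleting any one disk and then moving finitely many disks into any new packing always yields a packing congruent to the one before the moves. -/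
theorem result :
  (∀ H : Set ℂ, H = {z : ℂ | ∃ m n : ℤ, z = (m : ℂ) + (n : ℂ) * ((1/2 : ℂ) + ((Real.sqrt 3 / 2 : ℝ) : ℂ) * Complex.I)} →
    ∀ s ∈ H, ∀ g : ℂ → ℂ, ((H \ {s}) ∩ {c | g c ≠ c}).Finite →
      (∀ c ∈ H \ {s}, ∀ d ∈ H \ {s}, c ≠ d → (1 : ℝ) ≤ dist (g c) (g d)) →
      ∃ φ : ℂ ≃ᵢ ℂ, φ '' (H \ {s}) = g '' (H \ {s})) ∧
  (∀ k ρ : Matrix.SpecialLinearGroup (Fin 2) ℝ, ∀ E D : ℝ,
    D = 1 / (2 * Real.sin (π / 7)) →
    E = Real.cos (π / 7) / (Real.sqrt 3 * Real.sin (π / 7)) +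
        Real.sqrt ((Real.cos (π / 7) / (Real.sqrt 3 * Real.sin (π / 7))) ^ 2 - 1) →
    (k : Matrix (Fin 2) (Fin 2) ℝ) = !![Real.cos (π / 7), -Real.sin (π / 7); Real.sin (π / 7), Real.cos (π / 7)] →
    (ρ : Matrix (Fin 2) (Fin 2) ℝ) = !![1 / 2, -(Real.sqrt 3 / 2) * E; (Real.sqrt 3 / 2) / E, 1 / 2] →
    ∀ S : Set UpperHalfPlane,
      S = {z : UpperHalfPlane | ∃ γ ∈ Subgroup.closure ({k, ρ} : Set (Matrix.SpecialLinearGroup (Fin 2) ℝ)),
            z = γ • UpperHalfPlane.I} →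
    ∀ s ∈ S, ∀ g : UpperHalfPlane → UpperHalfPlane, ((S \ {s}) ∩ {c | g c ≠ c}).Finite →
      (∀ c ∈ S \ {s}, ∀ d ∈ S \ {s}, c ≠ d → 2 * Real.arsinh (Real.sqrt (D ^ 2 - 1)) ≤ dist (g c) (g d)) →
      ∃ φ : UpperHalfPlane ≃ᵢ UpperHalfPlane, φ '' (S \ {s}) = g '' (S \ {s})) := by
  exact ⟨Pool.Agent.H16.AP.p6_of_specs Pool.Agent.H16.AP.realSpec30 Pool.Agent.H16.AP.hitSpec30
    (Pool.Agent.H16.AP.virtSpec30 Pool.Agent.H16.AP.hitSpec30), Pool.Agent.H78.SS.heptagonal⟩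

end Pool.Agent.S08893
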