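import Pool.Statements.S09239
import Pool.Agent.H21.Imm.Strong

set_option autoImplicit false
open Pool Pool.MP_66278f_co

namespace Pool.Agent.S09239

/-- For every k ≥ 1 and ε > 0 there is α such that every n-vertex graph with average degree at least imm(k)+ε contains a K_k-immersion (edge-disjoint paths between k branch vertices) using at most α·log n vertices. -/
theorem result :
    ∀ (k : ℕ), 1 ≤ k → ∀ ε : ℝ, 0 < ε → ∃ α : ℝ, ∀ (n : ℕ) (G : SimpleGraph (Fin n)),
      sInf {d : ℝ | ∀ (m : ℕ) (H : SimpleGraph (Fin m)),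
          d ≤ 2 * (H.edgeSet.ncard : ℝ) / (m : ℝ) →
          ∃ f : Fin k → Fin m, Function.Injective f ∧
            ∃ P : ∀ i j : Fin k, H.Walk (f i) (f j),
              (∀ i j : Fin k, i < j → (P i j).IsPath) ∧
              (∀ i j i' j' : Fin k, i < j → i' < j' → (i ≠ i' ∨ j ≠ j') →
                (P i j).edges.Disjoint (P i' j').edges)} + ε
        ≤ 2 * (G.edgeSet.ncard : ℝ) / (n : ℝ) →
      ∃ f : Fin k → Fin n, Function.Injective f ∧
        ∃ P : ∀ i j : Fin k, G.Walk (f i) (f j),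
          (∀ i j : Fin k, i < j → (P i j).IsPath) ∧
          (∀ i j i' j' : Fin k, i < j → i' < j' → (i ≠ i' ∨ j ≠ j') →
            (P i j).edges.Disjoint (P i' j').edges) ∧
          (({v : Fin n | (∃ i, f i = v) ∨ ∃ i j, i < j ∧ v ∈ (P i j).support}.ncard : ℝ)
            ≤ α * Real.log (n : ℝ)) := by
  intro k hk ε hε
  obtain ⟨C, hC, hstrong⟩ := Pool.Agent.H21.Imm.strong hk hε
  refine ⟨3 * C, ?_⟩
  intro n G hG
  have hG' : sInf (Pool.Agent.H21.Imm.immSet k) + ε
      ≤ 2 * (G.edgeSet.ncard : ℝ) / (n : ℝ) := hG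
  have hσ := Pool.Agent.H21.Imm.sInf_immSet_nonneg hk
  have hinn : 2 * G.edgeSet.ncard = Pool.Agent.H21.Imm.inn G Finset.univ :=
    Pool.Agent.H21.Imm.two_mul_ncard G
  have hn2 : 2 ≤ n := by
    by_contra hcon
    have h1 : n = 0 ∨ n = 1 := by omega
    rcases h1 with h1 | h1
    · subst h1
      simp only [Nat.cast_zero, div_zero] at hG'
      linarith
    · subst h1
      have h2 := Pool.Agent.H21.Imm.inn_le_sq G Finset.univ
      rw [← hinn, Finset.card_univ, Fintype.card_fin] at h2
      have h3 : G.edgeSet.ncard = 0 := by omega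
      rw [h3] at hG'
      simp only [Nat.cast_zero, mul_zero, zero_div] at hG'
      linarith
  have hne : (Finset.univ : Finset (Fin n)).Nonempty := ⟨⟨0, by omega⟩, Finset.mem_univ _⟩
  have hcard : ((Finset.univ : Finset (Fin n)).card : ℝ) = n := by
    rw [Finset.card_univ, Fintype.card_fin]
  obtain ⟨B, hB, f, hf, P, h1, h2, h3⟩ := hstrong (Fin n) G Finset.univ hne (by
    rw [hcard, ← hinn]
    push_cast
    exact hG')
  rw [hcard] at hB
  refine ⟨f, hf, P, h1, h2, ?_⟩
  have h4 : (({v : Fin n | (∃ i, f i = v) ∨ ∃ i j, i < j ∧ v ∈ (P i j).support}.ncard : ℕ) : ℝ)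
      ≤ (B : ℝ) := by exact_mod_cast h3
  refine h4.trans (hB.trans ?_)
  have h5 : Real.log 2 ≤ Real.log n := by
    apply Real.log_le_log (by norm_num)
    exact_mod_cast hn2
  have h6 := Real.log_two_gt_d9
  have h7 : 1 + Real.log n ≤ 3 * Real.log n := by linarith
  calc C * (1 + Real.log n) ≤ C * (3 * Real.log n) := mul_le_mul_of_nonneg_left h7 hC.le
    _ = 3 * C * Real.log n := by ring

end Pool.Agent.S09239
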