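import Pool.Statements.S09512

set_option autoImplicit false
open Pool Pool.MP_743ef6_co

namespace Pool.Agent.S09512

open Polynomial

/-- A two-terminal graph: internal vertices `V`, terminals `inr false` and `inr true`,
edges given by the (directed) relation `E`. -/
structure Gad where
  V : Type
  inst : Fintype V
  E : V ⊕ Bool → V ⊕ Bool → Prop
  irr : ∀ x, ¬ E x x

/-- the colouring of all vertices given colours `a`, `b` of the terminals and `f` inside -/
def ext {V : Type} {n : ℕ} (a b : Fin n) (f : V → Fin n) : V ⊕ Bool → Fin n :=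
  Sum.elim f (fun c => cond c b a)

def Gad.OK (g : Gad) {n : ℕ} (a b : Fin n) (f : g.V → Fin n) : Prop :=
  ∀ x y, g.E x y → ext a b f x ≠ ext a b f y

noncomputable def Gad.cnt (g : Gad) (n : ℕ) (a b : Fin n) : ℕ :=
  Nat.card {f : g.V → Fin n // g.OK a b f}

/-- `g` has `D` extensions when the terminals have different colours and `D + Δ` when they agree. -/
def Rep (g : Gad) (D Δ : ℤ[X]) : Prop :=
  ∀ (n : ℕ) (a b : Fin n), (g.cnt n a b : ℤ) = D.eval (n : ℤ) + if a = b then Δ.eval (n : ℤ) else 0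

/-! ### parallel composition -/

def pl {V W : Type} : V ⊕ Bool → (V ⊕ W) ⊕ Bool
  | Sum.inl v => Sum.inl (Sum.inl v)
  | Sum.inr c => Sum.inr c

def pr {V W : Type} : W ⊕ Bool → (V ⊕ W) ⊕ Bool
  | Sum.inl v => Sum.inl (Sum.inr v)
  | Sum.inr c => Sum.inr c

theorem pl_inj {V W : Type} : Function.Injective (pl (V := V) (W := W)) := by
  rintro (x | x) (y | y) h <;> simp [pl] at h <;> simp [h]

theorem pr_inj {V W : Type} : Function.Injective (pr (V := V) (W := W)) := by
  rintro (x | x) (y | y) h <;> simp [pr] at h <;> simp [h]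

def par (g h : Gad) : Gad where
  V := g.V ⊕ h.V
  inst := by
    haveI := g.inst
    haveI := h.inst
    infer_instance
  E := fun x y => (∃ x' y', g.E x' y' ∧ pl x' = x ∧ pl y' = y) ∨ (∃ x' y', h.E x' y' ∧ pr x' = x ∧ pr y' = y)
  irr := by
    rintro x (⟨x', y', he, h1, h2⟩ | ⟨x', y', he, h1, h2⟩)
    · have := pl_inj (h1.trans h2.symm)
      subst this
      exact g.irr _ he
    · have := pr_inj (h1.trans h2.symm)
      subst this
      exact h.irr _ he

theorem ext_pl {V W : Type} {n : ℕ} (a b : Fin n) (f : V ⊕ W → Fin n) (x : V ⊕ Bool) :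
    ext a b f (pl x) = ext a b (fun v => f (Sum.inl v)) x := by
  rcases x with x | x <;> simp [ext, pl]

theorem ext_pr {V W : Type} {n : ℕ} (a b : Fin n) (f : V ⊕ W → Fin n) (x : W ⊕ Bool) :
    ext a b f (pr x) = ext a b (fun v => f (Sum.inr v)) x := by
  rcases x with x | x <;> simp [ext, pr]

theorem par_OK (g h : Gad) {n : ℕ} (a b : Fin n) (f : g.V ⊕ h.V → Fin n) :
    (par g h).OK a b f ↔ g.OK a b (fun v => f (Sum.inl v)) ∧ h.OK a b (fun v => f (Sum.inr v)) := by
  constructor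
  · intro H
    refine ⟨fun x y hxy heq => ?_, fun x y hxy heq => ?_⟩
    · exact H (pl x) (pl y) (Or.inl ⟨x, y, hxy, rfl, rfl⟩)
        ((ext_pl a b f x).trans (heq.trans (ext_pl a b f y).symm))
    · exact H (pr x) (pr y) (Or.inr ⟨x, y, hxy, rfl, rfl⟩)
        ((ext_pr a b f x).trans (heq.trans (ext_pr a b f y).symm))
  · rintro ⟨H1, H2⟩ x y (⟨x', y', he, rfl, rfl⟩ | ⟨x', y', he, rfl, rfl⟩) heq
    · exact H1 _ _ he ((ext_pl a b f x').symm.trans (heq.trans (ext_pl a b f y')))
    · exact H2 _ _ he ((ext_pr a b f x').symm.trans (heq.trans (ext_pr a b f y')))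

def par_equiv (g h : Gad) {n : ℕ} (a b : Fin n) :
    {f : (par g h).V → Fin n // (par g h).OK a b f} ≃
      {f : g.V → Fin n // g.OK a b f} × {f : h.V → Fin n // h.OK a b f} where
  toFun f := (⟨fun v => f.1 (Sum.inl v), ((par_OK g h a b f.1).1 f.2).1⟩,
    ⟨fun v => f.1 (Sum.inr v), ((par_OK g h a b f.1).1 f.2).2⟩)
  invFun p := ⟨Sum.elim p.1.1 p.2.1, (par_OK g h a b _).2 ⟨p.1.2, p.2.2⟩⟩
  left_inv := by
    rintro ⟨f, hf⟩
    apply Subtype.ext
    funext v
    rcases v with v | v <;> rfl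
  right_inv := by
    rintro ⟨⟨f, hf⟩, ⟨f', hf'⟩⟩
    rfl

theorem par_cnt (g h : Gad) (n : ℕ) (a b : Fin n) :
    (par g h).cnt n a b = g.cnt n a b * h.cnt n a b := by
  unfold Gad.cnt
  rw [Nat.card_congr (par_equiv g h a b), Nat.card_prod]

theorem par_rep {g h : Gad} {D Δ D' Δ' : ℤ[X]} (hg : Rep g D Δ) (hh : Rep h D' Δ') :
    Rep (par g h) (D * D') (D * Δ' + Δ * D' + Δ * Δ') := by
  intro n a b
  rw [par_cnt, Nat.cast_mul, hg n a b, hh n a b]
  by_cases hab : a = b
  · simp [hab, eval_add, eval_mul]; ring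
  · simp [hab]

/-! ### series composition -/

def sl {V W : Type} : V ⊕ Bool → (V ⊕ W ⊕ Unit) ⊕ Bool
  | Sum.inl v => Sum.inl (Sum.inl v)
  | Sum.inr false => Sum.inr false
  | Sum.inr true => Sum.inl (Sum.inr (Sum.inr ()))

def sr {V W : Type} : W ⊕ Bool → (V ⊕ W ⊕ Unit) ⊕ Bool
  | Sum.inl v => Sum.inl (Sum.inr (Sum.inl v))
  | Sum.inr false => Sum.inl (Sum.inr (Sum.inr ()))
  | Sum.inr true => Sum.inr true

theorem sl_inj {V W : Type} : Function.Injective (sl (V := V) (W := W)) := by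
  rintro (x | (_ | _)) (y | (_ | _)) h <;> simp [sl] at h <;> simp [h]

theorem sr_inj {V W : Type} : Function.Injective (sr (V := V) (W := W)) := by
  rintro (x | (_ | _)) (y | (_ | _)) h <;> simp [sr] at h <;> simp [h]

def ser (g h : Gad) : Gad where
  V := g.V ⊕ h.V ⊕ Unit
  inst := by
    haveI := g.inst
    haveI := h.inst
    infer_instance
  E := fun x y => (∃ x' y', g.E x' y' ∧ sl x' = x ∧ sl y' = y) ∨ (∃ x' y', h.E x' y' ∧ sr x' = x ∧ sr y' = y)
  irr := by
    rintro x (⟨x', y', he, h1, h2⟩ | ⟨x', y', he, h1, h2⟩)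
    · have := sl_inj (h1.trans h2.symm)
      subst this
      exact g.irr _ he
    · have := sr_inj (h1.trans h2.symm)
      subst this
      exact h.irr _ he

theorem ext_sl {V W : Type} {n : ℕ} (a b : Fin n) (f : V ⊕ W ⊕ Unit → Fin n) (x : V ⊕ Bool) :
    ext a b f (sl x) = ext a (f (Sum.inr (Sum.inr ()))) (fun v => f (Sum.inl v)) x := by
  rcases x with x | (_ | _) <;> simp [ext, sl]

theorem ext_sr {V W : Type} {n : ℕ} (a b : Fin n) (f : V ⊕ W ⊕ Unit → Fin n) (x : W ⊕ Bool) :
    ext a b f (sr x) = ext (f (Sum.inr (Sum.inr ()))) b (fun v => f (Sum.inr (Sum.inl v))) x := by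
  rcases x with x | (_ | _) <;> simp [ext, sr]

theorem ser_OK (g h : Gad) {n : ℕ} (a b : Fin n) (f : g.V ⊕ h.V ⊕ Unit → Fin n) :
    (ser g h).OK a b f ↔ g.OK a (f (Sum.inr (Sum.inr ()))) (fun v => f (Sum.inl v)) ∧
      h.OK (f (Sum.inr (Sum.inr ()))) b (fun v => f (Sum.inr (Sum.inl v))) := by
  constructor
  · intro H
    refine ⟨fun x y hxy heq => ?_, fun x y hxy heq => ?_⟩
    · exact H (sl x) (sl y) (Or.inl ⟨x, y, hxy, rfl, rfl⟩)
        ((ext_sl a b f x).trans (heq.trans (ext_sl a b f y).symm))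
    · exact H (sr x) (sr y) (Or.inr ⟨x, y, hxy, rfl, rfl⟩)
        ((ext_sr a b f x).trans (heq.trans (ext_sr a b f y).symm))
  · rintro ⟨H1, H2⟩ x y (⟨x', y', he, rfl, rfl⟩ | ⟨x', y', he, rfl, rfl⟩) heq
    · exact H1 _ _ he ((ext_sl a b f x').symm.trans (heq.trans (ext_sl a b f y')))
    · exact H2 _ _ he ((ext_sr a b f x').symm.trans (heq.trans (ext_sr a b f y')))

def ser_equiv (g h : Gad) {n : ℕ} (a b : Fin n) :
    {f : (ser g h).V → Fin n // (ser g h).OK a b f} ≃
      (Σ m : Fin n, {f : g.V → Fin n // g.OK a m f} × {f : h.V → Fin n // h.OK m b f}) where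
  toFun f := ⟨f.1 (Sum.inr (Sum.inr ())), (⟨fun v => f.1 (Sum.inl v), ((ser_OK g h a b f.1).1 f.2).1⟩,
    ⟨fun v => f.1 (Sum.inr (Sum.inl v)), ((ser_OK g h a b f.1).1 f.2).2⟩)⟩
  invFun p := ⟨Sum.elim p.2.1.1 (Sum.elim p.2.2.1 (fun _ => p.1)),
    (ser_OK g h a b _).2 ⟨p.2.1.2, p.2.2.2⟩⟩
  left_inv := by
    rintro ⟨f, hf⟩
    apply Subtype.ext
    funext v
    rcases v with v | v | v <;> rfl
  right_inv := by
    rintro ⟨m, ⟨f, hf⟩, ⟨f', hf'⟩⟩
    rfl

theorem ser_cnt (g h : Gad) (n : ℕ) (a b : Fin n) :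
    (ser g h).cnt n a b = ∑ m : Fin n, g.cnt n a m * h.cnt n m b := by
  have := g.inst
  have := h.inst
  unfold Gad.cnt
  rw [Nat.card_congr (ser_equiv g h a b), Nat.card_sigma]
  refine Finset.sum_congr rfl (fun m _ => ?_)
  rw [Nat.card_prod]

theorem ser_rep {g h : Gad} {D Δ D' Δ' : ℤ[X]} (hg : Rep g D Δ) (hh : Rep h D' Δ') :
    Rep (ser g h) (X * D * D' + Δ * D' + D * Δ') (Δ * Δ') := by
  intro n a b
  rw [ser_cnt]
  push_cast
  simp_rw [hg n a, hh n]
  have : ∀ m : Fin n, (D.eval (n : ℤ) + if a = m then Δ.eval (n : ℤ) else 0) *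
      (D'.eval (n : ℤ) + if m = b then Δ'.eval (n : ℤ) else 0) =
      D.eval (n : ℤ) * D'.eval (n : ℤ) + (if a = m then Δ.eval (n : ℤ) * D'.eval (n : ℤ) else 0) +
      (if m = b then D.eval (n : ℤ) * Δ'.eval (n : ℤ) else 0) +
      (if a = m then (if a = b then Δ.eval (n : ℤ) * Δ'.eval (n : ℤ) else 0) else 0) := by
    intro m
    by_cases h1 : a = m
    · subst h1
      by_cases h2 : a = b
      · simp [h2]; ring
      · simp [h2]; ring
    · by_cases h2 : m = b
      · subst h2
        simp [h1]; ring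
      · simp [h1, h2]
  simp_rw [this]
  rw [Finset.sum_add_distrib, Finset.sum_add_distrib, Finset.sum_add_distrib]
  simp only [Finset.sum_const, Finset.card_univ, Fintype.card_fin, nsmul_eq_mul,
    Finset.sum_ite_eq, Finset.sum_ite_eq', Finset.mem_univ, if_true, eval_add, eval_mul, eval_X]
  ring

/-! ### a single edge -/

def edge : Gad where
  V := Empty
  inst := inferInstance
  E := fun x y => x = Sum.inr false ∧ y = Sum.inr true
  irr := by
    rintro x ⟨h1, h2⟩
    rw [h1] at h2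
    simp at h2

theorem edge_rep : Rep edge 1 (-1) := by
  intro n a b
  have hOK : ∀ f : Empty → Fin n, edge.OK a b f ↔ a ≠ b := by
    intro f
    constructor
    · intro H hab
      exact H (Sum.inr false) (Sum.inr true) ⟨rfl, rfl⟩ hab
    · rintro hab x y ⟨rfl, rfl⟩ h
      exact hab h
  by_cases hab : a = b
  · have : IsEmpty {f : edge.V → Fin n // edge.OK a b f} := by
      constructor
      rintro ⟨f, hf⟩
      exact (hOK f).1 hf hab
    unfold Gad.cnt
    rw [Nat.card_of_isEmpty]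
    simp [hab]
  · have : Unique {f : edge.V → Fin n // edge.OK a b f} :=
      { default := ⟨fun x => x.elim, (hOK _).2 hab⟩
        uniq := by
          rintro ⟨f, hf⟩
          apply Subtype.ext
          funext x
          exact x.elim }
    unfold Gad.cnt
    rw [Nat.card_unique]
    simp [hab]

/-! ### the complete graph on four vertices minus the edge joining the terminals -/

def bridge : Gad where
  V := Bool
  inst := inferInstance
  E := fun x y => (x = Sum.inl false ∧ y = Sum.inl true) ∨ (∃ c d : Bool, x = Sum.inl c ∧ y = Sum.inr d)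
  irr := by
    rintro x (⟨h1, h2⟩ | ⟨c, d, h1, h2⟩)
    · rw [h1] at h2
      simp at h2
    · rw [h1] at h2
      simp at h2

theorem bridge_OK {n : ℕ} (a b : Fin n) (f : Bool → Fin n) :
    bridge.OK a b f ↔ (f false ≠ a ∧ f false ≠ b) ∧ (f true ≠ a ∧ f true ≠ b ∧ f true ≠ f false) := by
  constructor
  · intro H
    have h1 : f false ≠ f true := H (Sum.inl false) (Sum.inl true) (Or.inl ⟨rfl, rfl⟩)
    have h2 : f false ≠ a := H (Sum.inl false) (Sum.inr false) (Or.inr ⟨_, _, rfl, rfl⟩)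
    have h3 : f false ≠ b := H (Sum.inl false) (Sum.inr true) (Or.inr ⟨_, _, rfl, rfl⟩)
    have h4 : f true ≠ a := H (Sum.inl true) (Sum.inr false) (Or.inr ⟨_, _, rfl, rfl⟩)
    have h5 : f true ≠ b := H (Sum.inl true) (Sum.inr true) (Or.inr ⟨_, _, rfl, rfl⟩)
    exact ⟨⟨h2, h3⟩, h4, h5, h1.symm⟩
  · rintro ⟨⟨h2, h3⟩, h4, h5, h1⟩ x y (⟨rfl, rfl⟩ | ⟨c, d, rfl, rfl⟩)
    · exact h1.symm
    · cases c <;> cases d
      · exact h2
      · exact h3
      · exact h4
      · exact h5

theorem bridge_cnt {n : ℕ} (a b : Fin n) :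
    bridge.cnt n a b = ∑ p : Fin n, ∑ r : Fin n,
      if (p ≠ a ∧ p ≠ b) ∧ (r ≠ a ∧ r ≠ b ∧ r ≠ p) then 1 else 0 := by
  classical
  unfold Gad.cnt
  have e : {f : bridge.V → Fin n // bridge.OK a b f} ≃
      {w : Fin n × Fin n // (w.1 ≠ a ∧ w.1 ≠ b) ∧ (w.2 ≠ a ∧ w.2 ≠ b ∧ w.2 ≠ w.1)} :=
    { toFun := fun f => ⟨(f.1 false, f.1 true), (bridge_OK a b f.1).1 f.2⟩
      invFun := fun w => ⟨fun c => cond c w.1.2 w.1.1, (bridge_OK a b _).2 w.2⟩
      left_inv := by
        rintro ⟨f, hf⟩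
        apply Subtype.ext
        funext c
        cases c <;> rfl
      right_inv := by
        rintro ⟨⟨w1, w2⟩, hw⟩
        rfl }
  rw [Nat.card_congr e, Nat.card_eq_fintype_card, Fintype.card_subtype, Finset.card_filter,
    Fintype.sum_prod_type]

theorem bridge_inner {n : ℕ} (a b p : Fin n) (hab : a = b) (hp : p ≠ a) :
    ((∑ r : Fin n, if r ≠ a ∧ r ≠ b ∧ r ≠ p then (1 : ℕ) else 0 : ℕ) : ℤ) = (n : ℤ) - 2 := by
  classical
  subst hab
  rw [← Finset.card_filter]
  have : (Finset.univ.filter fun r : Fin n => r ≠ a ∧ r ≠ a ∧ r ≠ p) = Finset.univ \ {a, p} := by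
    ext r
    simp
  rw [this, Finset.card_sdiff_of_subset (Finset.subset_univ _), Finset.card_univ, Fintype.card_fin]
  have h2 : ({a, p} : Finset (Fin n)).card = 2 := Finset.card_pair hp.symm
  have h3 : 2 ≤ n := by
    have := Finset.card_le_univ ({a, p} : Finset (Fin n))
    rw [h2, Fintype.card_fin] at this
    exact this
  rw [h2]
  push_cast [h3]
  ring

theorem bridge_inner' {n : ℕ} (a b p : Fin n) (hab : a ≠ b) (hp : p ≠ a) (hp' : p ≠ b) :
    ((∑ r : Fin n, if r ≠ a ∧ r ≠ b ∧ r ≠ p then (1 : ℕ) else 0 : ℕ) : ℤ) = (n : ℤ) - 3 := by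
  classical
  rw [← Finset.card_filter]
  have : (Finset.univ.filter fun r : Fin n => r ≠ a ∧ r ≠ b ∧ r ≠ p) = Finset.univ \ {a, b, p} := by
    ext r
    simp
  rw [this, Finset.card_sdiff_of_subset (Finset.subset_univ _), Finset.card_univ, Fintype.card_fin]
  have h2 : ({a, b, p} : Finset (Fin n)).card = 3 := by
    rw [Finset.card_insert_of_notMem, Finset.card_pair hp'.symm]
    simp [hab, hp.symm]
  have h3 : 3 ≤ n := by
    have := Finset.card_le_univ ({a, b, p} : Finset (Fin n))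
    rw [h2, Fintype.card_fin] at this
    exact this
  rw [h2]
  push_cast [h3]
  ring

theorem bridge_rep : Rep bridge ((X - 2) * (X - 3)) (2 * (X - 2)) := by
  intro n a b
  classical
  rw [bridge_cnt]
  have hsplit : ∀ p : Fin n, (∑ r : Fin n,
      if (p ≠ a ∧ p ≠ b) ∧ (r ≠ a ∧ r ≠ b ∧ r ≠ p) then (1 : ℕ) else 0) =
      if (p ≠ a ∧ p ≠ b) then (∑ r : Fin n, if (r ≠ a ∧ r ≠ b ∧ r ≠ p) then (1 : ℕ) else 0) else 0 := by
    intro p
    by_cases hp : p ≠ a ∧ p ≠ b
    · simp only [hp, true_and, if_true, and_self, ne_eq, not_false_eq_true]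
    · simp only [hp, false_and, if_false, Finset.sum_const_zero]
  simp_rw [hsplit]
  push_cast
  by_cases hab : a = b
  · have h1 : ∀ p : Fin n, (if p ≠ a ∧ p ≠ b then
        (∑ r : Fin n, if (r ≠ a ∧ r ≠ b ∧ r ≠ p) then (1 : ℤ) else 0) else 0) =
        ((n : ℤ) - 2) - (if p = a then ((n : ℤ) - 2) else 0) := by
      intro p
      by_cases hp : p = a
      · simp [hp]
      · have := bridge_inner a b p hab hp
        push_cast at this
        rw [this]
        subst hab
        simp [hp]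
    rw [Finset.sum_congr rfl (fun p _ => h1 p), Finset.sum_sub_distrib]
    simp [hab]
    ring
  · have h1 : ∀ p : Fin n, (if p ≠ a ∧ p ≠ b then
        (∑ r : Fin n, if (r ≠ a ∧ r ≠ b ∧ r ≠ p) then (1 : ℤ) else 0) else 0) =
        ((n : ℤ) - 3) - (if p = a then ((n : ℤ) - 3) else 0) - (if p = b then ((n : ℤ) - 3) else 0) := by
      intro p
      by_cases hp : p = a
      · simp [hp, hab]
      · by_cases hp' : p = b
        · simp [hp', Ne.symm hab]
        · have := bridge_inner' a b p hab hp hp'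
          push_cast at this
          rw [this]
          simp [hp, hp']
    rw [Finset.sum_congr rfl (fun p _ => h1 p), Finset.sum_sub_distrib, Finset.sum_sub_distrib]
    simp [hab]
    ring

/-! ### the graph of a gadget and its colourings -/

def Gad.graph (g : Gad) : SimpleGraph (g.V ⊕ Bool) where
  Adj x y := g.E x y ∨ g.E y x
  symm := by
    constructor
    intro x y h
    exact h.symm
  loopless := by
    constructor
    rintro x (h | h) <;> exact g.irr x h

theorem graph_count (g : Gad) (n : ℕ) :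
    Nat.card (g.graph.Coloring (Fin n)) = ∑ a : Fin n, ∑ b : Fin n, g.cnt n a b := by
  have := g.inst
  have e : g.graph.Coloring (Fin n) ≃ (Σ a : Fin n, Σ b : Fin n, {f : g.V → Fin n // g.OK a b f}) :=
    { toFun := fun c => ⟨c (Sum.inr false), c (Sum.inr true), ⟨fun v => c (Sum.inl v), by
        intro x y hxy
        have h := c.valid (Or.inl hxy : g.graph.Adj x y)
        have hh : ∀ z, ext (c (Sum.inr false)) (c (Sum.inr true)) (fun v => c (Sum.inl v)) z = c z := by
          rintro (z | (_ | _)) <;> simp [ext]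
        rw [hh, hh]
        exact h⟩⟩
      invFun := fun w => SimpleGraph.Coloring.mk (ext w.1 w.2.1 w.2.2.1) (by
        rintro x y (h | h)
        · exact w.2.2.2 x y h
        · exact (w.2.2.2 y x h).symm)
      left_inv := by
        intro c
        apply RelHom.ext
        rintro (z | (_ | _)) <;> rfl
      right_inv := by
        rintro ⟨a, b, ⟨f, hf⟩⟩
        rfl }
  rw [Nat.card_congr e, Nat.card_sigma]
  refine Finset.sum_congr rfl (fun a _ => ?_)
  rw [Nat.card_sigma]
  rfl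

theorem graph_rep {g : Gad} {D Δ : ℤ[X]} (hg : Rep g D Δ) (n : ℕ) :
    (X * X * D + X * Δ).eval (n : ℤ) = (Nat.card (g.graph.Coloring (Fin n)) : ℤ) := by
  rw [graph_count]
  push_cast
  simp_rw [hg n]
  simp only [Finset.sum_add_distrib, Finset.sum_const, Finset.card_univ, Fintype.card_fin, nsmul_eq_mul,
    Finset.sum_ite_eq, Finset.mem_univ, if_true, eval_add, eval_mul, eval_X]
  ring

/-! ### the counterexample -/

/-- a cycle of length seven with terminals at distance three -/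
def cyc7 : Gad := par (ser edge (ser edge edge)) (ser edge (ser edge (ser edge edge)))

/-- the graph: 23 vertices, 29 edges -/
def big : Gad :=
  par cyc7 (ser (ser edge edge) (par (ser edge cyc7) (ser bridge cyc7)))

theorem result :
    ¬ (∀ (V : Type) [Fintype V] (G : SimpleGraph V) (p : Polynomial ℤ),
      (∀ n : ℕ, p.eval (n : ℤ) = (Nat.card (G.Coloring (Fin n)) : ℤ)) →
      ∀ z : ℂ, z.re = 0 → z.im ≠ 0 → Polynomial.aeval z p ≠ 0) := by
  intro H
  have h2 := ser_rep edge_rep edge_rep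
  have h3 := ser_rep edge_rep h2
  have h4 := ser_rep edge_rep h3
  have hc : Rep cyc7 _ _ := par_rep h3 h4
  have hb : Rep big _ _ := par_rep hc (ser_rep h2 (par_rep (ser_rep edge_rep hc) (ser_rep bridge_rep hc)))
  let _ := big.inst
  have key := H (big.V ⊕ Bool) big.graph _ (graph_rep hb) Complex.I (by simp) (by simp)
  apply key
  simp only [map_add, map_mul, map_sub, map_one, map_neg, map_ofNat, aeval_X]
  have hI : Complex.I ^ 2 = -1 := Complex.I_sq
  linear_combination ((23328) * Complex.I ^ 1 + (-237168) * Complex.I ^ 2 + (1168992) * Complex.I ^ 3 + (-3716280) * Complex.I ^ 4 + (8546850) * Complex.I ^ 5 + (-15112683) * Complex.I ^ 6 + (21308805) * Complex.I ^ 7 + (-24519060) * Complex.I ^ 8 + (23367102) * Complex.I ^ 9 + (-18611634) * Complex.I ^ 10 + (12446456) * Complex.I ^ 11 + (-6994627) * Complex.I ^ 12 + (3294449) * Complex.I ^ 13 + (-1292192) * Complex.I ^ 14 + (417570) * Complex.I ^ 15 + (-109359) * Complex.I ^ 16 + (22647) * Complex.I ^ 17 + (-3571)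 * Complex.I ^ 18 + (403) * Complex.I ^ 19 + (-29) * Complex.I ^ 20 + (1) * Complex.I ^ 21) * hI

end Pool.Agent.S09512
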