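import Pool.Statements.S09607
import Pool.Agent.H53.CGPlay
import Pool.Agent.H53.CGCount
import Pool.Agent.H53.CGEst

set_option autoImplicit false
open Pool Pool.MP_78797b_co

namespace Pool.Agent.S09607

open Finset Pool.Agent.H53.CG

/-- The numerical core: the initial potential exceeds the total possible loss. -/
lemma initial_pot {q n N : ℕ} (vert : Fin q × Fin n ↪ Fin N) (hN : 2 ≤ N) (hn : 0 < n)
    (hqn : N ≤ 2 * q * n ∨ q = 0)
    (h1 : (q + 1) * (64 * q ^ 6) ≤ N) (h2 : 16 * q ^ 4 * 2 ^ q ≤ N ^ 2)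
    (T lam1 lam2 : ℝ) (hT : T = (n : ℝ) ^ q * (1/2 : ℝ) ^ (q.choose 2))
    (hl1 : lam1 = 2 / T) (hl2 : lam2 = (N : ℝ) ^ 2 / (4 * T)) :
    ((N.choose 2 : ℕ) : ℝ) / 2 * (1 / (4 * lam2)) + 1 / (4 * lam1)
      < pot (coef (fun a b : Fin q → Fin n => cf lam1 lam2 (agr a b))) (sets (A vert)) ∅ ∅ := by
  classical
  have hn' : (0 : ℝ) < n := by exact_mod_cast hn
  have hN' : (0 : ℝ) < N := by exact_mod_cast (by omega : 0 < N)
  have hTpos : 0 < T := by rw [hT]; positivity
  have hl1pos : 0 < lam1 := by rw [hl1]; positivity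
  have hl2pos : 0 < lam2 := by rw [hl2]; positivity
  have hcf : ∀ m, 0 ≤ cf lam1 lam2 m := by
    intro m
    unfold cf
    split_ifs <;> positivity
  -- main part
  have hmain : (∑ a : Fin q → Fin n, (1 : ℝ) * wt ∅ ∅ (A vert a)) = T := by
    have : ∀ a : Fin q → Fin n, (1 : ℝ) * wt ∅ ∅ (A vert a) = (1/2 : ℝ) ^ (q.choose 2) := by
      intro a
      unfold wt
      rw [if_pos (Finset.disjoint_empty_right _), Finset.sdiff_empty, card_A, one_mul]
    rw [Finset.sum_congr rfl (fun a _ => this a), Finset.sum_const, nsmul_eq_mul, hT]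
    simp
  have hpair : (∑ p : (Fin q → Fin n) × (Fin q → Fin n),
      cf lam1 lam2 (agr p.1 p.2) * wt ∅ ∅ (A vert p.1 ∪ A vert p.2))
      ≤ T ^ 2 * (lam2 / (N : ℝ) ^ 2 + lam1 / 16) := by
    have h3 : ∀ p : (Fin q → Fin n) × (Fin q → Fin n),
        cf lam1 lam2 (agr p.1 p.2) * wt ∅ ∅ (A vert p.1 ∪ A vert p.2)
        = ((1/2 : ℝ) ^ (q.choose 2)) ^ 2 *
          (cf lam1 lam2 (agr p.1 p.2) * 2 ^ ((agr p.1 p.2).choose 2)) := by
      intro p
      unfold wt
      rw [if_pos (Finset.disjoint_empty_right _), Finset.sdiff_empty, pow_card_A_union]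
      ring
    rw [Finset.sum_congr rfl (fun p _ => h3 p), ← Finset.mul_sum, ← Finset.univ_product_univ,
      Finset.sum_product]
    have h4 : (∑ a : Fin q → Fin n, ∑ b : Fin q → Fin n,
        cf lam1 lam2 (agr a b) * 2 ^ ((agr a b).choose 2))
        ≤ ∑ _a : Fin q → Fin n, (n : ℝ) ^ q * (lam2 / (N : ℝ) ^ 2 + lam1 / 16) := by
      refine Finset.sum_le_sum fun a _ => ?_
      refine le_trans (sum_agr_le a (fun m => cf lam1 lam2 m * 2 ^ (m.choose 2))
        (fun m => mul_nonneg (hcf m) (by positivity))) ?_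
      exact sum_bound hN hn hqn h1 h2 lam1 lam2 hl1pos hl2pos
    refine le_trans (mul_le_mul_of_nonneg_left h4 (by positivity)) ?_
    rw [Finset.sum_const, nsmul_eq_mul, hT]
    simp only [card_univ, Fintype.card_pi, Fintype.card_fin, prod_const]
    push_cast
    apply le_of_eq
    ring
  have hpot : pot (coef (fun a b : Fin q → Fin n => cf lam1 lam2 (agr a b))) (sets (A vert)) ∅ ∅
      = T - ∑ p : (Fin q → Fin n) × (Fin q → Fin n),
        cf lam1 lam2 (agr p.1 p.2) * wt ∅ ∅ (A vert p.1 ∪ A vert p.2) := by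
    unfold pot
    rw [Fintype.sum_sum_type]
    simp only [coef, sets, Sum.elim_inl, Sum.elim_inr]
    rw [hmain]
    simp only [neg_mul, Finset.sum_neg_distrib]
    ring
  rw [hpot]
  have e1 : T ^ 2 * (lam2 / (N : ℝ) ^ 2 + lam1 / 16) = T / 4 + T / 8 := by
    rw [hl1, hl2]; field_simp; ring
  have e2 : 1 / (4 * lam1) = T / 8 := by
    rw [hl1]; field_simp; ring
  have e3 : ((N.choose 2 : ℕ) : ℝ) / 2 * (1 / (4 * lam2)) ≤ T / 4 := by
    have h5 : ((N.choose 2 : ℕ) : ℝ) ≤ (N : ℝ) ^ 2 / 2 := by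
      rw [Nat.cast_choose_two]
      nlinarith
    have h6 : 1 / (4 * lam2) = T / (N : ℝ) ^ 2 := by
      rw [hl2]; field_simp
    rw [h6]
    calc ((N.choose 2 : ℕ) : ℝ) / 2 * (T / (N : ℝ) ^ 2)
        ≤ ((N : ℝ) ^ 2 / 2) / 2 * (T / (N : ℝ) ^ 2) := by gcongr
      _ = T / 4 := by field_simp; ring
  rw [e2]
  have := hpair
  rw [e1] at this
  linarith

/-- For every ε>0 and large N, for any q ≤ (2−ε)log₂N and any red/blue colouring of K_q, first-player Red can ensure that after all edges of K_N are claimed, some q vertices carry exactly that colouring. -/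
theorem result :
    ∀ ε : ℝ, 0 < ε → ∃ N₀ : ℕ, ∀ N : ℕ, N₀ ≤ N → ∀ q : ℕ,
      (q : ℝ) ≤ (2 - ε) * Real.logb 2 (N : ℝ) →
      ∀ G : SimpleGraph (Fin q), ∃ σ : List (Fin N × Fin N) → Fin N × Fin N,
        ∀ m : ℕ → Fin N × Fin N,
          (∀ k < N.choose 2, (Even k → m k = σ ((List.range k).map m)) ∧
              (¬ Even k → (m k).1 ≠ (m k).2 ∧
                ∀ j < k, m j ≠ m k ∧ m j ≠ (m k).swap)) →
          (∀ k < N.choose 2, (m k).1 ≠ (m k).2 ∧
                ∀ j < k, m j ≠ m k ∧ m j ≠ (m k).swap) ∧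
          ∃ f : Fin q ↪ Fin N, ∀ i j : Fin q, i ≠ j →
            (G.Adj i j ↔ ∃ k < N.choose 2, Even k ∧
              (m k = (f i, f j) ∨ m k = (f j, f i))) := by
  classical
  intro ε hε
  obtain ⟨N₀, hN₀⟩ := eventually_ok ε hε
  refine ⟨N₀, fun N hN q hq G => ?_⟩
  obtain ⟨hN2, hN3⟩ := hN₀ N hN
  obtain ⟨h1, h2⟩ := hN3 q hq
  -- part size
  set n : ℕ := if q = 0 then 1 else N / q with hn_def
  have hqN : q ≤ N := by
    rcases Nat.eq_zero_or_pos q with h | h
    · omega
    · have h3 : 1 ≤ q ^ 6 := Nat.one_le_pow _ _ h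
      nlinarith
  have hn : 0 < n := by
    rw [hn_def]
    split_ifs with h
    · norm_num
    · exact Nat.div_pos hqN (Nat.pos_of_ne_zero h)
  have hqn : N ≤ 2 * q * n ∨ q = 0 := by
    by_cases h : q = 0
    · exact Or.inr h
    · left
      have hne : n = N / q := by rw [hn_def, if_neg h]
      have h3 := Nat.div_add_mod N q
      have h4 := Nat.mod_lt N (Nat.pos_of_ne_zero h)
      rw [← hne] at h3
      have h5 : q ≤ q * n := Nat.le_mul_of_pos_right q hn
      nlinarith
  have hqnN : q * n ≤ N := by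
    by_cases h : q = 0
    · rw [h]; omega
    · have hne : n = N / q := by rw [hn_def, if_neg h]
      rw [hne]
      exact Nat.mul_div_le N q
  let vert : Fin q × Fin n ↪ Fin N :=
    finProdFinEquiv.toEmbedding.trans (Fin.castLEEmb hqnN)
  -- constants
  set T : ℝ := (n : ℝ) ^ q * (1/2 : ℝ) ^ (q.choose 2) with hT
  have hn' : (0 : ℝ) < n := by exact_mod_cast hn
  have hN' : (0 : ℝ) < N := by exact_mod_cast (by omega : 0 < N)
  have hTpos : 0 < T := by rw [hT]; positivity
  set lam1 : ℝ := 2 / T with hl1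
  set lam2 : ℝ := (N : ℝ) ^ 2 / (4 * T) with hl2
  have hl1pos : 0 < lam1 := by rw [hl1]; positivity
  have hl2pos : 0 < lam2 := by rw [hl2]; positivity
  set c : (Fin q → Fin n) → (Fin q → Fin n) → ℝ := fun a b => cf lam1 lam2 (agr a b) with hc
  have hpot := initial_pot vert hN2 hn hqn h1 h2 T lam1 lam2 hT hl1 hl2
  -- the board
  set X : Finset (Sym2 (Fin N)) := edges univ with hX
  have hXcard : X.card = N.choose 2 := by rw [hX, card_edges]; simp
  -- roles
  let ty : Sym2 (Fin N) → Prop := fun e =>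
    ¬ ∃ i j : Fin q, ∃ a b : Fin n, i ≠ j ∧ ¬ G.Adj i j ∧ e = s(vert (i, a), vert (j, b))
  have hty : ∀ (i j : Fin q) (a b : Fin n), i ≠ j →
      (ty s(vert (i, a), vert (j, b)) ↔ G.Adj i j) := by
    intro i j a b hij
    constructor
    · intro h
      by_contra hadj
      exact h ⟨i, j, a, b, hij, hadj, rfl⟩
    · rintro hadj ⟨i', j', a', b', hij', hadj', he⟩
      rcases Sym2.eq_iff.mp he with ⟨h3, h4⟩ | ⟨h3, h4⟩
      · have h5 := (Prod.mk.inj (vert.injective h3)).1
        have h6 := (Prod.mk.inj (vert.injective h4)).1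
        subst h5; subst h6
        exact hadj' hadj
      · have h5 := (Prod.mk.inj (vert.injective h3)).1
        have h6 := (Prod.mk.inj (vert.injective h4)).1
        subst h5; subst h6
        exact hadj' hadj.symm
  -- default values
  let p0 : Fin N × Fin N := (⟨0, by omega⟩, ⟨0, by omega⟩)
  let mk' : Fin N × Fin N → Sym2 (Fin N) := fun p => s(p.1, p.2)
  -- the strategy
  let eOf : List (Fin N × Fin N) → ℕ → Sym2 (Fin N) := fun h k => mk' (h.getD k p0)
  let σ : List (Fin N × Fin N) → Fin N × Fin N := fun h =>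
    Quot.out (pick ty
      (D1 (coef c) (sets (A vert)) (st ty (eOf h) (h.length / 2)).1
        (st ty (eOf h) (h.length / 2)).2)
      (X \ cl (eOf h) h.length) (mk' p0))
  refine ⟨σ, fun m hm => ?_⟩
  let e : ℕ → Sym2 (Fin N) := fun k => mk' (m k)
  have hmk_out : ∀ z : Sym2 (Fin N), mk' (Quot.out z) = z := fun z => Quot.out_eq z
  have hmk_eq : ∀ p p' : Fin N × Fin N, mk' p = mk' p' ↔ p = p' ∨ p = p'.swap :=
    fun p p' => Sym2.mk_eq_mk_iff
  have hlen : ∀ k, ((List.range k).map m).length = k := by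
    intro k; simp
  have heOf : ∀ k, ∀ j < k, eOf ((List.range k).map m) j = e j := by
    intro k j hj
    change mk' (((List.range k).map m).getD j p0) = mk' (m j)
    congr 1
    rw [List.getD_eq_getElem?_getD, List.getElem?_map, List.getElem?_range hj]
    rfl
  have he0 : ∀ k < X.card, Even k → e k = pick ty
      (D1 (coef c) (sets (A vert)) (st ty e (k / 2)).1 (st ty e (k / 2)).2)
      (X \ cl e k) (mk' p0) := by
    intro k hk hev
    have h3 := (hm k (by rw [← hXcard]; exact hk)).1 hev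
    change mk' (m k) = _
    rw [h3]
    change mk' (Quot.out _) = _
    rw [hmk_out, hlen]
    rw [cl_congr _ e k (heOf k), st_congr ty _ e (k / 2) (fun j hj => heOf k j (by omega))]
  have hdistinct : ∀ j k, (m j ≠ m k ∧ m j ≠ (m k).swap) ↔ e j ≠ e k := by
    intro j k
    rw [← not_or, ← hmk_eq]
  have hmemX : ∀ k, e k ∈ X ↔ (m k).1 ≠ (m k).2 := by
    intro k
    change s((m k).1, (m k).2) ∈ edges univ ↔ _
    rw [mem_edges]
    simp
  have hclmem : ∀ k, e k ∉ cl e k ↔ ∀ j < k, m j ≠ m k ∧ m j ≠ (m k).swap := by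
    intro k
    constructor
    · intro h j hj
      rw [hdistinct]
      intro h3
      exact h (h3 ▸ mem_cl e hj)
    · intro h h3
      obtain ⟨j, hj, hje⟩ := mem_image.mp h3
      exact (hdistinct j k).mp (h j (mem_range.mp hj)) hje
  have he1 : ∀ k < X.card, ¬ Even k → e k ∈ X \ cl e k := by
    intro k hk hodd
    obtain ⟨h3, h4⟩ := (hm k (by rw [← hXcard]; exact hk)).2 hodd
    rw [mem_sdiff]
    exact ⟨(hmemX k).mpr h3, (hclmem k).mpr h4⟩
  obtain ⟨hlegal, a, ha⟩ := play X ty (A vert)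
    (fun a => edges_mono (subset_univ _)) c
    (fun a b => by
      rw [hc]; simp only; unfold cf; split_ifs <;> positivity)
    lam1 lam2 hl1pos hl2pos
    (fun z a b hza hzb => by
      have h3 := two_le_agr vert hza hzb
      rw [hc]; simp only; unfold cf
      rw [if_pos h3]
      split_ifs
      · linarith
      · linarith)
    (fun x y hxy a b hxa hxb => by
      have h3 := three_le_agr vert hxy hxa hxb
      rw [hc]; simp only; unfold cf
      rw [if_pos h3, if_pos (by omega)]
      linarith)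
    (by rw [hXcard]; exact hpot)
    (mk' p0) e he0 he1
  constructor
  · intro k hk
    have h3 := hlegal k (by rw [hXcard]; exact hk)
    rw [mem_sdiff] at h3
    exact ⟨(hmemX k).mp h3.1, (hclmem k).mp h3.2⟩
  · refine ⟨va vert a, fun i j hij => ?_⟩
    have hz : s(vert (i, a i), vert (j, a j)) ∈ A vert a := by
      unfold A
      rw [mem_edges]
      refine ⟨(mem_V vert a _).mpr ⟨i, rfl⟩, (mem_V vert a _).mpr ⟨j, rfl⟩, ?_⟩
      intro h
      exact hij (Prod.mk.inj (vert.injective h)).1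
    obtain ⟨k, hk, hke, hev⟩ := ha _ hz
    rw [hty i j (a i) (a j) hij] at hev
    have hinj : ∀ k' < X.card, e k' = e k → k' = k := by
      intro k' hk' h3
      by_contra hne
      rcases lt_or_gt_of_ne hne with h | h
      · exact (mem_sdiff.mp (hlegal k hk)).2 (h3 ▸ mem_cl e h)
      · exact (mem_sdiff.mp (hlegal k' hk')).2 (h3 ▸ mem_cl e h)
    have hrep : ∀ k', (m k' = (va vert a i, va vert a j) ∨ m k' = (va vert a j, va vert a i))
        ↔ e k' = s(vert (i, a i), vert (j, a j)) := by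
      intro k'
      change _ ↔ mk' (m k') = mk' (vert (i, a i), vert (j, a j))
      rw [hmk_eq]
      rfl
    constructor
    · intro hadj
      exact ⟨k, by rw [← hXcard]; exact hk, hev.mpr hadj, (hrep k).mpr hke⟩
    · rintro ⟨k', hk', hev', hm'⟩
      have h3 := (hrep k').mp hm'
      rw [← hke] at h3
      have h4 := hinj k' (by rw [hXcard]; exact hk') h3
      subst h4
      exact hev.mp hev'

end Pool.Agent.S09607
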