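import Pool.Statements.S09611
import Pool.Agent.H3.FQ.FINALF

set_option autoImplicit false
open Classical
open Pool Pool.MP_78a685_co

namespace Pool.Agent.S09611

/-- For every M there is N such that every set of at least N points in the plane has at least M distinct distances that occur between some pair of its points but between at most n pairs, n being the number of points. -/
theorem result :
    ∀ M : ℕ, ∃ N : ℕ, ∀ A : Finset (EuclideanSpace ℝ (Fin 2)),
      N ≤ A.card →
        M ≤ ((A.offDiag.image (fun p => dist p.1 p.2)).filter
              (fun d => (A.offDiag.filter (fun p => dist p.1 p.2 = d)).card ≤ 2 * A.card)).card := by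
  intro M
  obtain ⟨N, hN⟩ := Pool.Agent.H3.FQ.FINALF M
  exact ⟨N, fun A hA => hN A hA⟩

end Pool.Agent.S09611
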