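import Pool.Statements.S09905
import Pool.Agent.H62.WFinal

set_option autoImplicit false
open Pool Pool.MP_8764f2_co

namespace Pool.Agent.S09905

/-- For every odd n ≥ 11, any finite graph with the same number of proper k-colorings as the wheel (n-cycle plus a hub joined to all) for every k is isomorphic to that wheel. -/
theorem result :
    ∀ n : ℕ, 11 ≤ n → Odd n →
      ∀ (V : Type) [Fintype V] (H : SimpleGraph V),
        (∀ k : ℕ, Nat.card (H.Coloring (Fin k)) =
          Nat.card ((SimpleGraph.fromRel (fun a b : Option (Fin n) =>
            a = none ∨ ∃ i j : Fin n, a = some i ∧ b = some j ∧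
              (SimpleGraph.cycleGraph n).Adj i j)).Coloring (Fin k))) →
        Nonempty (H ≃g SimpleGraph.fromRel (fun a b : Option (Fin n) =>
            a = none ∨ ∃ i j : Fin n, a = some i ∧ b = some j ∧
              (SimpleGraph.cycleGraph n).Adj i j)) := by
  intro n hn hodd V _ H hk
  exact Pool.Agent.H62.Wh.wheel_unique n hn hodd V H hk

end Pool.Agent.S09905
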