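import Pool.Statements.S11620
import Pool.Agent.H66.NB7

set_option autoImplicit false
open scoped Classical
open Pool Pool.MP_d250d1_co

namespace Pool.Agent.S11620

/-- The negation of the preceding statement: For all real ρ and ε>0 there is N such that every connected simple graph with min degree ≥2, at least N vertices and non-backtracking spectral radius ρ has at least two eigenvalues (with multiplicity) of modulus ≥ √ρ−ε. -/
theorem result :
    ¬ (∀ ρ : ℝ, ∀ ε : ℝ, 0 < ε → ∃ N : ℕ,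
      ∀ (V : Type) [Fintype V] (G : SimpleGraph V),
        G.Connected →
        (∀ v : V, 2 ≤ G.degree v) →
        N ≤ Fintype.card V →
        ∀ s : Multiset ℂ,
          s = (Matrix.charpoly (Matrix.of (fun d e : G.Dart =>
                if d.snd = e.fst ∧ e.snd ≠ d.fst then (1 : ℂ) else 0))).roots →
          ((∃ z ∈ s, ‖z‖ = ρ) ∧ (∀ z ∈ s, ‖z‖ ≤ ρ)) →
          2 ≤ (s.filter (fun z : ℂ => Real.sqrt ρ - ε ≤ ‖z‖)).card) := by
  intro h
  have hsq : (7 / 5 : ℝ) < Real.sqrt 2 := by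
    apply Real.lt_sqrt_of_sq_lt
    norm_num
  obtain ⟨N, hN⟩ := h 2 (Real.sqrt 2 - 7 / 5) (by linarith)
  obtain ⟨f1, f2, f3⟩ := Pool.Agent.H66.NB.family N
  have key := hN (Pool.Agent.H66.NB.WT (Pool.Agent.H66.NB.hubG N) Pool.Agent.H66.NB.ths)
    (Pool.Agent.H66.NB.WG (Pool.Agent.H66.NB.hubG N) Pool.Agent.H66.NB.ths)
    (Pool.Agent.H66.NB.WG_connected (by norm_num) (Pool.Agent.H66.NB.ok_hub N))
    (fun v => Pool.Agent.H66.NB.WG_deg (by norm_num) (Pool.Agent.H66.NB.ok_hub N)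
      (Pool.Agent.H66.NB.root_hub N) v)
    (Pool.Agent.H66.NB.card_WT N)
    _ rfl ⟨⟨2, f1, by simp⟩, f2⟩
  have h5 : Real.sqrt 2 - (Real.sqrt 2 - 7 / 5) = 7 / 5 := by ring
  rw [h5] at key
  exact absurd (le_trans key f3) (by norm_num)

end Pool.Agent.S11620
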