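import Pool.Statements.S12170
import Pool.Agent.H67.QTFinal

set_option autoImplicit false
open Pool Pool.MP_e8d946_co

namespace Pool.Agent.S12170

/-- The negation of the preceding statement: For every l≥1 and nonnegative integers b with b_2≥…≥b_l, every coefficient of q^a t^c in the coefficient of z^(-b) in the geometric-series expansion of Negut's product Φ_l is nonnegative. -/
theorem result :
    ¬ (∀ l : ℕ, 1 ≤ l → ∀ b : Fin l → ℕ, (∀ i j : Fin l, 1 ≤ i.val → i ≤ j → b j ≤ b i) →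
  ∀ (Q T : MvPowerSeries (Fin 2 ⊕ (Fin l ⊕ (Fin l × Fin l))) ℤ)
    (Z : Fin l → MvPowerSeries (Fin 2 ⊕ (Fin l ⊕ (Fin l × Fin l))) ℤ)
    (U : Fin l → Fin l → MvPowerSeries (Fin 2 ⊕ (Fin l ⊕ (Fin l × Fin l))) ℤ),
    Q = MvPowerSeries.X (Sum.inl 0) → T = MvPowerSeries.X (Sum.inl 1) →
    (∀ i, Z i = MvPowerSeries.X (Sum.inr (Sum.inl i))) →
    (∀ i j, U i j = MvPowerSeries.X (Sum.inr (Sum.inr (i, j)))) →
    ∀ a c : ℕ, (0 : ℤ) ≤ ∑ᶠ (α : (Fin 2 ⊕ (Fin l ⊕ (Fin l × Fin l))) →₀ ℕ)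
      (_ : α (Sum.inl 0) = a ∧ α (Sum.inl 1) = c ∧ ∀ r : Fin l,
         (∑ j : Fin l, if r < j then (α (Sum.inr (Sum.inr (r, j))) : ℤ) else 0)
         - (∑ i : Fin l, if i < r then (α (Sum.inr (Sum.inr (i, r))) : ℤ) else 0)
         - (α (Sum.inr (Sum.inl r)) : ℤ) = -(b r : ℤ)),
      MvPowerSeries.coeff α
        ((∏ i : Fin l, ∏ j : Fin l,
            (if i < j then (1 - U i j) * (1 - Q * T * U i j)
                * MvPowerSeries.invOfUnit (1 - Q * U i j) 1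
                * MvPowerSeries.invOfUnit (1 - T * U i j) 1 else 1) *
            (if i.val + 1 = j.val then MvPowerSeries.invOfUnit (1 - Q * T * U i j) 1 else 1)) *
          ∏ i : Fin l, MvPowerSeries.invOfUnit (1 - Z i) 1)) := by
  intro H
  obtain ⟨a, c, hneg⟩ := Pool.Agent.H67.QTFiber.neg_coeff
  have h := H 6 (by norm_num) ![0, 18, 7, 7, 2, 2] (by decide)
    (Pool.Agent.H67.QTFiber.Qv 6) (Pool.Agent.H67.QTFiber.Tv 6)
    (fun i => Pool.Agent.H67.QTFiber.Zv i) (fun i j => Pool.Agent.H67.QTFiber.Uv i j)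
    rfl rfl (fun _ => rfl) (fun _ _ => rfl) a c
  have e := Pool.Agent.H67.QTFiber.finsum_eq (Pool.Agent.H67.QTFiber.Phi 6)
    Pool.Agent.H67.QTFiber.Gd.Phi a c (Pool.Agent.H67.QTFiber.V 0 18 7 7 2 2)
  have ev : ∀ r : Fin 6, Pool.Agent.H67.QTFiber.V 0 18 7 7 2 2 r =
      -((![0, 18, 7, 7, 2, 2] : Fin 6 → ℕ) r : ℤ) := by
    intro r
    fin_cases r <;> rfl
  simp only [ev] at e
  have h' := h.trans_eq e
  exact absurd hneg (not_lt.mpr h')

end Pool.Agent.S12170
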