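-- Disproof of Q1: a counterexample for d = 3, k = 1, N = 4.
import Pool.Statements.S12408
import Pool.Agent.H68.Steiner
import Pool.Agent.H68.Capsule

set_option autoImplicit false
open Pool Pool.MP_f4f539_co

namespace Pool.Agent.S12408

open MeasureTheory Metric Set Pool.Agent.H68
open scoped RealInnerProductSpace ENNReal NNReal Real

theorem cube_coef (u0 u1 u2 u3 : ℝ)
    (h : ∀ ε : ℝ, 0 < ε → 0 ≤ u0 + u1 * ε + u2 * ε ^ 2 + u3 * ε ^ 3) : 0 ≤ u3 := by
  by_contra hc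
  push Not at hc
  set S := |u0| + |u1| + |u2| with hS
  have hS0 : 0 ≤ S := by positivity
  set e : ℝ := 1 + S / (-u3) with he
  have hq : 0 ≤ S / (-u3) := div_nonneg hS0 (by linarith)
  have he1 : 1 ≤ e := by linarith
  have h1 := h e (by linarith)
  have hee : e ≤ e ^ 2 := by nlinarith
  have hee1 : 1 ≤ e ^ 2 := by nlinarith
  have b0 : u0 ≤ |u0| * e ^ 2 := by
    have := le_abs_self u0
    have h2 : |u0| * 1 ≤ |u0| * e ^ 2 := mul_le_mul_of_nonneg_left hee1 (abs_nonneg _)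
    linarith
  have b1 : u1 * e ≤ |u1| * e ^ 2 := by
    have h2 : u1 * e ≤ |u1| * e := mul_le_mul_of_nonneg_right (le_abs_self u1) (by linarith)
    have h3 : |u1| * e ≤ |u1| * e ^ 2 := mul_le_mul_of_nonneg_left hee (abs_nonneg _)
    linarith
  have b2 : u2 * e ^ 2 ≤ |u2| * e ^ 2 := mul_le_mul_of_nonneg_right (le_abs_self u2) (by positivity)
  have b3 : u3 * e = u3 - S := by
    rw [he]
    have : u3 ≠ 0 := by linarith
    field_simp
    ring
  have b4 : u3 * e ^ 3 = (u3 - S) * e ^ 2 := by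
    rw [← b3]; ring
  have : u0 + u1 * e + u2 * e ^ 2 + u3 * e ^ 3 ≤ u3 * e ^ 2 := by
    rw [b4]
    have : S * e ^ 2 = |u0| * e ^ 2 + |u1| * e ^ 2 + |u2| * e ^ 2 := by rw [hS]; ring
    linarith
  have : u3 * e ^ 2 < 0 := mul_neg_of_neg_of_pos hc (by positivity)
  linarith

theorem sq_coef (u0 u1 u2 : ℝ)
    (h : ∀ ε : ℝ, 0 < ε → 0 ≤ u0 + u1 * ε + u2 * ε ^ 2) : 0 ≤ u2 := by
  apply cube_coef 0 u0 u1 u2
  intro e he
  have := mul_nonneg he.le (h e he)
  have e1 : e * (u0 + u1 * e + u2 * e ^ 2) = 0 + u0 * e + u1 * e ^ 2 + u2 * e ^ 3 := by ring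
  linarith

/-- ball polyhedron -/
def bp (p : Fin 4 → E3) (r : ℝ) : Set E3 := ⋂ i, closedBall (p i) r

theorem bp_compact (p : Fin 4 → E3) (r : ℝ) : IsCompact (bp p r) := by
  apply IsCompact.of_isClosed_subset (isCompact_closedBall (p 0) r)
  · exact isClosed_iInter fun i => isClosed_closedBall
  · exact iInter_subset _ 0

theorem bp_convex (p : Fin 4 → E3) (r : ℝ) : Convex ℝ (bp p r) :=
  convex_iInter fun i => convex_closedBall _ _

/-- upper estimate of the leading coefficient -/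
theorem vol_upper (p : Fin 4 → E3) (r : ℝ) (hr : 0 < r) (ε : ℝ) (hε : 0 < ε) :
    (volume (cthickening ε (bp p r))).toReal ≤ 4 * π / 3 * (ε + r) ^ 3 := by
  have hsub : cthickening ε (bp p r) ⊆ closedBall (p 0) (ε + r) := by
    rw [(bp_compact p r).cthickening_eq_biUnion_closedBall hε.le]
    intro x hx
    simp only [mem_iUnion, mem_closedBall] at hx
    obtain ⟨y, hy, hxy⟩ := hx
    have hy0 : y ∈ closedBall (p 0) r := mem_iInter.1 hy 0
    rw [mem_closedBall] at *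
    calc dist x (p 0) ≤ dist x y + dist y (p 0) := dist_triangle _ _ _
      _ ≤ ε + r := add_le_add hxy hy0
  have := ENNReal.toReal_mono (measure_closedBall_lt_top (μ := volume)).ne (measure_mono (μ := volume) hsub)
  refine this.trans (le_of_eq ?_)
  rw [EuclideanSpace.volume_closedBall_fin_three, ENNReal.toReal_mul, ENNReal.toReal_pow,
    ENNReal.toReal_ofReal (by positivity), ENNReal.toReal_ofReal (by positivity)]
  ring

theorem cth_finite (p : Fin 4 → E3) (r : ℝ) (ε : ℝ) : volume (cthickening ε (bp p r)) ≠ ⊤ :=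
  ((bp_compact p r).cthickening).measure_lt_top.ne

/-- lower estimate -/
theorem vol_lower (p : Fin 4 → E3) (r h : ℝ) (hh : 0 ≤ h)
    (hseg : ∀ z ∈ Icc (-h) h, ez z ∈ bp p r) (ε : ℝ) (hε : 0 < ε) :
    4 * π / 3 * ε ^ 3 + 2 * π * h * ε ^ 2 ≤ (volume (cthickening ε (bp p r))).toReal := by
  have hsub : capsule h ε ⊆ cthickening ε (bp p r) := by
    rintro x ⟨z, hz, hx⟩
    exact mem_cthickening_of_dist_le x (ez z) ε _ (hseg z hz) hx
  have := ENNReal.toReal_mono (cth_finite p r ε) (measure_mono (μ := volume) hsub)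
  rwa [capsule_volume h ε hh hε.le, ENNReal.toReal_ofReal (by positivity)] at this

/-- upper estimate by a capsule -/
theorem vol_upper_capsule (p : Fin 4 → E3) (r h η : ℝ) (hh : 0 ≤ h) (hη : 0 ≤ η)
    (hsub : bp p r ⊆ capsule h η) (ε : ℝ) (hε : 0 < ε) :
    (volume (cthickening ε (bp p r))).toReal
      ≤ 4 * π / 3 * (ε + η) ^ 3 + 2 * π * h * (ε + η) ^ 2 := by
  have hsub2 : cthickening ε (bp p r) ⊆ capsule h (ε + η) := by
    rw [(bp_compact p r).cthickening_eq_biUnion_closedBall hε.le]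
    intro x hx
    simp only [mem_iUnion, mem_closedBall] at hx
    obtain ⟨y, hy, hxy⟩ := hx
    obtain ⟨z, hz, hyz⟩ := hsub hy
    exact ⟨z, hz, (dist_triangle _ _ _).trans (add_le_add hxy hyz)⟩
  have hv := capsule_volume h (ε + η) hh (by positivity)
  have hfin : volume (capsule h (ε + η)) ≠ ⊤ := by rw [hv]; exact ENNReal.ofReal_ne_top
  have := ENNReal.toReal_mono hfin (measure_mono (μ := volume) hsub2)
  rwa [hv, ENNReal.toReal_ofReal (by positivity)] at this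

/-- the first configuration: a planar square -/
noncomputable def pp (a : ℝ) : Fin 4 → E3 := ![!₂[a, 0, 0], !₂[-a, 0, 0], !₂[0, a, 0], !₂[0, -a, 0]]

/-- the second configuration: a twisted square -/
noncomputable def qq (b : ℝ) : Fin 4 → E3 :=
  ![!₂[b, 0, 1], !₂[-b, 0, 1], !₂[0, b, -1], !₂[0, -b, -1]]

theorem contraction (a b : ℝ) (ha : 0 ≤ a) (hb : 0 ≤ b) (hab : b ^ 2 + 2 = a ^ 2) (i j : Fin 4) :
    dist (qq b i) (qq b j) ≤ dist (pp a i) (pp a j) := by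
  rw [EuclideanSpace.dist_eq, EuclideanSpace.dist_eq]
  apply Real.sqrt_le_sqrt
  fin_cases i <;> fin_cases j <;>
    simp [qq, pp, Fin.sum_univ_three, Real.dist_eq, sq_abs] <;> nlinarith

theorem seg_in (a r h : ℝ) (hr : 0 ≤ r) (hh : a ^ 2 + h ^ 2 = r ^ 2) (z : ℝ) (hz : z ∈ Icc (-h) h) :
    ez z ∈ bp (pp a) r := by
  have hz2 : z ^ 2 ≤ h ^ 2 := by
    apply sq_le_sq'
    · exact hz.1
    · exact hz.2
  simp only [bp, mem_iInter, mem_closedBall]
  intro i
  rw [EuclideanSpace.dist_eq, Real.sqrt_le_left hr]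
  fin_cases i <;> simp [ez, pp, Fin.sum_univ_three, Real.dist_eq, sq_abs] <;> nlinarith

theorem zero_in (b r : ℝ) (hr : 0 ≤ r) (hh : b ^ 2 + 1 ≤ r ^ 2) (z : ℝ)
    (hz : z ∈ Icc (-(0 : ℝ)) 0) : ez z ∈ bp (qq b) r := by
  have hz2 : z = 0 := le_antisymm hz.2 (by simpa using hz.1)
  subst hz2
  simp only [bp, mem_iInter, mem_closedBall]
  intro i
  rw [EuclideanSpace.dist_eq, Real.sqrt_le_left hr]
  fin_cases i <;> simp [ez, qq, Fin.sum_univ_three, Real.dist_eq, sq_abs] <;> nlinarith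

theorem real_aux (X Y Z : ℝ)
    (h0 : (X - 9999 / 100) ^ 2 + Y ^ 2 + (Z - 1) ^ 2 ≤ (10001 / 100) ^ 2)
    (h1 : (X + 9999 / 100) ^ 2 + Y ^ 2 + (Z - 1) ^ 2 ≤ (10001 / 100) ^ 2)
    (h2 : X ^ 2 + (Y - 9999 / 100) ^ 2 + (Z + 1) ^ 2 ≤ (10001 / 100) ^ 2)
    (h3 : X ^ 2 + (Y + 9999 / 100) ^ 2 + (Z + 1) ^ 2 ≤ (10001 / 100) ^ 2) :
    -1 ≤ Z ∧ Z ≤ 1 ∧ X ^ 2 + Y ^ 2 ≤ (3 / 100) ^ 2 := by
  have sX := sq_nonneg X
  have sY := sq_nonneg Y
  have s1 := sq_nonneg (Z - 1)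
  have s2 := sq_nonneg (Z + 1)
  have hz1 : (Z - 1) ^ 2 ≤ 2 ^ 2 := by linarith
  have hz2 : (Z + 1) ^ 2 ≤ 2 ^ 2 := by linarith
  have hz3 : -1 ≤ Z := by
    have := (abs_le_of_sq_le_sq' hz1 (by norm_num)).1
    linarith
  have hz4 : Z ≤ 1 := by
    have := (abs_le_of_sq_le_sq' hz2 (by norm_num)).2
    linarith
  have c0 : X ≤ 21 / 1000 := by linarith
  have c1 : -(21 / 1000) ≤ X := by linarith
  have c2 : Y ≤ 21 / 1000 := by linarith
  have c3 : -(21 / 1000) ≤ Y := by linarith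
  have d0 : X ^ 2 ≤ (21 / 1000) ^ 2 := sq_le_sq' c1 c0
  have d1 : Y ^ 2 ≤ (21 / 1000) ^ 2 := sq_le_sq' c3 c2
  refine ⟨hz3, hz4, ?_⟩
  norm_num at d0 d1 ⊢
  linarith

theorem q_sub : bp (qq (9999 / 100)) (10001 / 100) ⊆ capsule 1 (3 / 100) := by
  intro x hx
  simp only [bp, mem_iInter, mem_closedBall] at hx
  have h0 := hx 0
  have h1 := hx 1
  have h2 := hx 2
  have h3 := hx 3
  rw [EuclideanSpace.dist_eq, Real.sqrt_le_left (by norm_num)] at h0 h1 h2 h3
  simp only [qq, Fin.sum_univ_three, Real.dist_eq, sq_abs, Matrix.cons_val] at h0 h1 h2 h3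
  obtain ⟨hz3, hz4, h5⟩ := real_aux (x 0) (x 1) (x 2) (by linarith) (by linarith) (by linarith)
    (by linarith)
  refine ⟨x 2, ⟨hz3, hz4⟩, ?_⟩
  rw [dist_ez_le x _ _ (by norm_num), sub_self]
  linarith

/-- The negation of the preceding statement: Points q contracting points p in d-space, for radius r>0 and 1≤k≤d: the ε^(d-k) Steiner coefficient (κ_(d-k)·V_k) of the ball intersection ∩B(p_i,r) is at most that of ∩B(q_i,r). -/
theorem result :
    ¬ (∀ (d k N : ℕ) (r : ℝ), 1 ≤ k → k ≤ d → 1 < N → 0 < r →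
      ∀ p q : Fin N → EuclideanSpace ℝ (Fin d),
        (∀ i j, dist (q i) (q j) ≤ dist (p i) (p j)) →
        ∀ a b : ℕ → ℝ,
          (∀ ε : ℝ, 0 < ε →
            (volume (Metric.cthickening ε (⋂ i, Metric.closedBall (p i) r))).toReal
              = ∑ j ∈ Finset.range (d + 1), a j * ε ^ j) →
          (∀ ε : ℝ, 0 < ε →
            (volume (Metric.cthickening ε (⋂ i, Metric.closedBall (q i) r))).toReal
              = ∑ j ∈ Finset.range (d + 1), b j * ε ^ j) →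
          a (d - k) ≤ b (d - k)) := by
  intro H
  set r : ℝ := 10001 / 100 with hr
  set b : ℝ := 9999 / 100 with hb
  set a : ℝ := Real.sqrt (r ^ 2 - 2) with ha
  have hr0 : 0 < r := by rw [hr]; norm_num
  have hb0 : 0 ≤ b := by rw [hb]; norm_num
  have ha0 : 0 ≤ a := Real.sqrt_nonneg _
  have ha2 : a ^ 2 = r ^ 2 - 2 := Real.sq_sqrt (by rw [hr]; norm_num)
  have hab : b ^ 2 + 2 = a ^ 2 := by rw [ha2, hb, hr]; norm_num
  have hs2 : a ^ 2 + (Real.sqrt 2) ^ 2 = r ^ 2 := by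
    rw [ha2, Real.sq_sqrt (by norm_num)]; ring
  have hseg : ∀ z ∈ Icc (-(Real.sqrt 2)) (Real.sqrt 2), ez z ∈ bp (pp a) r :=
    fun z hz => seg_in a r _ hr0.le hs2 z hz
  have hzero : ∀ z ∈ Icc (-(0 : ℝ)) 0, ez z ∈ bp (qq b) r :=
    fun z hz => zero_in b r hr0.le (by rw [hb, hr]; norm_num) z hz
  have hs0 : (0 : ℝ) ≤ Real.sqrt 2 := Real.sqrt_nonneg _
  have hneP : (bp (pp a) r).Nonempty := ⟨ez 0, hseg 0 ⟨by linarith, hs0⟩⟩
  have hneQ : (bp (qq b) r).Nonempty := ⟨ez 0, hzero 0 ⟨by simp, le_refl _⟩⟩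
  obtain ⟨A, hA⟩ := steiner_exists (μ := (volume : Measure E3)) (bp_compact (pp a) r) hneP
    (bp_convex (pp a) r)
  obtain ⟨B, hB⟩ := steiner_exists (μ := (volume : Measure E3)) (bp_compact (qq b) r) hneQ
    (bp_convex (qq b) r)
  have hfr : Module.finrank ℝ E3 = 3 := by simp
  rw [hfr] at hA hB
  have key := H 3 1 4 r (le_refl _) (by norm_num) (by norm_num) hr0 (pp a) (qq b)
    (contraction a b ha0 hb0 hab) A B hA hB
  have key2 : A 2 ≤ B 2 := key
  have hpi := Real.pi_pos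
  -- coefficients of `A`
  have eA : ∀ ε : ℝ, 0 < ε → (volume (cthickening ε (bp (pp a) r))).toReal
      = A 0 + A 1 * ε + A 2 * ε ^ 2 + A 3 * ε ^ 3 := by
    intro ε hε
    rw [hA ε hε]
    simp [Finset.sum_range_succ]
  have eB : ∀ ε : ℝ, 0 < ε → (volume (cthickening ε (bp (qq b) r))).toReal
      = B 0 + B 1 * ε + B 2 * ε ^ 2 + B 3 * ε ^ 3 := by
    intro ε hε
    rw [hB ε hε]
    simp [Finset.sum_range_succ]
  have A3ge : 0 ≤ A 3 - 4 * π / 3 := by
    apply cube_coef (A 0) (A 1) (A 2 - 2 * π * Real.sqrt 2)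
    intro ε hε
    have := vol_lower (pp a) r _ hs0 hseg ε hε
    rw [eA ε hε] at this
    linarith
  have A3le : 0 ≤ 4 * π / 3 - A 3 := by
    apply cube_coef (4 * π / 3 * r ^ 3 - A 0) (4 * π / 3 * (3 * r ^ 2) - A 1)
      (4 * π / 3 * (3 * r) - A 2)
    intro ε hε
    have := vol_upper (pp a) r hr0 ε hε
    rw [eA ε hε] at this
    nlinarith [this]
  have B3ge : 0 ≤ B 3 - 4 * π / 3 := by
    apply cube_coef (B 0) (B 1) (B 2)
    intro ε hε
    have := vol_lower (qq b) r 0 (le_refl _) hzero ε hε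
    rw [eB ε hε] at this
    linarith
  have A3 : A 3 = 4 * π / 3 := by linarith
  have A2 : 0 ≤ A 2 - 2 * π * Real.sqrt 2 := by
    apply sq_coef (A 0) (A 1)
    intro ε hε
    have := vol_lower (pp a) r _ hs0 hseg ε hε
    rw [eA ε hε, A3] at this
    linarith
  have B2 : 0 ≤ (4 * π / 3 * (3 * (3 / 100)) + 2 * π) - B 2 := by
    apply sq_coef (4 * π / 3 * (3 / 100) ^ 3 + 2 * π * (3 / 100) ^ 2 - B 0)
      (4 * π / 3 * (3 * (3 / 100) ^ 2) + 2 * π * (2 * (3 / 100)) - B 1)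
    intro ε hε
    have := vol_upper_capsule (qq b) r 1 (3 / 100) (by norm_num) (by norm_num) q_sub ε hε
    rw [eB ε hε] at this
    have h3 : 0 ≤ (B 3 - 4 * π / 3) * ε ^ 3 := mul_nonneg B3ge (by positivity)
    nlinarith [this, h3]
  have hsq : (1.4 : ℝ) < Real.sqrt 2 := by
    apply Real.lt_sqrt_of_sq_lt
    norm_num
  nlinarith

end Pool.Agent.S12408
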