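import Pool.Statements.S13247
import Pool.Agent.H73.CgR

set_option autoImplicit false
open MeasureTheory
open Pool Pool.MP_5ceb8c_gt

namespace Pool.Agent.S13247

/-- For every lattice Γ of isometries of hyperbolic 3-space (discrete, finite covolume), there are normal subgroups N_i of Γ whose critical exponents satisfy δ(N_i)/δ(Γ) → 1/2. -/
theorem result :
    ∀ (B : EuclideanSpace ℝ (Fin 3) → EuclideanSpace ℝ (Fin 3) → ℝ),
      (∀ x y, B x y = Real.sqrt (1 + ‖x‖ ^ 2) * Real.sqrt (1 + ‖y‖ ^ 2) - inner ℝ x y) →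
    ∀ (μ : Measure (EuclideanSpace ℝ (Fin 3))),
      μ = volume.withDensity (fun v => ENNReal.ofReal (1 / Real.sqrt (1 + ‖v‖ ^ 2))) →
    ∀ (δ : Set (Equiv.Perm (EuclideanSpace ℝ (Fin 3))) → ℝ),
      (∀ S, δ S = Filter.limsup
        (fun R : ℝ => Real.log (Nat.card {g : Equiv.Perm (EuclideanSpace ℝ (Fin 3)) //
            g ∈ S ∧ B 0 (g 0) ≤ Real.cosh R} : ℝ) / R) Filter.atTop) →
    ∀ (Γ : Subgroup (Equiv.Perm (EuclideanSpace ℝ (Fin 3)))),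
      (∀ g ∈ Γ, ∀ x y, B (g x) (g y) = B x y) →
      (∀ R : ℝ, Set.Finite {g : Equiv.Perm (EuclideanSpace ℝ (Fin 3)) | g ∈ Γ ∧ B 0 (g 0) ≤ R}) →
      (∃ F : Set (EuclideanSpace ℝ (Fin 3)), MeasurableSet F ∧ μ F ≠ ⊤ ∧
          ∀ x, ∃ g ∈ Γ, g x ∈ F) →
      ∃ N : ℕ → Subgroup (Equiv.Perm (EuclideanSpace ℝ (Fin 3))),
        (∀ i, N i ≤ Γ ∧ ∀ g ∈ Γ, ∀ n ∈ N i, g * n * g⁻¹ ∈ N i) ∧
        Filter.Tendsto (fun i => δ (N i : Set (Equiv.Perm (EuclideanSpace ℝ (Fin 3)))) /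
            δ (Γ : Set (Equiv.Perm (EuclideanSpace ℝ (Fin 3)))))
          Filter.atTop (nhds (1 / 2)) := by
  intro B hB μ hμ δ hδ Γ hΓ hfin hF
  have hB' : B = Pool.Agent.H73.Cg.Hyp.B := by
    funext x y
    rw [hB]
    rfl
  subst hB'
  have hμ' : μ = Pool.Agent.H73.Cg.Hyp.vol := hμ
  subst hμ'
  have hδ' : δ = Pool.Agent.H73.Cg.Hyp.gr := by
    funext S
    rw [hδ]
    rfl
  subst hδ'
  obtain ⟨F, hF1, hF2, hF3⟩ := hF
  exact Pool.Agent.H73.Cg.Hyp.main (Γ := Γ) hΓ hfin hF1 hF2 hF3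

end Pool.Agent.S13247
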