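import Pool.Statements.S13502
import Pool.Agent.H74.Conds
import Pool.Agent.H74.NotFT
import Pool.Agent.H74.CWX

set_option autoImplicit false
open Pool Pool.MP_88597d_gt

namespace Pool.Agent.S13502

/-- The negation of the preceding statement: For a connected CW complex X with a surjection of π₁ onto ℤ with finitely presented kernel G, and a homotopy equivalence X → X_k (the k-fold cover, k>1) carrying G to G: if X is homotopy equivalent to a finite-type CW complex, so is the infinite cyclic cover. -/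
theorem result :
    ¬ (∀ (X : Type) [TopologicalSpace X] [T2Space X] [Topology.CWComplex (Set.univ : Set X)]
    [ConnectedSpace X] (x₀ : X) (φ : FundamentalGroup X x₀ →* Multiplicative ℤ),
    Function.Surjective φ →
    (∃ (n : ℕ) (R : Finset (FreeGroup (Fin n))),
      Nonempty (↥φ.ker ≃* PresentedGroup (R : Set (FreeGroup (Fin n))))) →
    ∀ (k : ℕ), 1 < k →
    ∀ (Xk : Type) [TopologicalSpace Xk] [ConnectedSpace Xk] (pk : Xk → X) (h : C(X, Xk)),
      IsCoveringMap pk →
      (∀ γ : Path x₀ x₀, (∃ γ' : Path (h x₀) (h x₀), ∀ s, pk (γ' s) = γ s) ↔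
          (k : ℤ) ∣ Multiplicative.toAdd (φ (FundamentalGroup.fromPath (Quotient.mk _ γ)))) →
      (∃ g : C(Xk, X), (g.comp h).Homotopic (ContinuousMap.id X) ∧
          (h.comp g).Homotopic (ContinuousMap.id Xk)) →
      (∀ δ : Path (h x₀) (h x₀),
        (∃ γ : Path x₀ x₀, φ (FundamentalGroup.fromPath (Quotient.mk _ γ)) = 1 ∧
            ∀ s, pk (δ s) = γ s) ↔
        (∃ γ : Path x₀ x₀, φ (FundamentalGroup.fromPath (Quotient.mk _ γ)) = 1 ∧
            (γ.map h.continuous).Homotopic δ)) →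
      (∃ (Y : Type) (_ : TopologicalSpace Y) (_ : T2Space Y)
          (_ : Topology.CWComplex (Set.univ : Set Y)),
        Topology.RelCWComplex.FiniteType (Set.univ : Set Y) ∧
          Nonempty (ContinuousMap.HomotopyEquiv X Y)) →
      ∀ (Xinf : Type) [TopologicalSpace Xinf] [ConnectedSpace Xinf] (pinf : Xinf → X)
        (xinf : Xinf),
        IsCoveringMap pinf →
        (∀ γ : Path x₀ x₀, (∃ γ' : Path xinf xinf, ∀ s, pinf (γ' s) = γ s) ↔
          φ (FundamentalGroup.fromPath (Quotient.mk _ γ)) = 1) →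
        ∃ (Y : Type) (_ : TopologicalSpace Y) (_ : T2Space Y)
          (_ : Topology.CWComplex (Set.univ : Set Y)),
          Topology.RelCWComplex.FiniteType (Set.univ : Set Y) ∧
            Nonempty (ContinuousMap.HomotopyEquiv Xinf Y)) := by
  intro H
  obtain ⟨F⟩ := Pool.H74.GS.exists_FCW
  obtain ⟨cw, hfin⟩ := F.exists_cwComplex
  obtain ⟨h, hh, hD⟩ := Pool.H74.exists_strict
  have hx := Pool.H74.GS.h_xpt h hD
  obtain ⟨Y, _, _, _, hft, ⟨e⟩⟩ := @H Pool.H74.GS.one.X inferInstance inferInstance cw inferInstance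
    (Pool.H74.GS.one.xpt ()) Pool.H74.GS.phi Pool.H74.GS.phi_surjective Pool.H74.GS.phi_ker_fp 2
    (by norm_num) Pool.H74.GS.two.X inferInstance inferInstance Pool.H74.GS.two.pr h
    (Pool.H74.GS.pr_cov Pool.H74.GS.two_bij) (by rw [hx]; exact Pool.H74.GS.lift_two) hh
    (Pool.H74.GS.cond_G h hD hh)
    ⟨Pool.H74.GS.one.X, inferInstance, inferInstance, cw, hfin.toFiniteType,
      ⟨ContinuousMap.HomotopyEquiv.refl _⟩⟩
    Pool.H74.GS.int.X inferInstance inferInstance Pool.H74.GS.int.pr (Pool.H74.GS.int.xpt 0)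
    (Pool.H74.GS.pr_cov Pool.H74.GS.int_bij) Pool.H74.GS.lift_int
  exact Pool.H74.GS.not_finiteType_of (Pool.H74.GS.isCoveringMap_fX Pool.H74.shGS_bij
    Pool.H74.GS.int_bij Pool.H74.shJ Pool.H74.shJ_hom) Y e

end Pool.Agent.S13502
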