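import Pool.Statements.S13902
import Pool.Agent.H88.LG.M11

set_option autoImplicit false
open scoped Manifold Topology
open Pool Pool.MP_c4fc2c_gt

namespace Pool.Agent.S13902

/-- The negation of the preceding statement: There is a compact Hausdorff smooth 9-manifold with a smooth action of SL(3,R) all of whose stabilizers are discrete, such that some orbit is not a closed subset. -/
theorem result :
    ¬ (∃ (M : Type) (_ : TopologicalSpace M) (_ : ChartedSpace (EuclideanSpace ℝ (Fin 9)) M),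
      IsManifold (𝓡 9) ((⊤ : ℕ∞) : WithTop ℕ∞) M ∧ T2Space M ∧ CompactSpace M ∧
      ∃ act : Matrix (Fin 3) (Fin 3) ℝ → M → M,
        (∀ x : M, act 1 x = x) ∧
        (∀ (A B : Matrix (Fin 3) (Fin 3) ℝ) (x : M), A.det = 1 → B.det = 1 →
            act (A * B) x = act A (act B x)) ∧
        ContMDiffOn ((𝓘(ℝ, Fin 3 → Fin 3 → ℝ)).prod (𝓡 9)) (𝓡 9) ((⊤ : ℕ∞) : WithTop ℕ∞)
          (fun p : (Fin 3 → Fin 3 → ℝ) × M => act (Matrix.of p.1) p.2)
          {p : (Fin 3 → Fin 3 → ℝ) × M | 0 < (Matrix.of p.1).det} ∧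
        (∀ x : M, ∃ U ∈ 𝓝 (1 : Matrix (Fin 3) (Fin 3) ℝ),
            ∀ A ∈ U, A.det = 1 → act A x = x → A = 1) ∧
        ∃ x : M, ¬ IsClosed {y : M | ∃ A : Matrix (Fin 3) (Fin 3) ℝ, A.det = 1 ∧ act A x = y}) := by
  exact Pool.Agent.H88.LF.main

end Pool.Agent.S13902
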