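import Pool.Statements.S14043
import Pool.Agent.H99.SCM.M10

set_option autoImplicit false
open Matrix
open Pool Pool.MP_d93d9b_gt

namespace Pool.Agent.S14043

/-- Every embedded C² disk in R^3 with constant mean curvature, bounded by a round circle, and star-shaped (each ray from some point meets it at most once) lies in a plane or in a round sphere, i.e. is a flat disk or spherical cap. -/
theorem result :
    ∀ (X Xu Xv Xuu Xuv Xvv nrm : EuclideanSpace ℝ (Fin 2) → (Fin 3 → ℝ)),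
      ContDiff ℝ 2 X →
      Xu = (fun p => fderiv ℝ X p (EuclideanSpace.single 0 1)) →
      Xv = (fun p => fderiv ℝ X p (EuclideanSpace.single 1 1)) →
      Xuu = (fun p => fderiv ℝ Xu p (EuclideanSpace.single 0 1)) →
      Xuv = (fun p => fderiv ℝ Xu p (EuclideanSpace.single 1 1)) →
      Xvv = (fun p => fderiv ℝ Xv p (EuclideanSpace.single 1 1)) →
      nrm = (fun p => crossProduct (Xu p) (Xv p)) →
      (∀ p ∈ Metric.closedBall (0 : EuclideanSpace ℝ (Fin 2)) 1, nrm p ≠ 0) →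
      Set.InjOn X (Metric.closedBall (0 : EuclideanSpace ℝ (Fin 2)) 1) →
      (∃ c ν : Fin 3 → ℝ, ∃ r : ℝ, 0 < r ∧ ν ≠ 0 ∧
        X '' Metric.sphere (0 : EuclideanSpace ℝ (Fin 2)) 1 =
          {x | dotProduct (x - c) ν = 0 ∧ dotProduct (x - c) (x - c) = r ^ 2}) →
      (∃ q : Fin 3 → ℝ, ∀ v : Fin 3 → ℝ, v ≠ 0 → ∀ s t : ℝ, 0 ≤ s → 0 ≤ t →
        q + s • v ∈ X '' Metric.closedBall (0 : EuclideanSpace ℝ (Fin 2)) 1 →
        q + t • v ∈ X '' Metric.closedBall (0 : EuclideanSpace ℝ (Fin 2)) 1 → s = t) →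
      (∃ H : ℝ, ∀ p : EuclideanSpace ℝ (Fin 2), ‖p‖ < 1 →
        dotProduct (Xu p) (Xu p) * dotProduct (Xvv p) (nrm p)
          - 2 * dotProduct (Xu p) (Xv p) * dotProduct (Xuv p) (nrm p)
          + dotProduct (Xv p) (Xv p) * dotProduct (Xuu p) (nrm p)
          = 2 * H * dotProduct (nrm p) (nrm p) * Real.sqrt (dotProduct (nrm p) (nrm p))) →
      ((∃ c ν : Fin 3 → ℝ, ν ≠ 0 ∧
          ∀ p ∈ Metric.closedBall (0 : EuclideanSpace ℝ (Fin 2)) 1,
            dotProduct (X p - c) ν = 0) ∨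
       (∃ a : Fin 3 → ℝ, ∃ R : ℝ, 0 < R ∧
          ∀ p ∈ Metric.closedBall (0 : EuclideanSpace ℝ (Fin 2)) 1,
            dotProduct (X p - a) (X p - a) = R ^ 2)) := by
  intro X Xu Xv Xuu Xuv Xvv nrm hX hXu hXv hXuu hXuv hXvv hnrm himm hinj hcirc hstar hH
  obtain ⟨c, ν, r, hr, hν, hcirc⟩ := hcirc
  obtain ⟨q, hstar⟩ := hstar
  obtain ⟨H, hH⟩ := hH
  subst hXu hXv hXuu hXuv hXvv hnrm
  -- the surface with values in the Euclidean space
  have hraw : H99.SC.Raw (fun u => (WithLp.toLp 2 (X u) : H99.SC.V3)) H := by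
    refine H99.SC.cnv_raw hX (fun p hp => himm p ?_) hinj ?_
    · simpa using hp
    · intro p hp
      exact hH p hp
  set Y : H99.SC.V2 → H99.SC.V3 := fun u => (WithLp.toLp 2 (X u) : H99.SC.V3) with hY
  set c' : H99.SC.V3 := WithLp.toLp 2 c with hc'
  set ν' : H99.SC.V3 := WithLp.toLp 2 ν with hν'
  set q' : H99.SC.V3 := WithLp.toLp 2 q with hq'
  have hν0 : ν' ≠ 0 := by
    intro h
    apply hν
    have := congrArg (WithLp.ofLp) h
    simpa [hν'] using this
  have hνn : 0 < ‖ν'‖ := norm_pos_iff.2 hν0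
  set n : H99.SC.V3 := ‖ν'‖⁻¹ • ν' with hn
  have hn1 : ‖n‖ = 1 := by
    rw [hn, norm_smul, norm_inv, norm_norm, inv_mul_cancel₀ hνn.ne']
  -- the circle
  have hdot : ∀ x : Fin 3 → ℝ, (dotProduct (x - c) ν = 0 ∧ dotProduct (x - c) (x - c) = r ^ 2) ↔
      (inner ℝ ((WithLp.toLp 2 x : H99.SC.V3) - c') n = 0 ∧ ‖(WithLp.toLp 2 x : H99.SC.V3) - c'‖ = r) := by
    intro x
    have h1 : dotProduct (x - c) ν = inner ℝ ((WithLp.toLp 2 x : H99.SC.V3) - c') ν' := by
      rw [H99.SC.cnv_dot, hc', hν', ← WithLp.toLp_sub]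
    have h2 : dotProduct (x - c) (x - c) = ‖(WithLp.toLp 2 x : H99.SC.V3) - c'‖ ^ 2 := by
      rw [H99.SC.cnv_dot, hc', ← WithLp.toLp_sub, real_inner_self_eq_norm_sq]
    rw [h1, h2, hn, inner_smul_right]
    constructor
    · rintro ⟨h3, h4⟩
      refine ⟨by rw [h3, mul_zero], ?_⟩
      exact (sq_eq_sq₀ (norm_nonneg _) hr.le).1 h4
    · rintro ⟨h3, h4⟩
      refine ⟨?_, by rw [h4]⟩
      rcases mul_eq_zero.1 h3 with h5 | h5
      · exact absurd h5 (inv_ne_zero hνn.ne')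
      · exact h5
  have hbd : ∀ y : H99.SC.V3, (∃ u : H99.SC.V2, ‖u‖ = 1 ∧ Y u = y) ↔
      (inner ℝ (y - c') n = 0 ∧ ‖y - c'‖ = r) := by
    intro y
    have hy : y = (WithLp.toLp 2 (WithLp.ofLp y) : H99.SC.V3) := rfl
    rw [hy, ← hdot]
    have h3 : WithLp.ofLp y ∈ X '' Metric.sphere (0 : EuclideanSpace ℝ (Fin 2)) 1 ↔
        (dotProduct (WithLp.ofLp y - c) ν = 0 ∧
          dotProduct (WithLp.ofLp y - c) (WithLp.ofLp y - c) = r ^ 2) := by
      rw [hcirc]; rfl
    rw [← h3]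
    constructor
    · rintro ⟨u, hu, huy⟩
      refine ⟨u, by simpa using hu, ?_⟩
      have := congrArg (WithLp.ofLp) huy
      simpa [hY] using this
    · rintro ⟨u, hu, huy⟩
      refine ⟨u, by simpa using hu, ?_⟩
      rw [hY]
      simp only
      rw [huy]
  by_cases hH0 : H = 0
  · left
    subst hH0
    refine ⟨c, ν, hν, ?_⟩
    intro p hp
    have hpl := H99.SC.raw_plane hraw (ν := n) (c := c') (fun u hu => ((hbd (Y u)).1 ⟨u, hu, rfl⟩).1) p
      (by simpa using hp)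
    have h1 : dotProduct (X p - c) ν = inner ℝ ((WithLp.toLp 2 (X p) : H99.SC.V3) - c') ν' := by
      rw [H99.SC.cnv_dot, hc', hν', ← WithLp.toLp_sub]
    rw [h1]
    have h2 : inner ℝ ((WithLp.toLp 2 (X p) : H99.SC.V3) - c') n = 0 := hpl
    rw [hn, inner_smul_right] at h2
    rcases mul_eq_zero.1 h2 with h5 | h5
    · exact absurd h5 (inv_ne_zero hνn.ne')
    · exact h5
  · right
    have hmain := H99.SC.nrc hraw hH0 hn1 hr hbd (q := q') ?_
    · obtain ⟨a, R, hR, ha⟩ := hmain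
      refine ⟨WithLp.ofLp a, R, hR, ?_⟩
      intro p hp
      have h1 : dotProduct (X p - WithLp.ofLp a) (X p - WithLp.ofLp a)
          = ‖(WithLp.toLp 2 (X p) : H99.SC.V3) - a‖ ^ 2 := by
        rw [H99.SC.cnv_dot, ← real_inner_self_eq_norm_sq]
        rfl
      rw [h1]
      have h2 : ‖(WithLp.toLp 2 (X p) : H99.SC.V3) - a‖ = R := ha p (by simpa using hp)
      rw [h2]
    · intro v hv s t hs ht h1 h2
      refine hstar (WithLp.ofLp v) ?_ s t hs ht ?_ ?_
      · intro h0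
        apply hv
        have : v = (WithLp.toLp 2 (WithLp.ofLp v) : H99.SC.V3) := rfl
        rw [this, h0]
        rfl
      · obtain ⟨u, hu, hu2⟩ := h1
        refine ⟨u, by simpa using hu, ?_⟩
        have := congrArg (WithLp.ofLp) hu2
        simpa [hY, hq'] using this
      · obtain ⟨u, hu, hu2⟩ := h2
        refine ⟨u, by simpa using hu, ?_⟩
        have := congrArg (WithLp.ofLp) hu2
        simpa [hY, hq'] using this


end Pool.Agent.S14043
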