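-- Statement of S14831, proved by diagonalisation; see Pool/Agent/H29/CL.
import Pool.Statements.S14831
import Pool.Agent.H29.CL.M12

set_option autoImplicit false
open Pool Pool.MP_677abc_lc

namespace Pool.Agent.S14831

/-- There are finite alphabets, a homomorphism sending every letter to a nonempty word, and a language generated by a conjunctive grammar (least-solution semantics) whose image under that homomorphism is generated by no conjunctive grammar. -/
theorem result :
    ∃ (m k : ℕ) (h : Fin m → List (Fin k)), (∀ a, h a ≠ []) ∧
      ∃ L : Set (List (Fin m)),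
        (∃ (p : ℕ) (S : Fin p) (R : List (Fin p × List (List (Symbol (Fin m) (Fin p))))),
          (∀ r ∈ R, r.2 ≠ []) ∧
          ∀ w : List (Fin m), w ∈ L ↔
            ∀ X : Fin p → Set (List (Fin m)),
              (∀ r ∈ R, ∀ u : List (Fin m),
                (∀ α ∈ r.2, ∃ ws : List (List (Fin m)), u = ws.flatten ∧
                  List.Forall₂ (fun (s : Symbol (Fin m) (Fin p)) (v : List (Fin m)) =>
                    (∀ t, s = Symbol.terminal t → v = [t]) ∧
                    (∀ B, s = Symbol.nonterminal B → v ∈ X B)) α ws) →
                u ∈ X r.1) →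
              w ∈ X S) ∧
        ¬ (∃ (p : ℕ) (S : Fin p) (R : List (Fin p × List (List (Symbol (Fin k) (Fin p))))),
          (∀ r ∈ R, r.2 ≠ []) ∧
          ∀ w : List (Fin k), (∃ x ∈ L, w = x.flatMap h) ↔
            ∀ X : Fin p → Set (List (Fin k)),
              (∀ r ∈ R, ∀ u : List (Fin k),
                (∀ α ∈ r.2, ∃ ws : List (List (Fin k)), u = ws.flatten ∧
                  List.Forall₂ (fun (s : Symbol (Fin k) (Fin p)) (v : List (Fin k)) =>
                    (∀ t, s = Symbol.terminal t → v = [t]) ∧
                    (∀ B, s = Symbol.nonterminal B → v ∈ X B)) α ws) →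
                u ∈ X r.1) →
              w ∈ X S) := by
  by_contra hcon
  apply Pool.Agent.H29.CJ.not_closed
  intro m k h hh L hL
  by_contra hnot
  exact hcon ⟨m, k, h, hh, L, hL, hnot⟩

end Pool.Agent.S14831
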