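import Pool.Statements.S15001

/-!
The digraph has vertex set `Fin m → α`, with `α` a well-order of type `κ`, and an edge from `s` to
`t` when exactly one coordinate goes down from `s` to `t` while all others go up.  Along a directed
cycle every coordinate must go down at least once, so directed cycles have length at least `m`.
On the other hand, whenever the vertices are coloured by fewer than `κ` colours, there is a colour
which is attained for unboundedly many first coordinates, for each of which it is attained for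
unboundedly many second coordinates, and so on, and such a colour class contains a directed cycle
of length exactly `m`.
-/

set_option autoImplicit false
open Pool Pool.MP_856e04_lc

namespace Pool.Agent.S15001

/-- Iterated quantifier: for unboundedly many `x₁`, for unboundedly many `x₂`, ...,
the colour of `(x₁, x₂, ...)` is `i`. -/
def Freq {β C : Type} [LinearOrder β] : (m : ℕ) → ((Fin m → β) → C) → C → Prop
  | 0, c, i => c (fun x => x.elim0) = i
  | m + 1, c, i => ∀ b : β, ∃ x : β, b < x ∧ Freq m (fun t => c (Fin.cons x t)) i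

theorem exists_freq {β C : Type} [LinearOrder β]
    (h : ∀ b : C → β, ∃ x : β, ∀ i, b i < x) (m : ℕ) :
    ∀ c : (Fin m → β) → C, ∃ i, Freq m c i := by
  induction m with
  | zero => intro c; exact ⟨_, rfl⟩
  | succ m ih =>
    intro c
    choose i hi using fun x : β => ih (fun t => c (Fin.cons x t))
    by_contra hcon
    push Not at hcon
    have hcon' : ∀ j, ∃ b : β, ∀ x, b < x → ¬ Freq m (fun t => c (Fin.cons x t)) j := by
      intro j
      have := hcon j
      simp only [Freq, not_forall, not_exists, not_and] at this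
      exact this
    choose b hb using hcon'
    obtain ⟨x, hx⟩ := h b
    exact hb (i x) x (hx _) (hi x)

theorem sel {β : Type} [LinearOrder β] [Nonempty β] (K : ℕ) (π : Fin K → ℕ)
    (hπ : Function.Injective π) (P : Fin K → β → Prop)
    (h : ∀ j b, ∃ x, b < x ∧ P j x) :
    ∃ x : Fin K → β, (∀ j, P j (x j)) ∧ ∀ j j', π j < π j' → x j < x j' := by
  have key : ∀ N : ℕ, ∃ x : Fin K → β, (∀ j, π j < N → P j (x j)) ∧
      ∀ j j', π j < π j' → π j' < N → x j < x j' := by
    intro N
    induction N with
    | zero =>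
      obtain ⟨b⟩ := (inferInstance : Nonempty β)
      exact ⟨fun _ => b, by intro j hj; omega, by intro j j' _ hj; omega⟩
    | succ N ih =>
      obtain ⟨x, hx1, hx2⟩ := ih
      by_cases hN : ∃ j₀, π j₀ = N
      · obtain ⟨j₀, hj₀⟩ := hN
        obtain ⟨b, hb⟩ : ∃ b, ∀ j, x j ≤ b := by
          obtain ⟨b, hb⟩ := (Set.finite_range x).bddAbove
          exact ⟨b, fun j => hb ⟨j, rfl⟩⟩
        obtain ⟨y, hy, hPy⟩ := h j₀ b
        refine ⟨Function.update x j₀ y, ?_, ?_⟩
        · intro j hj
          by_cases hjj : j = j₀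
          · subst hjj; simpa using hPy
          · rw [Function.update_of_ne hjj]
            apply hx1
            have : π j ≠ N := fun h => hjj (hπ (h.trans hj₀.symm))
            omega
        · intro j j' hjj' hj'
          by_cases hj'0 : j' = j₀
          · subst hj'0
            have hne : j ≠ j' := by rintro rfl; omega
            rw [Function.update_of_ne hne, Function.update_self]
            exact lt_of_le_of_lt (hb j) hy
          · have h1 : π j' ≠ N := fun h => hj'0 (hπ (h.trans hj₀.symm))
            have hne : j ≠ j₀ := by rintro rfl; omega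
            rw [Function.update_of_ne hne, Function.update_of_ne hj'0]
            exact hx2 j j' hjj' (by omega)
      · refine ⟨x, ?_, ?_⟩
        · intro j hj
          have : π j ≠ N := fun h => hN ⟨j, h⟩
          exact hx1 j (by omega)
        · intro j j' hjj' hj'
          have : π j' ≠ N := fun h => hN ⟨j', h⟩
          exact hx2 j j' hjj' (by omega)
  obtain ⟨M, hM⟩ : ∃ M, ∀ j, π j < M := by
    obtain ⟨M, hM⟩ := (Set.finite_range π).bddAbove
    exact ⟨M + 1, fun j => Nat.lt_succ_of_le (hM ⟨j, rfl⟩)⟩
  obtain ⟨x, hx1, hx2⟩ := key M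
  exact ⟨x, fun j => hx1 j (hM j), fun j j' hjj' => hx2 j j' hjj' (hM j')⟩

theorem realise {β C : Type} [LinearOrder β] [Nonempty β] (K : ℕ) (i : C) (m : ℕ) :
    ∀ (c : Fin K → (Fin m → β) → C) (_ : ∀ j, Freq m (c j) i)
      (π : Fin m → Fin K → ℕ) (_ : ∀ a, Function.Injective (π a)),
      ∃ u : Fin K → Fin m → β, (∀ j, c j (u j) = i) ∧
        ∀ a j j', π a j < π a j' → u j a < u j' a := by
  induction m with
  | zero =>
    intro c hc π _
    exact ⟨fun j x => x.elim0, fun j => hc j, fun a => a.elim0⟩
  | succ m ih =>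
    intro c hc π hπ
    obtain ⟨x, hx1, hx2⟩ := sel K (π 0) (hπ 0)
      (fun j x => Freq m (fun t => c j (Fin.cons x t)) i) (fun j b => hc j b)
    obtain ⟨u, hu1, hu2⟩ := ih (fun j t => c j (Fin.cons (x j) t)) hx1
      (fun a => π a.succ) (fun a => hπ _)
    refine ⟨fun j => Fin.cons (x j) (u j), hu1, ?_⟩
    intro a j j'
    refine Fin.cases ?_ ?_ a
    · intro h; simpa using hx2 j j' h
    · intro a h; simpa using hu2 a j j' h

/-- The digraph: exactly one coordinate goes down, all the others go up. -/
def D (m : ℕ) (α : Type) [LinearOrder α] : Digraph (Fin m → α) where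
  Adj s t := ∃ i, t i < s i ∧ ∀ j, j ≠ i → s j < t j

theorem no_short {m : ℕ} {α : Type} [LinearOrder α] {k : ℕ} (hk : k + 1 < m)
    (f : Fin (k + 1) → (Fin m → α)) : ¬ ∀ i : Fin (k + 1), (D m α).Adj (f i) (f (i + 1)) := by
  intro h
  choose d hd1 hd2 using h
  have hns : ¬ Function.Surjective d := by
    intro hs
    have := Fintype.card_le_of_surjective d hs
    simp at this
    omega
  simp only [Function.Surjective, not_forall, not_exists] at hns
  obtain ⟨a, ha⟩ := hns
  obtain ⟨i, hi⟩ := Finite.exists_max (fun i => f i a)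
  have h1 := hd2 i a (fun h => ha i h.symm)
  exact absurd (hi (i + 1)) (not_le.mpr h1)

/-- For a regular-like order `β`, a monochromatic directed cycle of length `m + 2`. -/
theorem cycle {β C : Type} [LinearOrder β] [Nonempty β]
    (h : ∀ b : C → β, ∃ x : β, ∀ i, b i < x) (m : ℕ) (c : (Fin (m + 2) → β) → C) :
    ∃ f : Fin (m + 2) → (Fin (m + 2) → β), Function.Injective f ∧
      (∀ i, (D (m + 2) β).Adj (f i) (f (i + 1))) ∧ ∀ i j, c (f i) = c (f j) := by
  obtain ⟨i, hi⟩ := exists_freq h (m + 2) c
  obtain ⟨u, hu1, hu2⟩ := realise (m + 2) i (m + 2) (fun _ => c) (fun _ => hi)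
    (fun a j => (j - a - 1 : Fin (m + 2)).val)
    (by
      intro a j j' hjj'
      have := Fin.ext hjj'
      simpa using this)
  refine ⟨u, ?_, ?_, fun j j' => by rw [hu1, hu1]⟩
  · intro j j' hjj'
    by_contra hne
    have hne' : (j - 0 - 1 : Fin (m + 2)).val ≠ (j' - 0 - 1 : Fin (m + 2)).val := by
      intro h
      apply hne
      have := Fin.ext h
      simpa using this
    rcases lt_or_gt_of_ne hne' with h1 | h1
    · exact absurd (congrFun hjj' 0) (ne_of_lt (hu2 0 j j' h1))
    · exact absurd (congrFun hjj' 0).symm (ne_of_lt (hu2 0 j' j h1))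
  intro j
  refine ⟨j, ?_, ?_⟩
  · apply hu2
    have h1 : (j + 1 - j - 1 : Fin (m + 2)) = 0 := by abel
    have h2 : (j - j - 1 : Fin (m + 2)) = -1 := by abel
    rw [h1, h2]
    simp
  · intro a ha
    apply hu2
    have h1 : (j + 1 - a - 1 : Fin (m + 2)) = (j - a - 1) + 1 := by abel
    rw [h1]
    have h2 : (j - a - 1 : Fin (m + 2)) ≠ Fin.last (m + 1) := by
      intro h
      apply ha
      have h3 : (j - a : Fin (m + 2)) = Fin.last (m + 1) + 1 := by
        rw [← h]; abel
      rw [Fin.last_add_one] at h3
      exact (sub_eq_zero.mp h3).symm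
    rw [Fin.val_add_one]
    simp [h2]

/-- For every infinite cardinal κ and every n, there is a loopless digraph on κ vertices with no directed cycle of length below n, such that every colouring with fewer than κ colours has a monochromatic directed cycle. -/
theorem result : ∀ κ : Cardinal.{0}, Cardinal.aleph0 ≤ κ → ∀ n : ℕ,
    ∃ (V : Type) (D : Digraph V),
      Cardinal.mk V = κ ∧
      (∀ v : V, ¬ D.Adj v v) ∧
      (∀ k : ℕ, k + 1 < n → ∀ f : Fin (k + 1) → V, Function.Injective f →
        ¬ ∀ i : Fin (k + 1), D.Adj (f i) (f (i + 1))) ∧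
      (∀ (C : Type) (c : V → C), Cardinal.mk C < κ →
        ∃ k : ℕ, ∃ f : Fin (k + 1) → V, Function.Injective f ∧
          (∀ i : Fin (k + 1), D.Adj (f i) (f (i + 1))) ∧
          ∀ i j : Fin (k + 1), c (f i) = c (f j)) := by
  intro κ hκ n
  refine ⟨Fin (n + 2) → κ.ord.ToType, D (n + 2) κ.ord.ToType, ?_, ?_, ?_, ?_⟩
  · have h1 : Cardinal.mk (Fin (n + 2) → κ.ord.ToType) =
        Cardinal.mk κ.ord.ToType ^ Cardinal.mk (Fin (n + 2)) := by
      rw [Cardinal.power_def]
    rw [h1, Cardinal.mk_ord_toType, Cardinal.mk_fin]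
    exact_mod_cast Cardinal.power_nat_eq (n := n + 2) hκ (by omega)
  · rintro v ⟨i, hi, _⟩
    exact lt_irrefl _ hi
  · intro k hk f _
    exact no_short (by omega) f
  · intro C c hC
    obtain ⟨μ, hμ, hCμ, hμκ⟩ : ∃ μ : Cardinal.{0}, μ.IsRegular ∧ Cardinal.mk C < μ ∧ μ ≤ κ := by
      rcases hκ.eq_or_lt with h | h
      · exact ⟨κ, h ▸ Cardinal.isRegular_aleph0, hC, le_rfl⟩
      · refine ⟨Order.succ (max (Cardinal.mk C) Cardinal.aleph0),
          Cardinal.isRegular_succ (le_max_right _ _), ?_, ?_⟩
        · exact lt_of_le_of_lt (le_max_left _ _) (Order.lt_succ _)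
        · exact Order.succ_le_of_lt (max_lt hC h)
    have hne : Nonempty μ.ord.ToType := by
      rw [Ordinal.nonempty_toType_iff]
      exact hμ.ord_pos.ne'
    have hdir : ∀ b : C → μ.ord.ToType, ∃ x : μ.ord.ToType, ∀ i, b i < x := by
      intro b
      by_contra hcon
      push Not at hcon
      have hcof : IsCofinal (Set.range b) := by
        intro x
        obtain ⟨i, hi⟩ := hcon x
        exact ⟨b i, ⟨i, rfl⟩, hi⟩
      have h1 := Order.cof_le hcof
      rw [Ordinal.cof_toType, hμ.cof_ord] at h1
      exact absurd (lt_of_le_of_lt (h1.trans Cardinal.mk_range_le) hCμ) (lt_irrefl _)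
    let e : μ.ord.ToType ≤i κ.ord.ToType :=
      Ordinal.initialSegToType (Cardinal.ord_le_ord.2 hμκ)
    obtain ⟨f, hf0, hf1, hf2⟩ := cycle hdir n (fun t => c (fun a => e (t a)))
    refine ⟨n + 1, fun j a => e (f j a), ?_, ?_, hf2⟩
    · intro j j' hjj'
      apply hf0
      funext a
      exact e.injective (congrFun hjj' a)
    · intro j
      obtain ⟨i, hi1, hi2⟩ := hf1 j
      exact ⟨i, e.lt_iff_lt.2 hi1, fun a ha => e.lt_iff_lt.2 (hi2 a ha)⟩

end Pool.Agent.S15001
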