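import Pool.Statements.S15022
import Pool.Agent.H82.APKey

/-!
Already for `k = 1` linearly many (in `log n`) arithmetic progressions cannot split `[0, n)` into
classes of bounded size: progressions with difference below a constant `B` create only
`O (m ^ 2)` classes, and the other ones have density at most `1 / B`, hence carry little
information.
-/

set_option autoImplicit false
open Pool Pool.MP_8aa41f_lc

namespace Pool.Agent.S15022

open Finset Filter Asymptotics

theorem key_log {n m K B M : ℕ} (hB : 1 ≤ B) (hBn : B ≤ n) (hM : 0 < M)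
    (hMd : ∀ d, 1 ≤ d → d < B → d ∣ M) (hK1 : 1 ≤ K)
    (T : Fin m → Finset ℕ)
    (hT : ∀ i, T i ⊆ range n ∧ ∃ a d L : ℕ, T i = (range L).image (fun j => a + d * j))
    (hK : ∀ x ∈ range n, ((range n).filter (fun y => ∀ i, y ∈ T i ↔ x ∈ T i)).card ≤ K) :
    Real.log n ≤ Real.log (K * M) + 2 * Real.log (m + 1) + m * ((1 + 2 * Real.log B) / B) := by
  have hn : 1 ≤ n := hB.trans hBn
  have hBpos : (0 : ℝ) < B := by exact_mod_cast hB
  have hnpos : (0 : ℝ) < n := by exact_mod_cast hn
  have hKpos : (0 : ℝ) < K := by exact_mod_cast hK1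
  have hMpos : (0 : ℝ) < M := by exact_mod_cast hM
  have hlogB : 0 ≤ Real.log B := Real.log_nonneg (by exact_mod_cast hB)
  have h := H82.key hB hn hM hMd T hT hK (Real.log B) hlogB
  have hexp : Real.exp (-Real.log B) = 1 / B := by
    rw [Real.exp_neg, Real.exp_log hBpos, one_div]
  rw [hexp] at h
  have h1 : (1 + 1 / (B : ℝ)) ^ m ≤ Real.exp (m / B) := by
    have h2 : 1 + 1 / (B : ℝ) ≤ Real.exp (1 / B) := by
      have := Real.add_one_le_exp (1 / (B : ℝ))
      linarith
    calc (1 + 1 / (B : ℝ)) ^ m ≤ (Real.exp (1 / B)) ^ m := by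
          apply pow_le_pow_left₀ (by positivity) h2
      _ = Real.exp (m / B) := by
          rw [← Real.exp_nat_mul]
          congr 1
          ring
  have h3 : (n : ℝ) * Real.exp (-(Real.log B * (m * (1 / B + 1 / n)))) ≤
      K * M * (m + 1) ^ 2 * Real.exp (m / B) := by
    refine h.trans ?_
    apply mul_le_mul_of_nonneg_left h1 (by positivity)
  have h4 := Real.log_le_log (by positivity) h3
  rw [Real.log_mul hnpos.ne' (Real.exp_pos _).ne', Real.log_exp,
    Real.log_mul (by positivity) (Real.exp_pos _).ne', Real.log_exp,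
    Real.log_mul (by positivity) (by positivity), Real.log_pow] at h4
  have h5 : (1 : ℝ) / n ≤ 1 / B := by
    apply one_div_le_one_div_of_le hBpos
    exact_mod_cast hBn
  have h6 : Real.log B * (m * (1 / B + 1 / n)) ≤ Real.log B * (m * (1 / B + 1 / B)) := by
    apply mul_le_mul_of_nonneg_left _ hlogB
    apply mul_le_mul_of_nonneg_left _ (by positivity)
    linarith
  have h7 : (m : ℝ) * ((1 + 2 * Real.log B) / B) =
      m / B + Real.log B * (m * (1 / B + 1 / B)) := by
    field_simp
    ring
  push_cast at h4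
  rw [h7]
  linarith

theorem exists_B (C : ℝ) : ∃ B : ℕ, 1 ≤ B ∧ C * ((1 + 2 * Real.log B) / B) ≤ 1 / 4 := by
  have h1 : Tendsto (fun x : ℝ => (Real.log x) ^ 1 / (1 * x + 0)) atTop (nhds 0) :=
    Real.tendsto_pow_log_div_mul_add_atTop 1 0 1 one_ne_zero
  have h2 : Tendsto (fun x : ℝ => C * (1 / x + 2 * ((Real.log x) ^ 1 / (1 * x + 0)))) atTop
      (nhds (C * (0 + 2 * 0))) := by
    apply Tendsto.const_mul
    apply Tendsto.add
    · exact (tendsto_inv_atTop_zero (𝕜 := ℝ)).congr (fun x => (one_div x).symm)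
    · exact h1.const_mul 2
  have h3 := (h2.comp (tendsto_natCast_atTop_atTop (R := ℝ))).eventually
    (ge_mem_nhds (show C * (0 + 2 * 0) < 1 / 4 by norm_num))
  obtain ⟨B, hB1, hB2⟩ := (h3.and (eventually_ge_atTop 1)).exists
  refine ⟨B, hB2, ?_⟩
  have hBpos : (0 : ℝ) < B := by exact_mod_cast hB2
  have h4 : C * ((1 + 2 * Real.log B) / B) =
      C * (1 / B + 2 * ((Real.log B) ^ 1 / (1 * B + 0))) := by
    field_simp
    ring
  rw [h4]
  exact hB1

theorem exists_n (C E : ℝ) (hC : 0 ≤ C) (N : ℕ) : ∃ n : ℕ, N ≤ n ∧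
    E + 2 * Real.log (C * Real.log n + 1) < 3 / 4 * Real.log n := by
  have h1 : Tendsto (fun x : ℝ => (C + 1) * x + 1) atTop atTop := by
    apply tendsto_atTop_add_const_right
    exact tendsto_id.const_mul_atTop (by linarith)
  have h2 := Real.isLittleO_log_id_atTop.comp_tendsto h1
  have h3 : (fun x : ℝ => (C + 1) * x + 1) =O[atTop] (fun x : ℝ => x) := by
    apply IsBigO.add
    · exact isBigO_const_mul_self _ _ _
    · exact (isLittleO_const_id_atTop (1 : ℝ)).isBigO
  have h4 : (fun x : ℝ => Real.log ((C + 1) * x + 1)) =o[atTop] (fun x : ℝ => x) :=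
    h2.trans_isBigO h3
  have h5 : (fun x : ℝ => E + 2 * Real.log ((C + 1) * x + 1)) =o[atTop] (fun x : ℝ => x) :=
    (isLittleO_const_id_atTop E).add (h4.const_mul_left 2)
  have h6 := h5.bound (show (0 : ℝ) < 1 / 2 by norm_num)
  have h7 : Tendsto (fun n : ℕ => Real.log (n : ℝ)) atTop atTop :=
    Real.tendsto_log_atTop.comp tendsto_natCast_atTop_atTop
  have h8 := h7.eventually (h6.and (eventually_gt_atTop 0))
  obtain ⟨n, ⟨hn1, hn2⟩, hn3⟩ := (h8.and (eventually_ge_atTop N)).exists
  refine ⟨n, hn3, ?_⟩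
  rw [Real.norm_eq_abs, Real.norm_eq_abs, abs_of_pos hn2] at hn1
  have h9 := (le_abs_self _).trans hn1
  have h10 : Real.log (C * Real.log n + 1) ≤ Real.log ((C + 1) * Real.log n + 1) := by
    apply Real.log_le_log
    · positivity
    · nlinarith
  linarith

/-- The negation of the preceding statement: There are constants C, D such that for all 1 ≤ k ≤ n (n ≥ 2), some at most C·k·log n arithmetic progressions in [n] have this property: from their emptiness outcomes, querying at most D·k chosen points always pins down any hidden set of size at most k. -/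
theorem result :
    ¬ (∃ C : ℝ, ∃ D : ℕ, ∀ n k : ℕ, 2 ≤ n → 1 ≤ k → k ≤ n →
      ∃ m : ℕ, (m : ℝ) ≤ C * (k : ℝ) * Real.log (n : ℝ) ∧
        ∃ T : Fin m → Finset ℕ,
          (∀ i, T i ⊆ Finset.range n ∧
            ∃ a d L : ℕ, T i = (Finset.range L).image (fun j => a + d * j)) ∧
          ∃ J : (Fin m → Bool) → Finset ℕ,
            (∀ o, (J o).card ≤ D * k) ∧
            ∀ S S' : Finset ℕ, S ⊆ Finset.range n → S' ⊆ Finset.range n →
              S.card ≤ k → S'.card ≤ k →
              (fun i => decide (Disjoint (T i) S)) =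
                (fun i => decide (Disjoint (T i) S')) →
              S ∩ J (fun i => decide (Disjoint (T i) S)) =
                S' ∩ J (fun i => decide (Disjoint (T i) S)) →
              S = S') := by
  rintro ⟨C, D, h⟩
  obtain ⟨B, hB1, hB2⟩ := exists_B (max C 0)
  obtain ⟨n, hn1, hn2⟩ := exists_n (max C 0) (Real.log (((D + 1 : ℕ) : ℝ) * (B.factorial : ℕ)))
    (le_max_right _ _) (max B 2)
  have hn2' : 2 ≤ n := (le_max_right _ _).trans hn1
  have hBn : B ≤ n := (le_max_left _ _).trans hn1
  obtain ⟨m, hm, T, hT, J, hJ, hS⟩ := h n 1 hn2' le_rfl (by omega)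
  have hlogn : 0 < Real.log n := Real.log_pos (by exact_mod_cast hn2')
  have hm' : (m : ℝ) ≤ max C 0 * Real.log n := by
    refine hm.trans ?_
    rw [Nat.cast_one, mul_one]
    exact mul_le_mul_of_nonneg_right (le_max_left _ _) hlogn.le
  have hK : ∀ x ∈ range n,
      ((range n).filter (fun y => ∀ i, y ∈ T i ↔ x ∈ T i)).card ≤ D + 1 := by
    intro x hx
    set o : Fin m → Bool := fun i => decide (Disjoint (T i) {x}) with ho
    set X := (range n).filter (fun y => ∀ i, y ∈ T i ↔ x ∈ T i) with hX
    have hout : ∀ y ∈ X, (fun i => decide (Disjoint (T i) {y})) = o := by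
      intro y hy
      rw [hX, mem_filter] at hy
      funext i
      simp only [ho, Finset.disjoint_singleton_right, hy.2 i]
    have h1 : (X \ J o).card ≤ 1 := by
      apply Finset.card_le_one.mpr
      intro y hy z hz
      rw [Finset.mem_sdiff] at hy hz
      have hy' : y ∈ range n := (mem_filter.mp hy.1).1
      have hz' : z ∈ range n := (mem_filter.mp hz.1).1
      have h2 := hS {y} {z} (by simpa using hy') (by simpa using hz') (by simp) (by simp)
        ((hout y hy.1).trans (hout z hz.1).symm)
        (by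
          rw [hout y hy.1, Finset.singleton_inter_of_notMem hy.2,
            Finset.singleton_inter_of_notMem hz.2])
      simpa using h2
    have h2 : (X ∩ J o).card ≤ D := by
      have h3 := Finset.card_le_card (Finset.inter_subset_right (s₁ := X) (s₂ := J o))
      have h4 := hJ o
      omega
    have h3 := Finset.card_sdiff_add_card_inter X (J o)
    omega
  have h1 := key_log hB1 hBn (Nat.factorial_pos B)
    (fun d hd1 hd2 => Nat.dvd_factorial hd1 hd2.le) (by omega) T hT hK
  have h2 : Real.log ((m : ℝ) + 1) ≤ Real.log (max C 0 * Real.log n + 1) := by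
    apply Real.log_le_log (by positivity)
    linarith
  have h3 : (m : ℝ) * ((1 + 2 * Real.log B) / B) ≤ 1 / 4 * Real.log n := by
    have h4 : 0 ≤ (1 + 2 * Real.log B) / B := by
      have : 0 ≤ Real.log B := Real.log_nonneg (by exact_mod_cast hB1)
      positivity
    calc (m : ℝ) * ((1 + 2 * Real.log B) / B)
        ≤ (max C 0 * Real.log n) * ((1 + 2 * Real.log B) / B) :=
          mul_le_mul_of_nonneg_right hm' h4
      _ = (max C 0 * ((1 + 2 * Real.log B) / B)) * Real.log n := by ring
      _ ≤ 1 / 4 * Real.log n := mul_le_mul_of_nonneg_right hB2 hlogn.le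
  linarith

end Pool.Agent.S15022
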