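import Pool.Statements.S16808
import Pool.Agent.H21.ExpPairAdm

set_option autoImplicit false
open Pool Pool.MP_493793_nt

namespace Pool.Agent.S16808

/-- The negation of the exponent pair statement; the counterexample is `f(x) = (x/3)^(3/2)`, whose
derivatives of all orders are nonzero and of the required size with `F = (N/3)^(3/2)`, while
the sum over `[N, N']` has size at least a constant times `N^(3/4)`. -/
theorem result :
    ¬ (∀ ε : ℝ, 0 < ε → ∀ c C : ℕ → ℝ, (∀ j, 0 < c j) → (∀ j, 0 < C j) →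
      ∃ K : ℝ, ∀ N N' F : ℝ, ∀ f : ℝ → ℝ,
        2 ≤ N → N ≤ N' → N' ≤ 2 * N → N ≤ F →
        ContDiffOn ℝ (⊤ : ℕ∞) f (Set.Icc N (2 * N)) →
        (∀ j : ℕ, ∀ x ∈ Set.Icc N (2 * N),
            c j * F / N ^ j ≤ |iteratedDerivWithin j f (Set.Icc N (2 * N)) x| ∧
            |iteratedDerivWithin j f (Set.Icc N (2 * N)) x| ≤ C j * F / N ^ j) →
        ‖∑ n ∈ Finset.Icc ⌈N⌉₊ ⌊N'⌋₊,
            Complex.exp (2 * (Real.pi : ℂ) * Complex.I * ((f (n : ℝ) : ℝ) : ℂ))‖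
          ≤ K * N ^ (1 / 2 : ℝ) * F ^ ε) := by
  intro hall
  obtain ⟨K, hK⟩ := hall (1 / 12) (by norm_num) (fun j => Pool.Agent.H21.Dj j / 2 ^ j)
    (fun j => 4 * Pool.Agent.H21.Dj j)
    (fun j => div_pos (Pool.Agent.H21.Dj_pos j) (by positivity))
    (fun j => by have := Pool.Agent.H21.Dj_pos j; positivity)
  -- choose a large scale
  obtain ⟨q, hq⟩ := exists_nat_gt (max (40 * K) 8)
  have hqK : 40 * K < q := lt_of_le_of_lt (le_max_left _ _) hq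
  have hq8 : (8 : ℝ) < q := lt_of_le_of_lt (le_max_right _ _) hq
  set j : ℕ := q ^ 2 with hj
  have hq8N : 8 < q := by exact_mod_cast hq8
  have hj8 : 8 ≤ j := by rw [hj]; nlinarith
  have hjR : (j : ℝ) = (q : ℝ) ^ 2 := by rw [hj]; push_cast; ring
  have hj1 : (64 : ℝ) ≤ (j : ℝ) := by rw [hjR]; nlinarith
  set A : ℝ := 50 * (j : ℝ) ^ 2 + 1 with hA
  have hA1 : 1 ≤ A := by rw [hA]; nlinarith [sq_nonneg (j : ℝ)]
  have hA3 : 3 ≤ A := by rw [hA]; nlinarith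
  set N : ℝ := 3 * A ^ 2 with hN
  have hN0 : 0 < N := by positivity
  have hF : Pool.Agent.H21.fph N = A ^ 3 := Pool.Agent.H21.fph_scale j
  have hmain := Pool.Agent.H21.main_lower' j hj8
  rw [← hA, ← hN] at hmain
  have hb := hK N (3 * (70 * (j : ℝ) ^ 2 + 1) ^ 2) (Pool.Agent.H21.fph N) Pool.Agent.H21.fph
    (by rw [hN]; nlinarith)
    (by rw [hN, hA]
        have h1 : (0 : ℝ) ≤ 50 * (j : ℝ) ^ 2 + 1 := by positivity
        have h2 : 50 * (j : ℝ) ^ 2 + 1 ≤ 70 * (j : ℝ) ^ 2 + 1 := by nlinarith [sq_nonneg (j : ℝ)]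
        have h3 := pow_le_pow_left₀ h1 h2 2
        linarith)
    (by rw [hN, hA]
        nlinarith [sq_nonneg (j : ℝ), sq_nonneg ((j : ℝ) ^ 2)])
    (by rw [hF, hN]; nlinarith [sq_nonneg A])
    (Pool.Agent.H21.contDiffOn_fph hN0)
    (fun i x hx => Pool.Agent.H21.adm N hN0 i x hx)
  rw [hF] at hb
  -- size of the right-hand side
  have hAle : A ≤ 51 * (q : ℝ) ^ 4 := by
    rw [hA, hjR]
    have : (1 : ℝ) ≤ (q : ℝ) ^ 4 := one_le_pow₀ (by linarith)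
    nlinarith
  have hNroot : N ^ (1 / 2 : ℝ) ≤ 2 * A := by
    rw [← Real.sqrt_eq_rpow, hN]
    apply Real.sqrt_le_iff.mpr
    constructor
    · linarith
    · nlinarith [sq_nonneg A]
  have hFroot : (A ^ 3) ^ (1 / 12 : ℝ) ≤ 3 * q := by
    rw [← Real.rpow_natCast A 3, ← Real.rpow_mul (by linarith)]
    have e : ((3 : ℕ) : ℝ) * (1 / 12) = 1 / 4 := by norm_num
    rw [e]
    calc A ^ (1 / 4 : ℝ) ≤ ((3 * q : ℝ) ^ (4 : ℕ)) ^ (1 / 4 : ℝ) := by
          apply Real.rpow_le_rpow (by linarith) _ (by norm_num)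
          have : (3 * q : ℝ) ^ 4 = 81 * (q : ℝ) ^ 4 := by ring
          rw [this]
          have : (0 : ℝ) ≤ (q : ℝ) ^ 4 := by positivity
          linarith
      _ = 3 * q := by
          rw [← Real.rpow_natCast, ← Real.rpow_mul (by positivity)]
          norm_num
  have hq0 : (0 : ℝ) < q := by linarith
  have hKpos : 0 ≤ K := by
    by_contra hcon
    push Not at hcon
    have h1 : 0 < N ^ (1 / 2 : ℝ) * (A ^ 3) ^ (1 / 12 : ℝ) := by positivity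
    have h2 : K * N ^ (1 / 2 : ℝ) * (A ^ 3) ^ (1 / 12 : ℝ) < 0 := by
      rw [mul_assoc]; exact mul_neg_of_neg_of_pos hcon h1
    have h3 : 0 ≤ K * N ^ (1 / 2 : ℝ) * (A ^ 3) ^ (1 / 12 : ℝ) := le_trans (norm_nonneg _) hb
    linarith
  have hrhs : K * N ^ (1 / 2 : ℝ) * (A ^ 3) ^ (1 / 12 : ℝ) ≤ K * (102 * (q : ℝ) ^ 4) * (3 * q) := by
    apply mul_le_mul _ hFroot (by positivity) (by positivity)
    apply mul_le_mul_of_nonneg_left _ hKpos
    linarith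
  have hfin : 10 * (j : ℝ) ^ 3 ≤ K * (102 * (q : ℝ) ^ 4) * (3 * q) + 1 := by linarith
  rw [hjR] at hfin
  have hfin' : 10 * (q : ℝ) ^ 6 ≤ 306 * K * (q : ℝ) ^ 5 + 1 := by
    calc 10 * (q : ℝ) ^ 6 = 10 * ((q : ℝ) ^ 2) ^ 3 := by ring
      _ ≤ _ := hfin
      _ = 306 * K * (q : ℝ) ^ 5 + 1 := by ring
  have hq5 : 1 ≤ (q : ℝ) ^ 5 := one_le_pow₀ (by linarith)
  have h6 : (q : ℝ) ^ 6 = q * (q : ℝ) ^ 5 := by ring
  have h7 : 40 * K * (q : ℝ) ^ 5 ≤ q * (q : ℝ) ^ 5 :=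
    mul_le_mul_of_nonneg_right hqK.le (by positivity)
  rw [h6] at hfin'
  have h8 : (8 : ℝ) * 1 ≤ q * (q : ℝ) ^ 5 := mul_le_mul hq8.le hq5 (by norm_num) hq0.le
  nlinarith

end Pool.Agent.S16808
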