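import Pool.Statements.S17546
import Pool.Agent.H90.Enum

set_option autoImplicit false
open Pool Pool.MP_7c6dee_nt

namespace Pool.Agent.S17546

/-- The negation of the preceding statement: For every m ≥ 1 and every increasing seed of m positive integers, the Dickson sequence has an eventually periodic difference sequence. Each later term is the least integer above the previous one that is not a sum of two earlier terms, repeats allowed. -/
theorem result :
    ¬ (∀ m : ℕ, 1 ≤ m → ∀ u : ℕ → ℕ,
      (∀ i, i < m → 0 < u i) →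
      (∀ i, i + 1 < m → u i < u (i + 1)) →
      (∀ n, m ≤ n →
        IsLeast {x : ℕ | u (n - 1) < x ∧ ∀ i, i < n → ∀ j, j < n → x ≠ u i + u j} (u n)) →
      ∃ N p : ℕ, 1 ≤ p ∧ ∀ n, N ≤ n →
        ((u (n + p + 1) : ℤ) - (u (n + p) : ℤ)) = ((u (n + 1) : ℤ) - (u n : ℤ))) := by
  intro H
  refine Pool.Agent.H90.Dickson.not_periodic
    (H Pool.Agent.H90.Dickson.seedLen Pool.Agent.H90.Dickson.seedLen_pos
      Pool.Agent.H90.Dickson.enum ?_ ?_ ?_)
  · intro i _
    exact Pool.Agent.H90.Dickson.enum_pos i
  · intro i _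
    exact Pool.Agent.H90.Dickson.enum_strictMono (Nat.lt_succ_self i)
  · intro n hn
    have hpos := Pool.Agent.H90.Dickson.seedLen_pos
    constructor
    · refine ⟨Pool.Agent.H90.Dickson.enum_strictMono (by omega), ?_⟩
      intro i _ j _
      exact Pool.Agent.H90.Dickson.enum_no_sum hn i j
    · rintro x ⟨h1, h2⟩
      by_contra hlt
      obtain ⟨i, j, hij, hj, hx⟩ :=
        Pool.Agent.H90.Dickson.gap_sum hn h1 (not_le.1 hlt)
      exact h2 i (by omega) j hj hx

end Pool.Agent.S17546
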