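-- Disproof of the (multiplicative form of the) Lang-Waldschmidt conjecture.
-- With q a large integer, take the eight bases
--   60(q+1), 60(q-1), 60q+30, 60q-30, 3600q^2-2250, 3600q^2-540, 3600q^2-3300, 60q
-- with four exponents that are linear in q and four constant ones; the product differs from 1 by
-- about 964 q^(-16) while max|b| / H is about q^(-14).
import Pool.Statements.S18732
import Pool.Agent.H30.LWdata

set_option autoImplicit false
open Pool Pool.MP_e07dae_nt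

namespace Pool.Agent.S18732

open Pool.Agent.H30.LW

/-- The negation of the preceding statement: For each ε>0 there is C>0 such that for all n, positive integers a_i and nonzero integers b_i with product of a_i^b_i not 1, the distance of that product from 1 is at least C times max∣b_j∣ over ∣b_1…b_n a_1…a_n∣^(1+ε). -/
theorem result :
    ¬ (∀ ε : ℝ, 0 < ε → ∃ C : ℝ, 0 < C ∧
      ∀ n : ℕ, ∀ a : Fin n → ℕ, ∀ b : Fin n → ℤ,
        (∀ i, 0 < a i) → (∀ i, b i ≠ 0) →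
        (∏ i, ((a i : ℝ) ^ (b i))) ≠ 1 →
        C * ((Finset.univ.sup (fun j => (b j).natAbs) : ℕ) : ℝ) /
            ((|(∏ i, b i) * ∏ i, (a i : ℤ)| : ℤ) : ℝ) ^ (1 + ε)
          ≤ |(∏ i, ((a i : ℝ) ^ (b i))) - 1|) := by
  intro hmain
  obtain ⟨C, hC, h⟩ := hmain (1 / 15) (by norm_num)
  -- choose a large parameter
  obtain ⟨K, hK⟩ : ∃ K : ℝ, K = 10 ^ 96 := ⟨_, rfl⟩
  have hKpos : 0 < K := by rw [hK]; positivity
  obtain ⟨m, hm⟩ := exists_nat_gt (4000 * K ^ (16 / 15 : ℝ) / C + 10 ^ 4)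
  have hK0 : 0 < K ^ (16 / 15 : ℝ) := Real.rpow_pos_of_pos hKpos _
  have hK1 : 0 < 4000 * K ^ (16 / 15 : ℝ) / C := by positivity
  have hm1 : 1 ≤ m := by
    have : (1 : ℝ) ≤ m := by linarith
    exact_mod_cast this
  obtain ⟨q, hq⟩ : ∃ q : ℝ, q = (m : ℝ) + 1 := ⟨_, rfl⟩
  have hmq : (m : ℝ) = q - 1 := by rw [hq]; ring
  have hq4 : (10 : ℝ) ^ 4 ≤ q := by linarith
  have hqbig : 4000 * K ^ (16 / 15 : ℝ) / C < q := by linarith
  have hq0 : 0 < q := by linarith
  have hq2 : 2 ≤ q := by linarith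
  -- the product and its logarithm
  have hPpos : 0 < ∏ i, ((aa m i : ℝ) ^ (bb m i)) := by
    apply Finset.prod_pos
    intro i _
    have : (0 : ℝ) < aa m i := by exact_mod_cast aa_pos m hm1 i
    exact zpow_pos this _
  have hlog := log_prod_eq m hm1
  rw [← hq] at hlog
  have hest := Lam_est q hq2
  have hu0 : 0 < 1 / q := by positivity
  have hu4 : 1 / q ≤ 1 / 10 ^ 4 := one_div_le_one_div_of_le (by norm_num) hq4
  have hu16 : 0 < (1 / q) ^ 16 := by positivity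
  have hu18 : 10 ^ 10 * (1 / q) ^ 18 ≤ 100 * (1 / q) ^ 16 := by
    have h1 : (1 / q) ^ 2 ≤ (1 / 10 ^ 4) ^ 2 := pow_le_pow_left₀ hu0.le hu4 2
    have h2 : (1 / q) ^ 18 = (1 / q) ^ 2 * (1 / q) ^ 16 := by ring
    rw [h2]
    have h3 : (1 / q) ^ 2 * (1 / q) ^ 16 ≤ (1 / 10 ^ 4) ^ 2 * (1 / q) ^ 16 :=
      mul_le_mul_of_nonneg_right h1 hu16.le
    linarith
  have hb := abs_le.mp (hest.trans hu18)
  have hneg : Lam q ≤ -(800 * (1 / q) ^ 16) := by linarith [hb.2]
  have hlow : -(2000 * (1 / q) ^ 16) ≤ Lam q := by linarith [hb.1]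
  have hLne : Lam q ≠ 0 := by
    have : 0 < 800 * (1 / q) ^ 16 := by positivity
    linarith
  have hu16' : (1 / q) ^ 16 ≤ (1 / 10 ^ 4) ^ 16 := pow_le_pow_left₀ hu0.le hu4 16
  have habs : |Lam q| ≤ 2000 * (1 / q) ^ 16 := by
    rw [abs_le]
    constructor
    · exact hlow
    · have : 0 < 800 * (1 / q) ^ 16 := by positivity
      linarith
  have habs1 : |Lam q| ≤ 1 := by
    refine habs.trans ?_
    calc 2000 * (1 / q) ^ 16 ≤ 2000 * (1 / 10 ^ 4) ^ 16 := by linarith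
      _ ≤ 1 := by norm_num
  have hP : ∏ i, ((aa m i : ℝ) ^ (bb m i)) = Real.exp (Lam q) := by
    rw [← hlog, Real.exp_log hPpos]
  have hPne : ∏ i, ((aa m i : ℝ) ^ (bb m i)) ≠ 1 := by
    rw [hP]
    intro hcon
    exact hLne (by rw [Real.exp_eq_one_iff] at hcon; exact hcon)
  have hfin := h 8 (aa m) (bb m) (aa_pos m hm1) (bb_ne m) hPne
  have hup : |(∏ i, ((aa m i : ℝ) ^ (bb m i))) - 1| ≤ 4000 * (1 / q) ^ 16 := by
    rw [hP]
    refine (Real.abs_exp_sub_one_le habs1).trans ?_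
    linarith
  -- lower bound for the left-hand side
  have hH := H_bound m hm1
  rw [← hq, ← hK] at hH
  have hHpos : (0 : ℝ) < ((|(∏ i, bb m i) * ∏ i, (aa m i : ℤ)| : ℤ) : ℝ) := by
    have : (0 : ℤ) < |(∏ i, bb m i) * ∏ i, (aa m i : ℤ)| := by
      rw [abs_pos]
      apply mul_ne_zero
      · exact Finset.prod_ne_zero_iff.mpr (fun i _ => bb_ne m i)
      · exact Finset.prod_ne_zero_iff.mpr
          (fun i _ => by have := aa_pos m hm1 i; exact_mod_cast this.ne')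
    exact_mod_cast this
  obtain ⟨H, hHdef⟩ : ∃ H : ℝ, H = ((|(∏ i, bb m i) * ∏ i, (aa m i : ℤ)| : ℤ) : ℝ) := ⟨_, rfl⟩
  rw [← hHdef] at hH hHpos hfin
  have hB : q ≤ ((Finset.univ.sup (fun j => (bb m j).natAbs) : ℕ) : ℝ) := by
    have h1 : (bb m 0).natAbs ≤ Finset.univ.sup (fun j => (bb m j).natAbs) :=
      Finset.le_sup (f := fun j => (bb m j).natAbs) (Finset.mem_univ 0)
    have h2 : ((bb m 0).natAbs : ℝ) = |((bb m 0 : ℤ) : ℝ)| := by
      rw [Nat.cast_natAbs]; push_cast; rfl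
    have h3 : (((bb m 0).natAbs : ℕ) : ℝ)
        ≤ ((Finset.univ.sup (fun j => (bb m j).natAbs) : ℕ) : ℝ) := by exact_mod_cast h1
    refine le_trans ?_ h3
    rw [h2, rb0 m q hmq]
    refine le_trans ?_ (le_abs_self _)
    linarith
  have hHp : H ^ (1 + 1 / 15 : ℝ) ≤ K ^ (16 / 15 : ℝ) * q ^ 16 := by
    have h1 : H ^ (1 + 1 / 15 : ℝ) ≤ (K * q ^ 15) ^ (1 + 1 / 15 : ℝ) :=
      Real.rpow_le_rpow hHpos.le hH (by norm_num)
    refine h1.trans (le_of_eq ?_)
    rw [Real.mul_rpow (by positivity) (by positivity)]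
    have h2 : (1 + 1 / 15 : ℝ) = 16 / 15 := by norm_num
    rw [h2]
    congr 1
    rw [← Real.rpow_natCast q 15, ← Real.rpow_mul hq0.le, ← Real.rpow_natCast q 16]
    norm_num
  have hHp0 : 0 < H ^ (1 + 1 / 15 : ℝ) := Real.rpow_pos_of_pos hHpos _
  have hlhs : C * q / (K ^ (16 / 15 : ℝ) * q ^ 16)
      ≤ C * ((Finset.univ.sup (fun j => (bb m j).natAbs) : ℕ) : ℝ) / H ^ (1 + 1 / 15 : ℝ) := by
    apply div_le_div₀
    · exact mul_nonneg hC.le (Nat.cast_nonneg _)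
    · exact mul_le_mul_of_nonneg_left hB hC.le
    · exact hHp0
    · exact hHp
  have hcomb := (hlhs.trans hfin).trans hup
  rw [div_le_iff₀ (by positivity)] at hcomb
  have hsimp : 4000 * (1 / q) ^ 16 * (K ^ (16 / 15 : ℝ) * q ^ 16)
      = 4000 * K ^ (16 / 15 : ℝ) := by
    field_simp
  rw [hsimp] at hcomb
  rw [div_lt_iff₀ hC] at hqbig
  linarith

end Pool.Agent.S18732
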