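import Pool.Statements.S19141
import Pool.Agent.H94.Mom
import Pool.Agent.H94.Walk

set_option autoImplicit false
open MeasureTheory ProbabilityTheory
open Pool Pool.MP_0c40c8_pr

namespace Pool.Agent.S19141

open Pool.Agent.H94 in
/-- For a unimodular Galton–Watson tree whose degree law has finite support and no mass at 0 or 1, the compactly supported measure whose k-th moment is the expected number of length-k closed walks at the root has finitely many atoms. -/
theorem result :
  ∀ (P : PMF ℕ), P.support.Finite → P 0 = 0 → P 1 = 0 →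
  ∀ (Ω : Type) [MeasureSpace Ω] [IsProbabilityMeasure (volume : Measure Ω)]
    (N : List ℕ → Ω → ℕ),
    (∀ w, Measurable (N w)) → iIndepFun N (volume : Measure Ω) →
    (∀ k : ℕ, (volume : Measure Ω) {ω | N [] ω = k} = P k) →
    (∀ w : List ℕ, w ≠ [] → ∀ k : ℕ,
      (volume : Measure Ω) {ω | N w ω = k}
        = ((k : ENNReal) + 1) * P (k + 1) / ∑' j : ℕ, (j : ENNReal) * P j) →
    ∀ ν : Measure ℝ, IsProbabilityMeasure ν →
      (∃ R : ℝ, ν (Set.Icc (-R) R)ᶜ = 0) →
      (∀ k : ℕ, ∫ x, x ^ k ∂ν =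
        ∫ ω, ((Set.ncard {f : Fin (k + 1) → List ℕ |
            f 0 = [] ∧ f (Fin.last k) = [] ∧
            (∀ i, ∀ j < (f i).length, (f i).getD j 0 < N ((f i).take j) ω) ∧
            ∀ i : Fin k, (∃ a : ℕ, f i.succ = f i.castSucc ++ [a]) ∨
                         (∃ a : ℕ, f i.castSucc = f i.succ ++ [a])} : ℕ) : ℝ)
          ∂(volume : Measure Ω)) →
      {x : ℝ | ν {x} ≠ 0}.Finite := by
  intro P hfin hP0 hP1 Ω _ _ N hNm hNi hroot hchild ν hν hR hmom
  obtain ⟨R, hR⟩ := hR
  -- degree bound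
  obtain ⟨Δ, hΔ2, hΔ⟩ : ∃ Δ : ℕ, 2 ≤ Δ ∧ ∀ k, Δ < k → P k = 0 := by
    obtain ⟨B, hB⟩ := hfin.bddAbove
    refine ⟨max 2 B, le_max_left _ _, ?_⟩
    intro k hk
    by_contra h
    have h1 : k ∈ P.support := (PMF.mem_support_iff P k).2 h
    have h2 := hB h1
    have := le_max_right 2 B
    omega
  -- laws
  set μ0 : Measure ℕ := (volume : Measure Ω).map (N []) with hμ0
  set qh : Measure ℕ := (volume : Measure Ω).map (N [0]) with hqh
  have : IsProbabilityMeasure μ0 := Measure.isProbabilityMeasure_map (hNm []).aemeasurable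
  have : IsProbabilityMeasure qh := Measure.isProbabilityMeasure_map (hNm [0]).aemeasurable
  have hpw : ∀ w, IsProbabilityMeasure ((volume : Measure Ω).map (N w)) := fun w =>
    Measure.isProbabilityMeasure_map (hNm w).aemeasurable
  have hμ0s : ∀ k, μ0 {k} = P k := by
    intro k
    rw [hμ0, Measure.map_apply (hNm []) (measurableSet_singleton k)]
    exact hroot k
  have hws : ∀ w, w ≠ [] → ∀ k, ((volume : Measure Ω).map (N w)) {k} =
      ((k : ENNReal) + 1) * P (k + 1) / ∑' j : ℕ, (j : ENNReal) * P j := by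
    intro w hw k
    rw [Measure.map_apply (hNm w) (measurableSet_singleton k)]
    exact hchild w hw k
  have hqhs : ∀ k, qh {k} = ((k : ENNReal) + 1) * P (k + 1) / ∑' j : ℕ, (j : ENNReal) * P j :=
    hws [0] (by simp)
  have hwq : ∀ w, w ≠ [] → (volume : Measure Ω).map (N w) = qh := by
    intro w hw
    apply Measure.ext_of_singleton
    intro k
    rw [hws w hw, hqhs]
  set m : ENNReal := ∑' j : ℕ, (j : ENNReal) * P j with hm
  have hmtop : m ≠ ⊤ := by
    have h1 : m = ∑ j ∈ Finset.range (Δ + 1), (j : ENNReal) * P j := by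
      rw [hm]
      apply tsum_eq_sum
      intro j hj
      rw [Finset.mem_range, not_lt] at hj
      rw [hΔ j (by omega), mul_zero]
    rw [h1]
    apply ENNReal.sum_ne_top.2
    intro j _
    exact ENNReal.mul_ne_top (ENNReal.natCast_ne_top j) (PMF.apply_ne_top P j)
  have hm0 : m ≠ 0 := by
    intro h
    rw [hm, ENNReal.tsum_eq_zero] at h
    have h2 : ∀ j, P j = 0 := by
      intro j
      rcases Nat.eq_zero_or_pos j with h3 | h3
      · rw [h3]; exact hP0
      · rcases mul_eq_zero.1 (h j) with h4 | h4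
        · exfalso
          have : j = 0 := by exact_mod_cast h4
          omega
        · exact h4
    have h5 := P.tsum_coe
    simp [h2] at h5
  have hrel : ∀ k : ℕ, ((k : ENNReal) + 1) * μ0 {k + 1} = m * qh {k} := by
    intro k
    rw [hμ0s, hqhs]
    exact (ENNReal.mul_div_cancel hm0 hmtop).symm
  have hq0 : qh {0} = 0 := by
    rw [hqhs]
    simp [hP1]
  have hqΔ : ∀ k, Δ ≤ k → qh {k} = 0 := by
    intro k hk
    rw [hqhs, hΔ (k + 1) (by omega)]
    simp
  have hμk : ∀ k, (k < 2 ∨ Δ < k) → μ0 {k} = 0 := by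
    intro k hk
    rw [hμ0s]
    rcases hk with hk | hk
    · interval_cases k
      · exact hP0
      · exact hP1
    · exact hΔ k hk
  -- law of the whole environment
  have hξm : Measurable (fun ω (w : List ℕ) => N w ω) := by
    rw [measurable_pi_iff]; exact hNm
  have hlaw : (volume : Measure Ω).map (fun ω (w : List ℕ) => N w ω) = PP μ0 qh := by
    rw [(iIndepFun_iff_map_fun_eq_infinitePi_map hNm).1 hNi]
    exact infinitePi_eq_PP (fun w => (volume : Measure Ω).map (N w)) qh hwq
  -- bounded degrees almost surely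
  have hbdd : ∀ᵐ ω ∂(volume : Measure Ω), ∀ w, N w ω ≤ Δ := by
    rw [ae_all_iff]
    intro w
    have h1 : ∀ k, Δ < k → ((volume : Measure Ω).map (N w)) {k} = 0 := by
      intro k hk
      by_cases hw : w = []
      · subst hw; exact hμk k (Or.inr hk)
      · rw [hwq w hw]; exact hqΔ k hk.le
    have h2 : ∀ᵐ k ∂((volume : Measure Ω).map (N w)), k ≤ Δ := by
      rw [ae_iff]
      have : {k | ¬ k ≤ Δ} = ⋃ k ∈ {k | ¬ k ≤ Δ}, {k} := by ext; simp
      rw [this, measure_biUnion_null_iff (Set.to_countable _)]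
      intro k hk
      exact h1 k (by simpa using hk)
    exact ae_of_ae_map (hNm w).aemeasurable h2
  -- moments
  have hmom' : ∀ k : ℕ, ∫ t, t ^ k ∂ν = ∫ x, (Aop Δ x ^ k) (δ []) [] ∂(PP μ0 qh) := by
    intro k
    rw [hmom k, ← hlaw, integral_map hξm.aemeasurable
      (Mf_Aop_pow Δ k (δ []) []).aestronglyMeasurable]
    apply integral_congr_ae
    filter_upwards [hbdd] with ω hω
    exact ncard_walks (x := fun w => N w ω) hω k
  obtain ⟨K, hK⟩ := core (m := m) hΔ2 hq0 hqΔ hμk hrel hm0
  refine (Ev_finite K).subset ?_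
  intro lam hlam
  by_contra hE
  apply hlam
  have h1 := atom_le (Δ := Δ) (μ := PP μ0 qh) hR hmom' lam
  have h2 : ∫ x, aa Δ lam x ∂(PP μ0 qh) = 0 := by
    rw [integral_eq_lintegral_of_nonneg_ae (Filter.Eventually.of_forall (aa_nonneg Δ lam))
      (measurable_aa Δ lam).aestronglyMeasurable, hK lam hE]
    simp
  rw [h2] at h1
  have h3 : (ν {lam}).toReal = 0 := le_antisymm h1 ENNReal.toReal_nonneg
  rcases (ENNReal.toReal_eq_zero_iff _).1 h3 with h | h
  · exact h
  · exact absurd h (measure_ne_top _ _)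

end Pool.Agent.S19141
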