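import Pool.Statements.S19262
import Pool.Agent.H71.Col.Final
import Pool.Agent.H16.Col.Pos2

set_option autoImplicit false
open MeasureTheory ProbabilityTheory
open Pool Pool.MP_341645_pr

namespace Pool.Agent.S19262

/-- The negation of the preceding statement: Any two shift-invariant random 3-colorings of the integers (adjacent colors a.s. distinct) in which sets of sites more than distance 2 apart are independent must have the same law. -/
theorem result :
    ¬ (∀ μ ν : Measure (ℤ → Fin 3),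
    IsProbabilityMeasure μ → IsProbabilityMeasure ν →
    μ.map (fun (x : ℤ → Fin 3) (n : ℤ) => x (n + 1)) = μ →
    ν.map (fun (x : ℤ → Fin 3) (n : ℤ) => x (n + 1)) = ν →
    (∀ᵐ x ∂μ, ∀ n : ℤ, x n ≠ x (n + 1)) →
    (∀ᵐ x ∂ν, ∀ n : ℤ, x n ≠ x (n + 1)) →
    (∀ A B : Set ℤ, (∀ a ∈ A, ∀ b ∈ B, (2 : ℤ) < |a - b|) →
      IndepFun (fun (x : ℤ → Fin 3) (a : A) => x a)
        (fun (x : ℤ → Fin 3) (b : B) => x b) μ) →
    (∀ A B : Set ℤ, (∀ a ∈ A, ∀ b ∈ B, (2 : ℤ) < |a - b|) →
      IndepFun (fun (x : ℤ → Fin 3) (a : A) => x a)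
        (fun (x : ℤ → Fin 3) (b : B) => x b) ν) →
    μ = ν) := by
  exact Pool.H71.Final.notMain_of_run H16Col.run_pos

end Pool.Agent.S19262
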