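import Pool.Statements.S19693

import Pool.Agent.H61.LC.L11

set_option autoImplicit false
open Filter Topology
open Pool Pool.MP_e1ee2a_pr

namespace Pool.Agent.S19693

open Pool.Agent.H61.SW Pool.H98.C Pool.H61.ST

/-- If infinite connected locally finite vertex-transitive graphs Gₖ converge locally to G (for each r, rooted r-balls eventually isomorphic), then their connective constants (limits of SAW(n)^(1/n)) converge to that of G. -/
theorem result :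
  ∀ (G : SimpleGraph ℕ) (Gs : ℕ → SimpleGraph ℕ) (μ : ℝ) (μs : ℕ → ℝ),
    (G.Connected ∧ (∀ v, (G.neighborSet v).Finite) ∧
      (∀ u v : ℕ, ∃ φ : G ≃g G, φ u = v)) →
    (∀ k, (Gs k).Connected ∧ (∀ v, ((Gs k).neighborSet v).Finite) ∧
      (∀ u v : ℕ, ∃ φ : Gs k ≃g Gs k, φ u = v)) →
    Tendsto (fun n : ℕ =>
      ((Set.ncard {p : Σ v : ℕ, G.Walk 0 v | p.2.IsPath ∧ p.2.length = n} : ℕ) : ℝ)
        ^ ((1 : ℝ) / n)) atTop (𝓝 μ) →
    (∀ k, Tendsto (fun n : ℕ =>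
      ((Set.ncard {p : Σ v : ℕ, (Gs k).Walk 0 v | p.2.IsPath ∧ p.2.length = n} : ℕ) : ℝ)
        ^ ((1 : ℝ) / n)) atTop (𝓝 (μs k))) →
    (∀ r : ℕ, ∀ᶠ k in atTop,
      ∃ φ : (Gs k).induce {v : ℕ | (Gs k).dist 0 v ≤ r} ≃g G.induce {v : ℕ | G.dist 0 v ≤ r},
        ∀ x : ↥{v : ℕ | (Gs k).dist 0 v ≤ r}, (x : ℕ) = 0 →
          ((φ x : ↥{v : ℕ | G.dist 0 v ≤ r}) : ℕ) = 0) →
    Tendsto μs atTop (𝓝 μ) := by
  intro G Gs μ μs ⟨hGc, hGf, hGt⟩ hGs hμ hμs hloc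
  simp only [ncard_walks] at hμ hμs
  have hTG : TG G := ⟨hGc, hGf, hGt⟩
  have hTk : ∀ k, TG (Gs k) := fun k => ⟨(hGs k).1, (hGs k).2.1, (hGs k).2.2⟩
  have heqG : ∀ v n, cnt (sa G) v n = cnt (sa G) 0 n := fun v n => cnt_eq hTG v n
  have heqk : ∀ k v n, cnt (sa (Gs k)) v n = cnt (sa (Gs k)) 0 n := fun k v n => cnt_eq (hTk k) v n
  have hcnt : ∀ n : ℕ, ∀ᶠ k in atTop, cnt (sa (Gs k)) 0 n = cnt (sa G) 0 n := by
    intro n
    filter_upwards [hloc n] with k hk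
    obtain ⟨φ, hφ⟩ := hk
    exact cnt_sa_eq_of_iso 0 0 n (hGs k).2.1 hGf φ hφ
  have hball : ∀ r : ℕ, ∀ᶠ k in atTop,
      Set.ncard {v | (Gs k).dist 0 v ≤ r} = Set.ncard {v | G.dist 0 v ≤ r} := by
    intro r
    filter_upwards [hloc r] with k hk
    obtain ⟨φ, hφ⟩ := hk
    rw [← Nat.card_coe_set_eq, ← Nat.card_coe_set_eq]
    exact Nat.card_congr φ.toEquiv
  have hBI : ∀ n : ℕ, ∀ᶠ k in atTop, BI G 0 (Gs k) 0 n := by
    intro n
    filter_upwards [hloc n] with k hk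
    obtain ⟨φ, hφ⟩ := hk
    refine ⟨φ.symm, fun x hx => ?_⟩
    obtain ⟨y, hy⟩ : ∃ y : ↥{v : ℕ | (Gs k).dist 0 v ≤ n}, (y : ℕ) = 0 := ⟨⟨0, by simp⟩, rfl⟩
    have h1 := hφ y hy
    have h2 : φ y = x := Subtype.ext (h1.trans hx.symm)
    rw [← h2, RelIso.symm_apply_apply]
    exact hy
  have hμ1 : 1 ≤ μ := one_le_mu hTG 0 hμ
  have hle : ∀ n, 0 < n → ∀ᶠ k in atTop, μs k ≤ (cnt (sa G) 0 n : ℝ) ^ ((1 : ℝ) / n) := by
    intro n hn
    filter_upwards [hcnt n] with k hk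
    rw [← hk]
    exact mu_pow_le (hGs k).2.1 0 (heqk k) (hμs k) n hn
  rw [tendsto_order]
  constructor
  · intro a ha
    by_cases hgr : ∃ c : ℝ, 0 < c ∧ ∀ r : ℕ, 1 ≤ r →
      c * (r : ℝ) ^ 5 ≤ ((Set.ncard {v : ℕ | G.dist 0 v ≤ r} : ℕ) : ℝ)
    · obtain ⟨c, hc, hgrow⟩ := hgr
      have hpow : ∀ n, μ ^ n ≤ (cnt (sa G) 0 n : ℝ) := by
        intro n
        rcases Nat.eq_zero_or_pos n with rfl | hn
        · rw [pow_zero, sigma_zero]; norm_num
        have h4 := mu_pow_le hGf 0 heqG hμ n hn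
        calc μ ^ n ≤ ((cnt (sa G) 0 n : ℝ) ^ ((1 : ℝ) / n)) ^ n :=
              pow_le_pow_left₀ (by linarith) h4 n
          _ = (cnt (sa G) 0 n : ℝ) := by
            rw [← Real.rpow_natCast, ← Real.rpow_mul (Nat.cast_nonneg _)]
            have : (n : ℝ) ≠ 0 := by exact_mod_cast hn.ne'
            rw [one_div_mul_cancel this, Real.rpow_one]
      obtain ⟨n0, hn0⟩ := lower_bound μ c (max 1 (cnt (sa G) 0 1 : ℝ)) hc (le_max_left _ _)
        (fun n => cnt (sa G) 0 n) (fun r => Set.ncard {v | G.dist 0 v ≤ r}) (le_max_right _ _)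
        hpow hgrow a ha (by linarith)
      have h1 : ∀ᶠ k in atTop, ∀ n ∈ Finset.range (n0 + 1),
          cnt (sa (Gs k)) 0 n = cnt (sa G) 0 n :=
        (Finset.range (n0 + 1)).eventually_all.2 fun n _ => hcnt n
      have h2 : ∀ᶠ k in atTop, ∀ n ∈ Finset.range (n0 + 1),
          Set.ncard {v | (Gs k).dist 0 v ≤ n} = Set.ncard {v | G.dist 0 v ≤ n} :=
        (Finset.range (n0 + 1)).eventually_all.2 fun n _ => hball n
      filter_upwards [h1, h2] with k h3 h4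
      exact hn0 ℕ (Gs k) 0 (μs k) (hTk k) (hμs k)
        (fun n hn => h3 n (Finset.mem_range.2 (by omega)))
        (fun n hn => h4 n (Finset.mem_range.2 (by omega)))
    · have hpg : PG hTG 0 5 := by
        intro N
        by_contra hN
        push Not at hN
        refine hgr ⟨1 / ((N : ℝ) + 1) ^ 5, by positivity, fun r hr => ?_⟩
        have h2 : ((Set.ncard {v : ℕ | G.dist 0 v ≤ r} : ℕ) : ℝ) = ((bl hTG 0 r).card : ℝ) := by
          rw [Set.ncard_eq_toFinset_card _ (ball_finite hTG.lf hTG.conn 0 r)]; rfl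
        have hr1 : (1 : ℝ) ≤ ((bl hTG 0 r).card : ℝ) := by
          have : 0 < (bl hTG 0 r).card := Finset.card_pos.2 ⟨0, (mem_bl hTG 0 0 r).2 (by simp)⟩
          exact_mod_cast this
        rw [h2]
        rw [one_div_mul_eq_div, div_le_iff₀ (by positivity)]
        by_cases h : N ≤ r
        · have h1 := hN r h
          have h3 : (1 : ℝ) ≤ ((N : ℝ) + 1) ^ 5 := one_le_pow₀ (by linarith [Nat.cast_nonneg (α := ℝ) N])
          nlinarith
        · have h4 : (r : ℝ) ≤ (N : ℝ) + 1 := by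
            have : r ≤ N + 1 := by omega
            exact_mod_cast this
          have h5 : (r : ℝ) ^ 5 ≤ ((N : ℝ) + 1) ^ 5 := pow_le_pow_left₀ (Nat.cast_nonneg _) h4 5
          nlinarith [pow_nonneg (by positivity : (0 : ℝ) ≤ (N : ℝ) + 1) 5]
      obtain ⟨n0, hn0⟩ := pg_lower hTG 0 5 hpg hμ a ha
      have h1 : ∀ᶠ k in atTop, ∀ n ∈ Finset.range (n0 + 1), BI G 0 (Gs k) 0 n :=
        (Finset.range (n0 + 1)).eventually_all.2 fun n _ => hBI n
      filter_upwards [h1] with k h3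
      exact hn0 ℕ (Gs k) 0 (μs k) (hTk k) (hμs k)
        (fun n hn => h3 n (Finset.mem_range.2 (by omega)))
  · intro b hb
    obtain ⟨n, h1, h2⟩ := ((hμ.eventually (gt_mem_nhds hb)).and (eventually_gt_atTop 0)).exists
    filter_upwards [hle n h2] with k hk
    exact hk.trans_lt h1

end Pool.Agent.S19693
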